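import Pool.Agent.H33.PathSpace

/-!
The predual `X` of the path space and its bidual.
-/

namespace Pool.Agent.H33

open Set Filter Topology

variable {𝕜 : Type*} [RCLike 𝕜]

namespace Z

/-- Evaluation at a node. -/
noncomputable def dl (k : ℕ) (γ : ℕ → Bool) : Z 𝕜 →L[𝕜] 𝕜 :=
  LinearMap.mkContinuous ((LinearMap.proj γ).comp ((LinearMap.proj k).comp Z.val)) 1
    (fun f => by rw [one_mul]; exact norm_apply_le f k γ)

@[simp] lemma dl_apply (k : ℕ) (γ : ℕ → Bool) (f : Z 𝕜) : dl k γ f = f k γ := rfl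

/-- Evaluation at a branch. -/
noncomputable def infL (γ : ℕ → Bool) : Z 𝕜 →L[𝕜] 𝕜 :=
  LinearMap.mkContinuous (inf γ) 1 (fun f => by rw [one_mul]; exact norm_inf_le f γ)

@[simp] lemma infL_apply (γ : ℕ → Bool) (f : Z 𝕜) : infL γ f = inf γ f := rfl

/-- Stopping as a continuous linear map. -/
noncomputable def PL (m : ℕ) : Z 𝕜 →L[𝕜] Z 𝕜 :=
  LinearMap.mkContinuous (P m) 1 (fun f => by rw [one_mul]; exact norm_P_le m f)

@[simp] lemma PL_apply (m : ℕ) (f : Z 𝕜) : PL m f = P m f := rfl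

end Z

namespace E

lemma exists_lam (Φ : E 𝕜 →L[𝕜] 𝕜) (z : Z 𝕜) :
    ∃ l, Tendsto (fun n => Φ (stp n z)) atTop (𝓝 l) := by
  apply cauchySeq_tendsto_of_complete
  rw [Metric.cauchySeq_iff']
  intro ε hε
  obtain ⟨N, hN⟩ := SE Φ (δ := ε / (4 * (‖z‖ + 1))) (by positivity)
  refine ⟨max (N + 1) (Z.st z), fun n hn => ?_⟩
  have hz1 : Z.P n z = z := Z.P_of_st_le ((le_max_right _ _).trans hn)
  have hz2 : Z.P (max (N + 1) (Z.st z)) z = z := Z.P_of_st_le (le_max_right _ _)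
  have hn1 : N < n := (le_max_left _ _).trans hn
  have h1 := hN (stp n z - stp (max (N + 1) (Z.st z)) z)
    (by rw [map_sub, Pi_stp_of_lt hn1, Pi_stp_of_lt (lt_of_lt_of_le (Nat.lt_succ_self N)
      (le_max_left _ _)), sub_zero])
    (by rw [map_sub, q_stp, q_stp, sub_self])
  rw [dist_eq_norm, ← map_sub]
  refine h1.trans_lt ?_
  have h2 : ‖stp n z - stp (max (N + 1) (Z.st z)) z‖ ≤ ‖z‖ + ‖z‖ :=
    (norm_sub_le _ _).trans (add_le_add (norm_stp_le hz1) (norm_stp_le hz2))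
  have hz0 := norm_nonneg z
  calc ε / (4 * (‖z‖ + 1)) * ‖stp n z - stp (max (N + 1) (Z.st z)) z‖
      ≤ ε / (4 * (‖z‖ + 1)) * (‖z‖ + ‖z‖) := by gcongr
    _ = ε * (2 * ‖z‖) / (4 * (‖z‖ + 1)) := by ring
    _ < ε := by
      rw [div_lt_iff₀ (by positivity)]
      nlinarith

/-- The limit of `Φ` along the jump paths. -/
noncomputable def lamf (Φ : E 𝕜 →L[𝕜] 𝕜) (z : Z 𝕜) : 𝕜 := Classical.choose (exists_lam Φ z)

lemma tendsto_lamf (Φ : E 𝕜 →L[𝕜] 𝕜) (z : Z 𝕜) :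
    Tendsto (fun n => Φ (stp n z)) atTop (𝓝 (lamf Φ z)) := Classical.choose_spec (exists_lam Φ z)

lemma norm_lamf_le (Φ : E 𝕜 →L[𝕜] 𝕜) (z : Z 𝕜) : ‖lamf Φ z‖ ≤ ‖Φ‖ * ‖z‖ := by
  apply le_of_tendsto (tendsto_lamf Φ z).norm
  filter_upwards [eventually_ge_atTop (Z.st z)] with n hn
  exact (Φ.le_opNorm _).trans
    (mul_le_mul_of_nonneg_left (norm_stp_le (Z.P_of_st_le hn)) (norm_nonneg _))

/-- The quotient map onto the dual of `Z`. -/
noncomputable def lam : (E 𝕜 →L[𝕜] 𝕜) →L[𝕜] (Z 𝕜 →L[𝕜] 𝕜) :=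
  LinearMap.mkContinuous₂ (LinearMap.mk₂ 𝕜 (fun Φ z => lamf Φ z)
    (fun Φ Ψ z => tendsto_nhds_unique (tendsto_lamf (Φ + Ψ) z)
      ((tendsto_lamf Φ z).add (tendsto_lamf Ψ z)))
    (fun c Φ z => tendsto_nhds_unique (tendsto_lamf (c • Φ) z)
      ((tendsto_lamf Φ z).const_smul c))
    (fun Φ z w => tendsto_nhds_unique (tendsto_lamf Φ (z + w)) (by
      have := (tendsto_lamf Φ z).add (tendsto_lamf Φ w)
      refine this.congr fun n => ?_
      rw [map_add (stp n), map_add Φ]))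
    (fun c Φ z => tendsto_nhds_unique (tendsto_lamf Φ (c • z)) (by
      have := (tendsto_lamf Φ z).const_smul c
      refine this.congr fun n => ?_
      rw [map_smul (stp n), map_smul Φ]))) 1
    (fun Φ z => by rw [one_mul]; exact norm_lamf_le Φ z)

lemma tendsto_lam (Φ : E 𝕜 →L[𝕜] 𝕜) (z : Z 𝕜) :
    Tendsto (fun n => Φ (stp n z)) atTop (𝓝 (lam Φ z)) := tendsto_lamf Φ z

/-- Coordinate functionals. -/
noncomputable def cf (n k : ℕ) (γ : ℕ → Bool) : E 𝕜 →L[𝕜] 𝕜 :=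
  (Z.dl (k + 1) γ - Z.dl k γ : Z 𝕜 →L[𝕜] 𝕜).comp (ev (n + 1) - ev n)

lemma cf_apply (n k : ℕ) (γ : ℕ → Bool) (X : E 𝕜) : cf n k γ X =
    (X (n + 1) - X n) (k + 1) γ - (X (n + 1) - X n) k γ := rfl

lemma Pi_expand_aux (N : ℕ) (X : E 𝕜) :
    Pi N X = ∑ n ∈ Finset.range N, stp (n + 1) (X (n + 1) - X n) := by
  ext m : 1
  rw [Pi_apply, sum_apply]
  have h : ∀ n ∈ Finset.range N, (stp (n + 1) (X (n + 1) - X n)) m =
      X (min m (n + 1)) - X (min m n) := by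
    intro n _
    rw [stp_apply_of_P]
    · split_ifs with hnm
      · rw [min_eq_right hnm, min_eq_right ((Nat.le_succ n).trans hnm)]
      · rw [min_eq_left (by omega), min_eq_left (by omega), sub_self]
    · rw [map_sub, X.P_apply_self, X.P_apply_of_le (Nat.le_succ n)]
  rw [Finset.sum_congr rfl h, Finset.sum_range_sub (fun n => X (min m n))]
  rw [min_eq_right (Nat.zero_le m), apply_zero, sub_zero]

lemma Pi_expand (N : ℕ) (X : E 𝕜) :
    Pi N X = ∑ n ∈ Finset.range N, ∑ k ∈ Finset.range (n + 1), ∑ s : Fin (k + 1) → Bool,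
      cf n k (ext s) X • stp (n + 1) (Z.e (k + 1) (ext s)) := by
  rw [Pi_expand_aux]
  apply Finset.sum_congr rfl
  intro n _
  have h1 : Z.P (n + 1) (X (n + 1) - X n) = X (n + 1) - X n := by
    rw [map_sub, X.P_apply_self, X.P_apply_of_le (Nat.le_succ n)]
  conv_lhs => rw [← h1, Z.P_expand]
  rw [map_sum]
  apply Finset.sum_congr rfl
  intro k _
  rw [map_sum]
  apply Finset.sum_congr rfl
  intro s _
  rw [map_smul, cf_apply]

end E

/-- Index type for the coordinate functionals. -/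
abbrev NI : Type := Σ p : ℕ × ℕ, (Fin (p.2 + 1) → Bool)

/-- All coordinate functionals. -/
noncomputable def cfam (𝕜 : Type*) [RCLike 𝕜] (p : NI) : E 𝕜 →L[𝕜] 𝕜 :=
  E.cf p.1.1 p.1.2 (ext p.2)

/-- The space `X` as a closed subspace of the dual of `E`. -/
noncomputable def Xsub (𝕜 : Type*) [RCLike 𝕜] : Submodule 𝕜 (E 𝕜 →L[𝕜] 𝕜) :=
  (Submodule.span 𝕜 (range (cfam 𝕜))).topologicalClosure

/-- The space `X`. -/
def XX (𝕜 : Type*) [RCLike 𝕜] : Type _ := ↥(Xsub 𝕜)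

noncomputable instance : NormedAddCommGroup (XX 𝕜) :=
  inferInstanceAs (NormedAddCommGroup ↥(Xsub 𝕜))

noncomputable instance : NormedSpace 𝕜 (XX 𝕜) :=
  inferInstanceAs (NormedSpace 𝕜 ↥(Xsub 𝕜))

instance : CompleteSpace (XX 𝕜) :=
  ((Submodule.isClosed_topologicalClosure
    (Submodule.span 𝕜 (range (cfam 𝕜)))).completeSpace_coe : CompleteSpace ↥(Xsub 𝕜))

instance : TopologicalSpace.SeparableSpace (XX 𝕜) := by
  have h : TopologicalSpace.IsSeparable (Xsub 𝕜 : Set (E 𝕜 →L[𝕜] 𝕜)) := by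
    apply TopologicalSpace.IsSeparable.closure
    apply TopologicalSpace.IsSeparable.span
    exact (countable_range _).isSeparable
  exact h.separableSpace

/-- The inclusion of `X` in the dual of `E`. -/
noncomputable def incl (𝕜 : Type*) [RCLike 𝕜] : XX 𝕜 →L[𝕜] (E 𝕜 →L[𝕜] 𝕜) :=
  LinearMap.mkContinuous
    { toFun := fun g => g.1
      map_add' := fun _ _ => rfl
      map_smul' := fun _ _ => rfl } 1 (fun g => by rw [one_mul]; exact le_rfl)

/-- constructor -/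
def XX.mk (g : E 𝕜 →L[𝕜] 𝕜) (h : g ∈ Xsub 𝕜) : XX 𝕜 := ⟨g, h⟩

@[simp] lemma incl_mk (g : E 𝕜 →L[𝕜] 𝕜) (h : g ∈ Xsub 𝕜) : incl 𝕜 (XX.mk g h) = g := rfl

lemma incl_mem (g : XX 𝕜) : incl 𝕜 g ∈ Xsub 𝕜 := g.2

lemma norm_incl (g : XX 𝕜) : ‖incl 𝕜 g‖ = ‖g‖ := rfl

lemma incl_injective {g g' : XX 𝕜} (h : incl 𝕜 g = incl 𝕜 g') : g = g' := Subtype.ext h

lemma comp_Pi_mem_span (g : E 𝕜 →L[𝕜] 𝕜) (N : ℕ) :
    g.comp (E.PiL N) ∈ Submodule.span 𝕜 (range (cfam 𝕜)) := by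
  have h : g.comp (E.PiL N) = ∑ n ∈ Finset.range N, ∑ k ∈ Finset.range (n + 1),
      ∑ s : Fin (k + 1) → Bool, g (E.stp (n + 1) (Z.e (k + 1) (ext s))) • E.cf n k (ext s) := by
    ext X
    rw [ContinuousLinearMap.comp_apply, E.PiL_apply, E.Pi_expand]
    simp only [map_sum, map_smul, _root_.sum_apply, _root_.smul_apply,
      smul_eq_mul]
    apply Finset.sum_congr rfl; intro n _
    apply Finset.sum_congr rfl; intro k _
    apply Finset.sum_congr rfl; intro s _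
    ring
  rw [h]
  refine Submodule.sum_mem _ fun n _ => Submodule.sum_mem _ fun k _ => Submodule.sum_mem _
    fun s _ => Submodule.smul_mem _ _ (Submodule.subset_span ⟨⟨(n, k), s⟩, rfl⟩)

lemma comp_Pi_mem (g : E 𝕜 →L[𝕜] 𝕜) (N : ℕ) : g.comp (E.PiL N) ∈ Xsub 𝕜 :=
  Submodule.le_topologicalClosure _ (comp_Pi_mem_span g N)

/-- The map from `E` to the dual of `X`. -/
noncomputable def iota (𝕜 : Type*) [RCLike 𝕜] : E 𝕜 →L[𝕜] (XX 𝕜 →L[𝕜] 𝕜) :=
  ContinuousLinearMap.flip (incl 𝕜)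

@[simp] lemma iota_apply (x : E 𝕜) (g : XX 𝕜) : iota 𝕜 x g = incl 𝕜 g x := rfl

lemma norm_PiL_le (N : ℕ) : ‖(E.PiL N : E 𝕜 →L[𝕜] E 𝕜)‖ ≤ 1 :=
  ContinuousLinearMap.opNorm_le_bound _ zero_le_one
    (fun X => by rw [one_mul]; exact E.norm_Pi_le N X)

lemma norm_comp_PiL_le (g : E 𝕜 →L[𝕜] 𝕜) (N : ℕ) : ‖g.comp (E.PiL N)‖ ≤ ‖g‖ :=
  (ContinuousLinearMap.opNorm_comp_le _ _).trans
    (by
      calc ‖g‖ * ‖(E.PiL N : E 𝕜 →L[𝕜] E 𝕜)‖ ≤ ‖g‖ * 1 := by
            gcongr; exact norm_PiL_le N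
        _ = ‖g‖ := mul_one _)

lemma norm_iota (x : E 𝕜) : ‖iota 𝕜 x‖ = ‖x‖ := by
  apply le_antisymm
  · apply ContinuousLinearMap.opNorm_le_bound _ (norm_nonneg _)
    intro g
    rw [iota_apply, mul_comm, ← norm_incl]
    exact (incl 𝕜 g).le_opNorm x
  · obtain ⟨g, hg1, hg2⟩ := exists_dual_vector'' 𝕜 x
    let g' : XX 𝕜 := XX.mk (g.comp (E.PiL (E.st x))) (comp_Pi_mem _ _)
    have h1 : ‖g'‖ ≤ 1 := (norm_comp_PiL_le g _).trans hg1
    have h2 : iota 𝕜 x g' = ((‖x‖ : ℝ) : 𝕜) := by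
      rw [iota_apply]
      change g (E.Pi (E.st x) x) = _
      rw [E.Pi_st, hg2]
    have h3 := (iota 𝕜 x).le_opNorm g'
    rw [h2, RCLike.norm_ofReal, abs_of_nonneg (norm_nonneg _)] at h3
    calc ‖x‖ ≤ ‖iota 𝕜 x‖ * ‖g'‖ := h3
      _ ≤ ‖iota 𝕜 x‖ * 1 := by gcongr
      _ = _ := mul_one _

lemma cf_mem (n k : ℕ) (s : Fin (k + 1) → Bool) : E.cf n k (ext s) ∈ Xsub 𝕜 :=
  Submodule.le_topologicalClosure _ (Submodule.subset_span ⟨⟨(n, k), s⟩, rfl⟩)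

/-- finite approximants of a functional on `X` -/
noncomputable def appr (φ : XX 𝕜 →L[𝕜] 𝕜) (N : ℕ) : E 𝕜 :=
  ∑ n ∈ Finset.range N, ∑ k ∈ Finset.range (n + 1), ∑ s : Fin (k + 1) → Bool,
    φ (XX.mk (E.cf n k (ext s)) (cf_mem n k s)) • E.stp (n + 1) (Z.e (k + 1) (ext s))

lemma comp_Pi_eq (g : E 𝕜 →L[𝕜] 𝕜) (N : ℕ) : g.comp (E.PiL N) =
    ∑ n ∈ Finset.range N, ∑ k ∈ Finset.range (n + 1),
      ∑ s : Fin (k + 1) → Bool, g (E.stp (n + 1) (Z.e (k + 1) (ext s))) • E.cf n k (ext s) := by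
  ext X
  rw [ContinuousLinearMap.comp_apply, E.PiL_apply, E.Pi_expand]
  simp only [map_sum, map_smul, _root_.sum_apply, _root_.smul_apply, smul_eq_mul]
  apply Finset.sum_congr rfl; intro n _
  apply Finset.sum_congr rfl; intro k _
  apply Finset.sum_congr rfl; intro s _
  ring

lemma appr_spec (φ : XX 𝕜 →L[𝕜] 𝕜) (N : ℕ) (g : E 𝕜 →L[𝕜] 𝕜) :
    g (appr φ N) = φ (XX.mk (g.comp (E.PiL N)) (comp_Pi_mem g N)) := by
  have h : XX.mk (g.comp (E.PiL N)) (comp_Pi_mem g N) =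
      ∑ n ∈ Finset.range N, ∑ k ∈ Finset.range (n + 1),
      ∑ s : Fin (k + 1) → Bool, g (E.stp (n + 1) (Z.e (k + 1) (ext s))) •
        XX.mk (E.cf n k (ext s)) (cf_mem n k s) := by
    apply incl_injective
    simp only [map_sum, map_smul, incl_mk]
    exact comp_Pi_eq g N
  rw [h, appr]
  simp only [map_sum, map_smul, smul_eq_mul]
  apply Finset.sum_congr rfl; intro n _
  apply Finset.sum_congr rfl; intro k _
  apply Finset.sum_congr rfl; intro s _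
  ring

lemma norm_appr_le (φ : XX 𝕜 →L[𝕜] 𝕜) (N : ℕ) : ‖appr φ N‖ ≤ ‖φ‖ := by
  obtain ⟨g, hg1, hg2⟩ := exists_dual_vector'' 𝕜 (appr φ N)
  rw [appr_spec] at hg2
  have h1 : ‖XX.mk (g.comp (E.PiL N)) (comp_Pi_mem g N)‖ ≤ 1 := (norm_comp_PiL_le g _).trans hg1
  have h2 := φ.le_opNorm (XX.mk (g.comp (E.PiL N)) (comp_Pi_mem g N))
  rw [hg2, RCLike.norm_ofReal, abs_of_nonneg (norm_nonneg _)] at h2
  calc ‖appr φ N‖ ≤ ‖φ‖ * ‖XX.mk (g.comp (E.PiL N)) (comp_Pi_mem g N)‖ := h2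
    _ ≤ ‖φ‖ * 1 := by gcongr
    _ = _ := mul_one _

lemma eq_of_forall_dual {V : Type*} [NormedAddCommGroup V] [NormedSpace 𝕜 V] {x y : V}
    (h : ∀ g : V →L[𝕜] 𝕜, g x = g y) : x = y := by
  by_contra hne
  have hne' : ‖x - y‖ ≠ 0 := fun h0 => hne (sub_eq_zero.1 (norm_eq_zero.1 h0))
  obtain ⟨g, hg1, hg2⟩ := exists_dual_vector'' 𝕜 (x - y)
  rw [map_sub, h g, sub_self] at hg2
  exact hne' (by exact_mod_cast hg2.symm)

lemma Pi_appr (φ : XX 𝕜 →L[𝕜] 𝕜) {M N : ℕ} (h : M ≤ N) : E.Pi M (appr φ N) = appr φ M := by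
  apply eq_of_forall_dual (𝕜 := 𝕜)
  intro g
  have h1 : g (E.Pi M (appr φ N)) = (g.comp (E.PiL M)) (appr φ N) := rfl
  rw [h1, appr_spec, appr_spec]
  congr 1
  apply incl_injective
  rw [incl_mk, incl_mk]
  ext X
  change g (E.Pi M (E.Pi N X)) = g (E.Pi M X)
  rw [E.Pi_Pi_of_le h]

lemma denseRange_iota : DenseRange (iota 𝕜) := by
  intro φ
  have hcau : CauchySeq (fun N => iota 𝕜 (appr φ N)) := by
    rw [Metric.cauchySeq_iff']
    intro ε hε
    obtain ⟨N, hN⟩ := (E.fam 𝕜).coherent_cauchy (θ := 3 / 4) (by norm_num)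
      (x := fun N => appr φ N) (fun m n h => Pi_appr φ h) (C := ‖φ‖) (fun n => norm_appr_le φ n) hε
    refine ⟨N, fun n hn => ?_⟩
    rw [dist_eq_norm, ← map_sub, norm_iota]
    exact hN N n le_rfl hn
  obtain ⟨φ', hφ'⟩ := cauchySeq_tendsto_of_complete hcau
  have hpt : ∀ g : XX 𝕜, Tendsto (fun N => iota 𝕜 (appr φ N) g) atTop (𝓝 (φ' g)) := by
    intro g
    exact ((ContinuousLinearMap.apply 𝕜 𝕜 g).continuous.tendsto φ').comp hφ'
  -- agreement on coordinate functionals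
  have hcf : ∀ (n k : ℕ) (s : Fin (k + 1) → Bool),
      φ' (XX.mk (E.cf n k (ext s)) (cf_mem n k s)) = φ (XX.mk (E.cf n k (ext s)) (cf_mem n k s)) := by
    intro n k s
    refine tendsto_nhds_unique (hpt _) ?_
    apply tendsto_const_nhds.congr'
    filter_upwards [eventually_ge_atTop (n + 1)] with N hN
    rw [iota_apply, incl_mk, appr_spec]
    congr 1
    apply incl_injective
    rw [incl_mk, incl_mk]
    ext X
    rw [ContinuousLinearMap.comp_apply, E.PiL_apply, E.cf_apply, E.cf_apply, E.Pi_apply,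
      E.Pi_apply, min_eq_left hN, min_eq_left ((Nat.le_succ n).trans hN)]
  have hset : ∀ g : E 𝕜 →L[𝕜] 𝕜, ∀ hg : g ∈ Xsub 𝕜, φ' (XX.mk g hg) = φ (XX.mk g hg) := by
    intro g hg
    have hcl : g ∈ closure (Submodule.span 𝕜 (range (cfam 𝕜)) : Set (E 𝕜 →L[𝕜] 𝕜)) := hg
    rw [mem_closure_iff_seq_limit] at hcl
    obtain ⟨u, hu, hlim⟩ := hcl
    have hmem : ∀ n, u n ∈ Xsub 𝕜 := fun n => Submodule.le_topologicalClosure _ (hu n)
    have hlim' : Tendsto (fun n => XX.mk (u n) (hmem n)) atTop (𝓝 (XX.mk g hg)) := by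
      rw [tendsto_iff_norm_sub_tendsto_zero] at hlim ⊢
      exact hlim
    have hspan : ∀ v (hv : v ∈ Submodule.span 𝕜 (range (cfam 𝕜))), ∀ hv' : v ∈ Xsub 𝕜,
        φ' (XX.mk v hv') = φ (XX.mk v hv') := by
      intro v hv
      induction hv using Submodule.span_induction with
      | mem x hx =>
        obtain ⟨⟨⟨n, k⟩, s⟩, rfl⟩ := hx
        intro hv'
        exact hcf n k s
      | zero =>
        intro hv'
        have : XX.mk (0 : E 𝕜 →L[𝕜] 𝕜) hv' = 0 := rfl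
        rw [this, map_zero, map_zero]
      | add x y hx hy ihx ihy =>
        intro hv'
        have hx' : x ∈ Xsub 𝕜 := Submodule.le_topologicalClosure _ hx
        have hy' : y ∈ Xsub 𝕜 := Submodule.le_topologicalClosure _ hy
        have : XX.mk (x + y) hv' = XX.mk x hx' + XX.mk y hy' := rfl
        rw [this, map_add, map_add, ihx, ihy]
      | smul a x hx ih =>
        intro hv'
        have hx' : x ∈ Xsub 𝕜 := Submodule.le_topologicalClosure _ hx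
        have : XX.mk (a • x) hv' = a • XX.mk x hx' := rfl
        rw [this, map_smul, map_smul, ih]
    refine tendsto_nhds_unique ((φ'.continuous.tendsto _).comp hlim') ?_
    refine ((φ.continuous.tendsto _).comp hlim').congr fun n => ?_
    exact (hspan _ (hu n) _).symm
  have heq : φ' = φ := by
    ext g
    exact hset (incl 𝕜 g) (incl_mem g)
  rw [← heq]
  exact mem_closure_of_tendsto hφ' (Eventually.of_forall fun N => mem_range_self _)

end Pool.Agent.H33
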