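import Mathlib

/-!
Control norms. Given a family of seminorms `N i`, each attached to an interval `[a i, b i]` of
natural numbers, we measure a vector `f` by the least `C` such that
`N i f ≤ C * (ω (b i) - ω (a i)) ^ θ` for some nondecreasing `ω : ℕ → [0,1]`.
For `θ = 1 / r` this is the `r`-variation norm.
-/

namespace Pool.Agent.H33

open Set Filter Topology

/-- A family of seminorms attached to intervals, with compatible stopping operators. -/
structure Fam (𝕜 : Type*) [RCLike 𝕜] (V : Type*) [AddCommGroup V] [Module 𝕜 V] (ι : Type*) where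
  N : ι → Seminorm 𝕜 V
  a : ι → ℕ
  b : ι → ℕ
  P : ℕ → V →ₗ[𝕜] V
  hab : ∀ i, a i ≤ b i
  triv : ∀ i, a i = b i → ∀ f, N i f = 0
  lo : ∀ (M : ℕ) (i : ι), ∃ i', a i' = min (a i) M ∧ b i' = min (b i) M ∧
    ∀ f, N i (P M f) = N i' f
  hi : ∀ (M : ℕ) (i : ι), ∃ i', a i' = max (a i) M ∧ b i' = max (b i) M ∧
    ∀ f, N i (f - P M f) = N i' f
  fin : ∀ f, ∃ (M : ℕ) (B : ℝ), (∀ i, N i f ≤ B) ∧ P M f = f

namespace Fam

variable {𝕜 V ι : Type*} [RCLike 𝕜] [AddCommGroup V] [Module 𝕜 V] (S : Fam 𝕜 V ι)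

/-- `ω` is a control for `f` with constant `C`. -/
def Ctl (θ : ℝ) (f : V) (C : ℝ) (ω : ℕ → ℝ) : Prop :=
  Monotone ω ∧ (∀ n, 0 ≤ ω n ∧ ω n ≤ 1) ∧ ∀ i, S.N i f ≤ C * (ω (S.b i) - ω (S.a i)) ^ θ

/-- The control norm. -/
noncomputable def nm (θ : ℝ) (f : V) : ℝ := sInf {C | 0 ≤ C ∧ ∃ ω, S.Ctl θ f C ω}

lemma N_nonneg (i : ι) (f : V) : 0 ≤ S.N i f := apply_nonneg _ _

lemma N_stop_eq_zero {i : ι} {M : ℕ} (h : M ≤ S.a i) (f : V) : S.N i (S.P M f) = 0 := by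
  obtain ⟨i', ha, hb, hN⟩ := S.lo M i
  rw [hN]
  apply S.triv
  rw [ha, hb, min_eq_right h, min_eq_right (h.trans (S.hab i))]

lemma N_sub_stop_eq_zero {i : ι} {M : ℕ} (h : S.b i ≤ M) (f : V) : S.N i (f - S.P M f) = 0 := by
  obtain ⟨i', ha, hb, hN⟩ := S.hi M i
  rw [hN]
  apply S.triv
  rw [ha, hb, max_eq_right h, max_eq_right ((S.hab i).trans h)]

lemma N_stop_eq {i : ι} {M : ℕ} (h : S.b i ≤ M) (f : V) : S.N i (S.P M f) = S.N i f := by
  have h0 := S.N_sub_stop_eq_zero h f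
  apply le_antisymm
  · calc S.N i (S.P M f) = S.N i (f - (f - S.P M f)) := by congr 1; abel
      _ ≤ S.N i f + S.N i (f - S.P M f) := map_sub_le_add _ _ _
      _ = S.N i f := by rw [h0, add_zero]
  · calc S.N i f = S.N i (S.P M f + (f - S.P M f)) := by congr 1; abel
      _ ≤ S.N i (S.P M f) + S.N i (f - S.P M f) := map_add_le_add _ _ _
      _ = S.N i (S.P M f) := by rw [h0, add_zero]

lemma N_sub_stop_eq {i : ι} {M : ℕ} (h : M ≤ S.a i) (f : V) : S.N i (f - S.P M f) = S.N i f := by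
  have h0 := S.N_stop_eq_zero h f
  apply le_antisymm
  · calc S.N i (f - S.P M f) ≤ S.N i f + S.N i (S.P M f) := map_sub_le_add _ _ _
      _ = S.N i f := by rw [h0, add_zero]
  · calc S.N i f = S.N i ((f - S.P M f) + S.P M f) := by congr 1; abel
      _ ≤ S.N i (f - S.P M f) + S.N i (S.P M f) := map_add_le_add _ _ _
      _ = S.N i (f - S.P M f) := by rw [h0, add_zero]

lemma set_nonempty {θ : ℝ} (hθ : 0 < θ) (f : V) : {C | 0 ≤ C ∧ ∃ ω, S.Ctl θ f C ω}.Nonempty := by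
  obtain ⟨M, B, hB, hM⟩ := S.fin f
  have hM1 : (0 : ℝ) < M + 1 := by positivity
  refine ⟨max B 0 * ((M : ℝ) + 1) ^ θ, by positivity, fun n => (min n (M + 1) : ℕ) / ((M : ℝ) + 1),
    ?_, ?_, ?_⟩
  · intro x y hxy
    have : min x (M + 1) ≤ min y (M + 1) := min_le_min hxy le_rfl
    have h2 : ((min x (M + 1) : ℕ) : ℝ) ≤ ((min y (M + 1) : ℕ) : ℝ) := by exact_mod_cast this
    simp only
    gcongr
  · intro n
    constructor
    · positivity
    · rw [div_le_one hM1]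
      have : min n (M + 1) ≤ M + 1 := min_le_right _ _
      exact_mod_cast this
  · intro i
    by_cases h1 : S.a i = S.b i
    · rw [S.triv i h1]
      have : (0 : ℝ) ≤ (min (S.b i) (M + 1) : ℕ) / ((M : ℝ) + 1) -
        (min (S.a i) (M + 1) : ℕ) / ((M : ℝ) + 1) := by rw [h1]; simp
      positivity
    have hlt : S.a i < S.b i := lt_of_le_of_ne (S.hab i) h1
    by_cases h2 : M ≤ S.a i
    · have h0 : S.N i f = 0 := by rw [← hM]; exact S.N_stop_eq_zero h2 f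
      rw [h0]
      have hmin : min (S.a i) (M + 1) ≤ min (S.b i) (M + 1) := min_le_min (S.hab i) le_rfl
      have hmin' : ((min (S.a i) (M + 1) : ℕ) : ℝ) ≤ ((min (S.b i) (M + 1) : ℕ) : ℝ) := by
        exact_mod_cast hmin
      have : (0 : ℝ) ≤ (min (S.b i) (M + 1) : ℕ) / ((M : ℝ) + 1) -
        (min (S.a i) (M + 1) : ℕ) / ((M : ℝ) + 1) := by
        rw [sub_nonneg]; gcongr
      positivity
    · push Not at h2
      have hmin : min (S.a i) (M + 1) + 1 ≤ min (S.b i) (M + 1) := by omega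
      have hmin' : ((min (S.a i) (M + 1) : ℕ) : ℝ) + 1 ≤ ((min (S.b i) (M + 1) : ℕ) : ℝ) := by
        exact_mod_cast hmin
      have h3 : 1 / ((M : ℝ) + 1) ≤ (min (S.b i) (M + 1) : ℕ) / ((M : ℝ) + 1) -
        (min (S.a i) (M + 1) : ℕ) / ((M : ℝ) + 1) := by
        rw [← sub_div]; gcongr; linarith
      calc S.N i f ≤ B := hB i
        _ ≤ max B 0 := le_max_left _ _
        _ = max B 0 * (((M : ℝ) + 1) * (1 / ((M : ℝ) + 1))) ^ θ := by
            rw [mul_one_div_cancel hM1.ne', Real.one_rpow, mul_one]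
        _ = max B 0 * ((M : ℝ) + 1) ^ θ * (1 / ((M : ℝ) + 1)) ^ θ := by
            rw [Real.mul_rpow hM1.le (by positivity), mul_assoc]
        _ ≤ _ := by gcongr

lemma nm_nonneg (θ : ℝ) (f : V) : 0 ≤ S.nm θ f := Real.sInf_nonneg fun _ h => h.1

lemma nm_le_of_ctl {θ : ℝ} {f : V} {C : ℝ} {ω : ℕ → ℝ} (hC : 0 ≤ C) (h : S.Ctl θ f C ω) :
    S.nm θ f ≤ C :=
  csInf_le ⟨0, fun _ h => h.1⟩ ⟨hC, ω, h⟩

lemma isClosed_ctl {θ : ℝ} (hθ : 0 < θ) (f : V) (C : ℝ) : IsClosed {ω | S.Ctl θ f C ω} := by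
  have h : {ω | S.Ctl θ f C ω} = {ω : ℕ → ℝ | Monotone ω} ∩
      ((⋂ n, {ω : ℕ → ℝ | 0 ≤ ω n ∧ ω n ≤ 1}) ∩
        ⋂ i, {ω : ℕ → ℝ | S.N i f ≤ C * (ω (S.b i) - ω (S.a i)) ^ θ}) := by
    ext ω
    simp [Ctl]
  rw [h]
  refine isClosed_monotone.inter (IsClosed.inter ?_ ?_)
  · refine isClosed_iInter fun n => ?_
    exact (isClosed_le continuous_const (continuous_apply n)).inter
      (isClosed_le (continuous_apply n) continuous_const)
  · refine isClosed_iInter fun i => ?_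
    apply isClosed_le continuous_const
    apply continuous_const.mul
    apply Continuous.rpow_const
    · fun_prop
    · intro x; right; exact hθ.le

/-- The infimum in the definition of the control norm is attained. -/
lemma exists_ctl {θ : ℝ} (hθ : 0 < θ) (f : V) : ∃ ω, S.Ctl θ f (S.nm θ f) ω := by
  set c := S.nm θ f with hc
  have hc0 : 0 ≤ c := S.nm_nonneg θ f
  let K : ℕ → Set (ℕ → ℝ) := fun n => {ω | S.Ctl θ f (c + 1 / (n + 1)) ω}
  have hK : (⋂ n, K n).Nonempty := by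
    apply IsCompact.nonempty_iInter_of_sequence_nonempty_isCompact_isClosed
    · intro n ω hω
      refine ⟨hω.1, hω.2.1, fun i => (hω.2.2 i).trans ?_⟩
      have h1 : 0 ≤ ω (S.b i) - ω (S.a i) := sub_nonneg.2 (hω.1 (S.hab i))
      have h2 : 1 / (((n + 1 : ℕ) : ℝ) + 1) ≤ 1 / ((n : ℝ) + 1) := by
        apply one_div_le_one_div_of_le (by positivity)
        push_cast; linarith
      gcongr
    · intro n
      have hlt : c < c + 1 / ((n : ℝ) + 1) := by
        have : (0 : ℝ) < 1 / ((n : ℝ) + 1) := by positivity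
        linarith
      obtain ⟨C, ⟨hC0, ω, hω⟩, hC⟩ := exists_lt_of_csInf_lt (S.set_nonempty hθ f) hlt
      refine ⟨ω, hω.1, hω.2.1, fun i => (hω.2.2 i).trans ?_⟩
      have h1 : 0 ≤ ω (S.b i) - ω (S.a i) := sub_nonneg.2 (hω.1 (S.hab i))
      gcongr
    · apply IsCompact.of_isClosed_subset (isCompact_univ_pi (fun _ : ℕ => isCompact_Icc (a := (0:ℝ)) (b := 1)))
      · exact S.isClosed_ctl hθ f _
      · intro ω hω n _
        exact ⟨(hω.2.1 n).1, (hω.2.1 n).2⟩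
    · intro n
      exact S.isClosed_ctl hθ f _
  obtain ⟨ω, hω⟩ := hK
  rw [mem_iInter] at hω
  refine ⟨ω, (hω 0).1, (hω 0).2.1, fun i => ?_⟩
  have h1 : 0 ≤ ω (S.b i) - ω (S.a i) := sub_nonneg.2 ((hω 0).1 (S.hab i))
  have ht : Tendsto (fun n : ℕ => (c + 1 / ((n : ℝ) + 1)) * (ω (S.b i) - ω (S.a i)) ^ θ) atTop
      (𝓝 ((c + 0) * (ω (S.b i) - ω (S.a i)) ^ θ)) :=
    (tendsto_const_nhds.add tendsto_one_div_add_atTop_nhds_zero_nat).mul_const _
  rw [add_zero] at ht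
  exact ge_of_tendsto' ht fun n => (hω n).2.2 i

lemma nm_le_of_control {θ : ℝ} (hθ : 0 < θ) {f : V} {C L c : ℝ} {ω : ℕ → ℝ} (hC : 0 ≤ C)
    (hL : 0 ≤ L) (hω : Monotone ω) (hr : ∀ n, c ≤ ω n ∧ ω n ≤ c + L)
    (h : ∀ i, S.N i f ≤ C * (ω (S.b i) - ω (S.a i)) ^ θ) : S.nm θ f ≤ C * L ^ θ := by
  rcases hL.eq_or_lt with rfl | hL
  · have h1 : ∀ n, ω n = c := fun n => le_antisymm (by linarith [(hr n).2]) (hr n).1
    have h2 : S.nm θ f ≤ 0 := by
      apply S.nm_le_of_ctl (ω := fun _ => 0) le_rfl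
      refine ⟨monotone_const, fun n => by simp, fun i => ?_⟩
      have := h i
      rw [h1, h1, sub_self, Real.zero_rpow hθ.ne', mul_zero] at this
      simpa using this
    rw [Real.zero_rpow hθ.ne', mul_zero]
    exact h2
  · apply S.nm_le_of_ctl (ω := fun n => (ω n - c) / L) (by positivity)
    refine ⟨fun x y hxy => ?_, fun n => ⟨?_, ?_⟩, fun i => ?_⟩
    · have := hω hxy
      simp only
      gcongr
    · have := (hr n).1
      apply div_nonneg _ hL.le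
      linarith
    · rw [div_le_one hL]
      linarith [(hr n).2]
    · have h1 : 0 ≤ ω (S.b i) - ω (S.a i) := sub_nonneg.2 (hω (S.hab i))
      calc S.N i f ≤ C * (ω (S.b i) - ω (S.a i)) ^ θ := h i
        _ = C * (L * ((ω (S.b i) - ω (S.a i)) / L)) ^ θ := by
            rw [mul_div_cancel₀ _ hL.ne']
        _ = C * L ^ θ * ((ω (S.b i) - c) / L - (ω (S.a i) - c) / L) ^ θ := by
            rw [Real.mul_rpow hL.le (by positivity), mul_assoc]
            congr 3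
            ring

lemma nm_zero (θ : ℝ) : S.nm θ (0 : V) = 0 := by
  apply le_antisymm _ (S.nm_nonneg θ 0)
  apply S.nm_le_of_ctl (ω := fun _ => 0) le_rfl
  refine ⟨monotone_const, fun n => by simp, fun i => ?_⟩
  simp

lemma nm_add_le {θ : ℝ} (hθ : 0 < θ) (hθ1 : θ ≤ 1) (f g : V) :
    S.nm θ (f + g) ≤ S.nm θ f + S.nm θ g := by
  obtain ⟨ω₁, h1m, h1r, h1⟩ := S.exists_ctl hθ f
  obtain ⟨ω₂, h2m, h2r, h2⟩ := S.exists_ctl hθ g
  have hC1 := S.nm_nonneg θ f
  have hC2 := S.nm_nonneg θ g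
  set C₁ := S.nm θ f
  set C₂ := S.nm θ g
  rcases hC1.eq_or_lt with h10 | h10
  · rw [← h10, zero_add]
    apply S.nm_le_of_ctl hC2 (ω := ω₂)
    refine ⟨h2m, h2r, fun i => ?_⟩
    calc S.N i (f + g) ≤ S.N i f + S.N i g := map_add_le_add _ _ _
      _ ≤ 0 + C₂ * (ω₂ (S.b i) - ω₂ (S.a i)) ^ θ := by
        gcongr
        · have := h1 i
          rwa [← h10, zero_mul] at this
        · exact h2 i
      _ = _ := zero_add _
  rcases hC2.eq_or_lt with h20 | h20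
  · rw [← h20, add_zero]
    apply S.nm_le_of_ctl hC1 (ω := ω₁)
    refine ⟨h1m, h1r, fun i => ?_⟩
    calc S.N i (f + g) ≤ S.N i f + S.N i g := map_add_le_add _ _ _
      _ ≤ C₁ * (ω₁ (S.b i) - ω₁ (S.a i)) ^ θ + 0 := by
        gcongr
        · exact h1 i
        · have := h2 i
          rwa [← h20, zero_mul] at this
      _ = _ := add_zero _
  have hC : 0 < C₁ + C₂ := by positivity
  apply S.nm_le_of_ctl hC.le (ω := fun n => (C₁ / (C₁ + C₂)) * ω₁ n + (C₂ / (C₁ + C₂)) * ω₂ n)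
  have hsum : C₁ / (C₁ + C₂) + C₂ / (C₁ + C₂) = 1 := by field_simp
  refine ⟨fun x y hxy => ?_, fun n => ⟨?_, ?_⟩, fun i => ?_⟩
  · have := h1m hxy
    have := h2m hxy
    simp only
    gcongr
  · have := (h1r n).1
    have := (h2r n).1
    positivity
  · calc C₁ / (C₁ + C₂) * ω₁ n + C₂ / (C₁ + C₂) * ω₂ n
        ≤ C₁ / (C₁ + C₂) * 1 + C₂ / (C₁ + C₂) * 1 := by
          gcongr
          · exact (h1r n).2
          · exact (h2r n).2
      _ = 1 := by rw [mul_one, mul_one, hsum]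
  · have hd1 : 0 ≤ ω₁ (S.b i) - ω₁ (S.a i) := sub_nonneg.2 (h1m (S.hab i))
    have hd2 : 0 ≤ ω₂ (S.b i) - ω₂ (S.a i) := sub_nonneg.2 (h2m (S.hab i))
    have ha1 : 0 ≤ C₁ / (C₁ + C₂) := by positivity
    have ha2 : 0 ≤ C₂ / (C₁ + C₂) := by positivity
    have hconc := (Real.concaveOn_rpow hθ.le hθ1).2 (mem_Ici.2 hd1) (mem_Ici.2 hd2) ha1 ha2 hsum
    simp only [smul_eq_mul] at hconc
    calc S.N i (f + g) ≤ S.N i f + S.N i g := map_add_le_add _ _ _
      _ ≤ C₁ * (ω₁ (S.b i) - ω₁ (S.a i)) ^ θ + C₂ * (ω₂ (S.b i) - ω₂ (S.a i)) ^ θ :=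
        add_le_add (h1 i) (h2 i)
      _ = (C₁ + C₂) * (C₁ / (C₁ + C₂) * (ω₁ (S.b i) - ω₁ (S.a i)) ^ θ +
          C₂ / (C₁ + C₂) * (ω₂ (S.b i) - ω₂ (S.a i)) ^ θ) := by
          field_simp
      _ ≤ (C₁ + C₂) * (C₁ / (C₁ + C₂) * (ω₁ (S.b i) - ω₁ (S.a i)) +
          C₂ / (C₁ + C₂) * (ω₂ (S.b i) - ω₂ (S.a i))) ^ θ := by
          gcongr
      _ = _ := by congr 2; ring

lemma nm_smul {θ : ℝ} (hθ : 0 < θ) (c : 𝕜) (f : V) : S.nm θ (c • f) ≤ ‖c‖ * S.nm θ f := by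
  obtain ⟨ω, hm, hr, h⟩ := S.exists_ctl hθ f
  have hC := S.nm_nonneg θ f
  apply S.nm_le_of_ctl (by positivity) (ω := ω)
  refine ⟨hm, hr, fun i => ?_⟩
  rw [map_smul_eq_mul, mul_assoc]
  gcongr
  exact h i

lemma N_le_nm {θ : ℝ} (hθ : 0 < θ) (f : V) (i : ι) : S.N i f ≤ S.nm θ f := by
  obtain ⟨ω, hm, hr, h⟩ := S.exists_ctl hθ f
  have hC := S.nm_nonneg θ f
  have hd : 0 ≤ ω (S.b i) - ω (S.a i) := sub_nonneg.2 (hm (S.hab i))
  have hd1 : ω (S.b i) - ω (S.a i) ≤ 1 := by linarith [(hr (S.b i)).2, (hr (S.a i)).1]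
  calc S.N i f ≤ S.nm θ f * (ω (S.b i) - ω (S.a i)) ^ θ := h i
    _ ≤ S.nm θ f * 1 := by
      gcongr
      exact Real.rpow_le_one hd hd1 hθ.le
    _ = _ := mul_one _

/-- Splitting at level `M`. -/
lemma exists_split {θ : ℝ} (hθ : 0 < θ) (M : ℕ) (f : V) : ∃ L₁ L₂ : ℝ, 0 ≤ L₁ ∧ 0 ≤ L₂ ∧
    L₁ + L₂ ≤ 1 ∧ S.nm θ (S.P M f) ≤ S.nm θ f * L₁ ^ θ ∧
    S.nm θ (f - S.P M f) ≤ S.nm θ f * L₂ ^ θ := by
  obtain ⟨ω, hm, hr, h⟩ := S.exists_ctl hθ f
  have hC := S.nm_nonneg θ f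
  have h0M : ω 0 ≤ ω M := hm (Nat.zero_le _)
  refine ⟨ω M - ω 0, 1 - ω M, sub_nonneg.2 h0M, sub_nonneg.2 (hr M).2, by linarith [(hr 0).1],
    ?_, ?_⟩
  · apply S.nm_le_of_control hθ hC (sub_nonneg.2 h0M) (ω := fun n => ω (min n M)) (c := ω 0)
    · intro x y hxy
      exact hm (min_le_min hxy le_rfl)
    · intro n
      refine ⟨hm (Nat.zero_le _), ?_⟩
      have : ω (min n M) ≤ ω M := hm (min_le_right _ _)
      linarith
    · intro i
      obtain ⟨i', ha, hb, hN⟩ := S.lo M i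
      rw [hN, ← ha, ← hb]
      exact h i'
  · apply S.nm_le_of_control hθ hC (sub_nonneg.2 (hr M).2) (ω := fun n => ω (max n M)) (c := ω M)
    · intro x y hxy
      exact hm (max_le_max hxy le_rfl)
    · intro n
      refine ⟨hm (le_max_right _ _), ?_⟩
      linarith [(hr (max n M)).2]
    · intro i
      obtain ⟨i', ha, hb, hN⟩ := S.hi M i
      rw [hN, ← ha, ← hb]
      exact h i'

lemma nm_stop_le {θ : ℝ} (hθ : 0 < θ) (M : ℕ) (f : V) : S.nm θ (S.P M f) ≤ S.nm θ f := by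
  obtain ⟨L₁, L₂, h1, h2, h12, hf, -⟩ := S.exists_split hθ M f
  refine hf.trans ?_
  have hC := S.nm_nonneg θ f
  calc S.nm θ f * L₁ ^ θ ≤ S.nm θ f * 1 := by
        gcongr
        exact Real.rpow_le_one h1 (by linarith) hθ.le
    _ = _ := mul_one _

lemma nm_sub_stop_le {θ : ℝ} (hθ : 0 < θ) (M : ℕ) (f : V) :
    S.nm θ (f - S.P M f) ≤ S.nm θ f := by
  obtain ⟨L₁, L₂, h1, h2, h12, -, hf⟩ := S.exists_split hθ M f
  refine hf.trans ?_
  have hC := S.nm_nonneg θ f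
  calc S.nm θ f * L₂ ^ θ ≤ S.nm θ f * 1 := by
        gcongr
        exact Real.rpow_le_one h2 (by linarith) hθ.le
    _ = _ := mul_one _

lemma nm_split_pow {θ : ℝ} (hθ : 1 / 4 ≤ θ) (M : ℕ) (f : V) :
    S.nm θ (S.P M f) ^ 4 + S.nm θ (f - S.P M f) ^ 4 ≤ S.nm θ f ^ 4 := by
  have hθ0 : 0 < θ := by linarith
  obtain ⟨L₁, L₂, h1, h2, h12, hf1, hf2⟩ := S.exists_split hθ0 M f
  have hC := S.nm_nonneg θ f
  have key : ∀ L : ℝ, 0 ≤ L → L ≤ 1 → (L ^ θ) ^ 4 ≤ L := by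
    intro L hL0 hL1
    rw [← Real.rpow_natCast, ← Real.rpow_mul hL0]
    calc L ^ (θ * ((4 : ℕ) : ℝ)) ≤ L ^ (1 : ℝ) := by
          rcases hL0.eq_or_lt with rfl | hL0'
          · rw [Real.zero_rpow (by positivity), Real.zero_rpow one_ne_zero]
          · apply Real.rpow_le_rpow_of_exponent_ge hL0' hL1
            push_cast; linarith
      _ = L := Real.rpow_one L
  calc S.nm θ (S.P M f) ^ 4 + S.nm θ (f - S.P M f) ^ 4
      ≤ (S.nm θ f * L₁ ^ θ) ^ 4 + (S.nm θ f * L₂ ^ θ) ^ 4 := by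
        gcongr
        · exact S.nm_nonneg _ _
        · exact S.nm_nonneg _ _
    _ = S.nm θ f ^ 4 * ((L₁ ^ θ) ^ 4 + (L₂ ^ θ) ^ 4) := by ring
    _ ≤ S.nm θ f ^ 4 * (L₁ + L₂) := by
        gcongr
        · exact key _ h1 (by linarith)
        · exact key _ h2 (by linarith)
    _ ≤ S.nm θ f ^ 4 * 1 := by gcongr
    _ = _ := mul_one _

lemma coherent_cauchy {θ : ℝ} (hθ : 1 / 4 ≤ θ) {x : ℕ → V}
    (hx : ∀ m n, m ≤ n → S.P m (x n) = x m) {C : ℝ} (hC : ∀ n, S.nm θ (x n) ≤ C)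
    {ε : ℝ} (hε : 0 < ε) : ∃ N, ∀ m n, N ≤ m → m ≤ n → S.nm θ (x n - x m) < ε := by
  have hsplit : ∀ m n, m ≤ n → S.nm θ (x m) ^ 4 + S.nm θ (x n - x m) ^ 4 ≤ S.nm θ (x n) ^ 4 := by
    intro m n hmn
    have := S.nm_split_pow hθ m (x n)
    rwa [hx m n hmn] at this
  have hmono : Monotone fun n => S.nm θ (x n) ^ 4 := by
    intro m n hmn
    have h1 := hsplit m n hmn
    have h2 : 0 ≤ S.nm θ (x n - x m) ^ 4 := by positivity
    simp only
    linarith
  have hbdd : BddAbove (range fun n => S.nm θ (x n) ^ 4) := by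
    refine ⟨C ^ 4, ?_⟩
    rintro _ ⟨n, rfl⟩
    exact pow_le_pow_left₀ (S.nm_nonneg _ _) (hC n) 4
  have hconv := tendsto_atTop_ciSup hmono hbdd
  have hcau := hconv.cauchySeq
  rw [Metric.cauchySeq_iff] at hcau
  obtain ⟨N, hN⟩ := hcau (ε ^ 4) (by positivity)
  refine ⟨N, fun m n hm hmn => ?_⟩
  have h1 := hN n (hm.trans hmn) m hm
  rw [Real.dist_eq] at h1
  have h2 := (abs_lt.1 h1).2
  have h3 := hsplit m n hmn
  have h4 : S.nm θ (x n - x m) ^ 4 < ε ^ 4 := by linarith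
  exact lt_of_pow_lt_pow_left₀ 4 hε.le h4

/-- Upper estimate for a sum of `K` blocks. -/
lemma nm_le_blocks {θ : ℝ} (hθ : 0 < θ) {f : V} {K : ℕ} (hK : 0 < K) {M : ℕ → ℕ}
    {B : ℝ} (hB : 0 ≤ B) (h0 : S.P (M 0) f = 0) (hKf : S.P (M K) f = f)
    (hN : ∀ i, S.N i f ≤ B)
    (hb : ∀ j < K, S.nm θ (S.P (M (j + 1)) f - S.P (M j) f) ≤ B) :
    S.nm θ f ≤ B * (3 * K) ^ θ := by
  choose ω hω using fun j : ℕ => S.exists_ctl hθ (S.P (M (j + 1)) f - S.P (M j) f)
  set Ω : ℕ → ℝ := fun n => ∑ j ∈ Finset.range K, ω j n +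
    ∑ j ∈ Finset.range (K + 1), if M j < n then (1 : ℝ) else 0 with hΩ
  have hmonoInd : ∀ j, ∀ x y : ℕ, x ≤ y →
      (if M j < x then (1 : ℝ) else 0) ≤ (if M j < y then (1 : ℝ) else 0) := by
    intro j x y hxy
    split_ifs with h1 h2
    · exact le_rfl
    · omega
    · exact zero_le_one
    · exact le_rfl
  have hΩm : Monotone Ω := by
    intro x y hxy
    simp only [hΩ]
    gcongr with j _ j _
    · exact (hω j).1 hxy
    · exact hmonoInd j x y hxy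
  have hKr : (1 : ℝ) ≤ K := by exact_mod_cast hK
  apply S.nm_le_of_control hθ hB (by positivity) hΩm (c := 0)
  · intro n
    constructor
    · simp only [hΩ]
      apply add_nonneg
      · exact Finset.sum_nonneg fun j _ => ((hω j).2.1 n).1
      · apply Finset.sum_nonneg
        intro j _
        split_ifs <;> norm_num
    · simp only [hΩ, zero_add]
      calc ∑ j ∈ Finset.range K, ω j n +
          ∑ j ∈ Finset.range (K + 1), (if M j < n then (1 : ℝ) else 0)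
          ≤ ∑ j ∈ Finset.range K, (1 : ℝ) + ∑ j ∈ Finset.range (K + 1), (1 : ℝ) := by
            gcongr with j _ j _
            · exact ((hω j).2.1 n).2
            · split_ifs <;> norm_num
        _ = K + (K + 1) := by simp
        _ ≤ 3 * K := by linarith
  · intro i
    have hdΩ : ∀ j < K, ω j (S.b i) - ω j (S.a i) ≤ Ω (S.b i) - Ω (S.a i) := by
      intro j hj
      simp only [hΩ]
      have e1 : ∑ j ∈ Finset.range K, ω j (S.b i) - ∑ j ∈ Finset.range K, ω j (S.a i) =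
        ∑ j ∈ Finset.range K, (ω j (S.b i) - ω j (S.a i)) := by rw [Finset.sum_sub_distrib]
      have e2 : ω j (S.b i) - ω j (S.a i) ≤ ∑ j ∈ Finset.range K, (ω j (S.b i) - ω j (S.a i)) :=
        Finset.single_le_sum (f := fun j => ω j (S.b i) - ω j (S.a i))
          (fun j _ => sub_nonneg.2 ((hω j).1 (S.hab i))) (Finset.mem_range.2 hj)
      have e3 : ∑ j ∈ Finset.range (K + 1), (if M j < S.a i then (1 : ℝ) else 0) ≤
        ∑ j ∈ Finset.range (K + 1), (if M j < S.b i then (1 : ℝ) else 0) :=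
        Finset.sum_le_sum fun j _ => hmonoInd j _ _ (S.hab i)
      linarith
    have hdΩ1 : ∀ j ≤ K, S.a i ≤ M j → M j < S.b i → 1 ≤ Ω (S.b i) - Ω (S.a i) := by
      intro j hj h1 h2
      simp only [hΩ]
      have e1 : ∑ j ∈ Finset.range K, ω j (S.a i) ≤ ∑ j ∈ Finset.range K, ω j (S.b i) :=
        Finset.sum_le_sum fun j _ => (hω j).1 (S.hab i)
      have e2 : (∑ j ∈ Finset.range (K + 1), (if M j < S.b i then (1 : ℝ) else 0)) -
        ∑ j ∈ Finset.range (K + 1), (if M j < S.a i then (1 : ℝ) else 0) =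
        ∑ j ∈ Finset.range (K + 1), ((if M j < S.b i then (1 : ℝ) else 0) -
          (if M j < S.a i then (1 : ℝ) else 0)) := by rw [Finset.sum_sub_distrib]
      have e3 : (if M j < S.b i then (1 : ℝ) else 0) - (if M j < S.a i then (1 : ℝ) else 0) ≤
        ∑ j ∈ Finset.range (K + 1), ((if M j < S.b i then (1 : ℝ) else 0) -
          (if M j < S.a i then (1 : ℝ) else 0)) :=
        Finset.single_le_sum (f := fun j => (if M j < S.b i then (1 : ℝ) else 0) -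
          (if M j < S.a i then (1 : ℝ) else 0))
          (fun j _ => sub_nonneg.2 (hmonoInd j _ _ (S.hab i))) (Finset.mem_range.2 (by omega))
      rw [if_pos h2, if_neg (by omega)] at e3
      linarith
    have hdΩ0 : 0 ≤ Ω (S.b i) - Ω (S.a i) := sub_nonneg.2 (hΩm (S.hab i))
    have hzero : S.N i f = 0 → S.N i f ≤ B * (Ω (S.b i) - Ω (S.a i)) ^ θ := by
      intro h; rw [h]; positivity
    by_cases hcross : ∃ j ≤ K, S.a i ≤ M j ∧ M j < S.b i
    · obtain ⟨j, hj, h1, h2⟩ := hcross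
      calc S.N i f ≤ B * 1 := by rw [mul_one]; exact hN i
        _ ≤ B * (Ω (S.b i) - Ω (S.a i)) ^ θ := by
          gcongr
          exact Real.one_le_rpow (hdΩ1 j hj h1 h2) hθ.le
    push Not at hcross
    by_cases hKa : M K ≤ S.a i
    · apply hzero
      rw [← hKf]
      exact S.N_stop_eq_zero hKa f
    by_cases h0b : S.b i ≤ M 0
    · apply hzero
      rw [← S.N_stop_eq h0b, h0, map_zero]
    push Not at hKa h0b
    have hex : ∃ j, j < K ∧ M j ≤ S.a i ∧ S.b i ≤ M (j + 1) := by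
      have h0a : M 0 < S.a i ∨ M 0 = S.a i := by
        by_contra hcon
        push Not at hcon
        have := hcross 0 (Nat.zero_le _) (by omega)
        omega
      have h0a' : M 0 ≤ S.a i := by omega
      classical
      let j := Nat.findGreatest (fun j => M j ≤ S.a i) K
      have hj1 : M j ≤ S.a i := Nat.findGreatest_spec (P := fun j => M j ≤ S.a i) (Nat.zero_le K) h0a'
      have hj2 : j ≤ K := Nat.findGreatest_le K
      have hjK : j < K := by
        rcases hj2.lt_or_eq with h | h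
        · exact h
        · rw [h] at hj1; omega
      have hj3 : ¬ M (j + 1) ≤ S.a i :=
        Nat.findGreatest_is_greatest (P := fun j => M j ≤ S.a i) (Nat.lt_succ_self j) hjK
      push Not at hj3
      exact ⟨j, hjK, hj1, hcross (j + 1) hjK hj3.le⟩
    obtain ⟨j, hjK, hja, hjb⟩ := hex
    have hNj : S.N i f ≤ S.N i (S.P (M (j + 1)) f - S.P (M j) f) := by
      have e1 : S.N i (S.P (M (j + 1)) f) = S.N i f := S.N_stop_eq hjb f
      have e2 : S.N i (S.P (M j) f) = 0 := S.N_stop_eq_zero hja f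
      calc S.N i f = S.N i (S.P (M (j + 1)) f) := e1.symm
        _ = S.N i ((S.P (M (j + 1)) f - S.P (M j) f) + S.P (M j) f) := by congr 1; abel
        _ ≤ S.N i (S.P (M (j + 1)) f - S.P (M j) f) + S.N i (S.P (M j) f) := map_add_le_add _ _ _
        _ = _ := by rw [e2, add_zero]
    have hd : 0 ≤ ω j (S.b i) - ω j (S.a i) := sub_nonneg.2 ((hω j).1 (S.hab i))
    calc S.N i f ≤ S.N i (S.P (M (j + 1)) f - S.P (M j) f) := hNj
      _ ≤ S.nm θ (S.P (M (j + 1)) f - S.P (M j) f) * (ω j (S.b i) - ω j (S.a i)) ^ θ :=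
        (hω j).2.2 i
      _ ≤ B * (Ω (S.b i) - Ω (S.a i)) ^ θ :=
        mul_le_mul (hb j hjK) (Real.rpow_le_rpow hd (hdΩ j hjK) hθ.le) (by positivity) hB

end Fam

end Pool.Agent.H33
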