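import Pool.Agent.H33.Dual

/-!
The algebra homomorphism from the operators on `X` to the operators on the dual of `Z`.
-/

namespace Pool.Agent.H33

open Set Filter Topology

variable {𝕜 : Type*} [RCLike 𝕜]

/-- The dual of `Z`. -/
abbrev YY (𝕜 : Type*) [RCLike 𝕜] : Type _ := Z 𝕜 →L[𝕜] 𝕜

/-- The dual of `X`. -/
abbrev D1 (𝕜 : Type*) [RCLike 𝕜] : Type _ := XX 𝕜 →L[𝕜] 𝕜

/-- Extension of functionals from `E` to the dual of `X`. -/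
noncomputable def extF (Φ : E 𝕜 →L[𝕜] 𝕜) : D1 𝕜 →L[𝕜] 𝕜 := Φ.extend (iota 𝕜)

lemma isUniformInducing_iota : IsUniformInducing (iota 𝕜) := by
  have hiso : Isometry (iota 𝕜) := AddMonoidHomClass.isometry_of_norm _ norm_iota
  exact hiso.isUniformInducing

lemma extF_iota (Φ : E 𝕜 →L[𝕜] 𝕜) (x : E 𝕜) : extF Φ (iota 𝕜 x) = Φ x :=
  ContinuousLinearMap.extend_eq Φ denseRange_iota isUniformInducing_iota x

lemma extF_unique {Φ : E 𝕜 →L[𝕜] 𝕜} {Ψ : D1 𝕜 →L[𝕜] 𝕜} (h : ∀ x, Ψ (iota 𝕜 x) = Φ x) :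
    extF Φ = Ψ := by
  have h2 : (extF Φ : D1 𝕜 → 𝕜) = Ψ :=
    denseRange_iota.equalizer (extF Φ).continuous Ψ.continuous (funext fun x => by
      simp only [Function.comp_apply]
      rw [extF_iota, h])
  ext φ
  exact congrFun h2 φ

lemma norm_extF_le (Φ : E 𝕜 →L[𝕜] 𝕜) : ‖extF Φ‖ ≤ ‖Φ‖ := by
  apply ContinuousLinearMap.opNorm_le_bound _ (norm_nonneg _)
  intro φ
  refine denseRange_iota.induction_on (p := fun φ => ‖extF Φ φ‖ ≤ ‖Φ‖ * ‖φ‖) φ ?_ ?_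
  · exact isClosed_le (extF Φ).continuous.norm (continuous_const.mul continuous_norm)
  · intro x
    rw [extF_iota, norm_iota]
    exact Φ.le_opNorm x

/-- The adjoint, as a continuous linear map. -/
noncomputable def dualMap (𝕜 : Type*) [RCLike 𝕜] :
    (XX 𝕜 →L[𝕜] XX 𝕜) →L[𝕜] (D1 𝕜 →L[𝕜] D1 𝕜) :=
  (ContinuousLinearMap.compL 𝕜 (XX 𝕜) (XX 𝕜) 𝕜).flip

@[simp] lemma dualMap_apply (T : XX 𝕜 →L[𝕜] XX 𝕜) (φ : D1 𝕜) (g : XX 𝕜) :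
    dualMap 𝕜 T φ g = φ (T g) := rfl

lemma norm_dualMap_le (T : XX 𝕜 →L[𝕜] XX 𝕜) : ‖dualMap 𝕜 T‖ ≤ ‖T‖ := by
  apply ContinuousLinearMap.opNorm_le_bound _ (norm_nonneg _)
  intro φ
  rw [mul_comm]
  exact ContinuousLinearMap.opNorm_comp_le φ T

/-- The second adjoint transported to the dual of `E`. -/
noncomputable def sharp (T : XX 𝕜 →L[𝕜] XX 𝕜) (Φ : E 𝕜 →L[𝕜] 𝕜) : E 𝕜 →L[𝕜] 𝕜 :=
  (extF Φ).comp ((dualMap 𝕜 T).comp (iota 𝕜))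

lemma sharp_apply (T : XX 𝕜 →L[𝕜] XX 𝕜) (Φ : E 𝕜 →L[𝕜] 𝕜) (x : E 𝕜) :
    sharp T Φ x = extF Φ (dualMap 𝕜 T (iota 𝕜 x)) := rfl

lemma extF_add (Φ Ψ : E 𝕜 →L[𝕜] 𝕜) : extF (Φ + Ψ) = extF Φ + extF Ψ :=
  extF_unique fun x => by
    rw [_root_.add_apply, extF_iota, extF_iota, _root_.add_apply]

lemma extF_smul (c : 𝕜) (Φ : E 𝕜 →L[𝕜] 𝕜) : extF (c • Φ) = c • extF Φ :=
  extF_unique fun x => by
    rw [_root_.smul_apply, extF_iota, _root_.smul_apply]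

lemma sharp_add_right (T : XX 𝕜 →L[𝕜] XX 𝕜) (Φ Ψ : E 𝕜 →L[𝕜] 𝕜) :
    sharp T (Φ + Ψ) = sharp T Φ + sharp T Ψ := by
  ext x
  rw [_root_.add_apply, sharp_apply, sharp_apply, sharp_apply, extF_add, _root_.add_apply]

lemma sharp_smul_right (T : XX 𝕜 →L[𝕜] XX 𝕜) (c : 𝕜) (Φ : E 𝕜 →L[𝕜] 𝕜) :
    sharp T (c • Φ) = c • sharp T Φ := by
  ext x
  rw [_root_.smul_apply, sharp_apply, sharp_apply, extF_smul, _root_.smul_apply]

lemma sharp_add_left (S T : XX 𝕜 →L[𝕜] XX 𝕜) (Φ : E 𝕜 →L[𝕜] 𝕜) :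
    sharp (S + T) Φ = sharp S Φ + sharp T Φ := by
  ext x
  rw [_root_.add_apply, sharp_apply, sharp_apply, sharp_apply, map_add, _root_.add_apply, map_add]

lemma sharp_smul_left (c : 𝕜) (T : XX 𝕜 →L[𝕜] XX 𝕜) (Φ : E 𝕜 →L[𝕜] 𝕜) :
    sharp (c • T) Φ = c • sharp T Φ := by
  ext x
  rw [_root_.smul_apply, sharp_apply, sharp_apply, map_smul, _root_.smul_apply, map_smul]

lemma sharp_sub_right (T : XX 𝕜 →L[𝕜] XX 𝕜) (Φ Ψ : E 𝕜 →L[𝕜] 𝕜) :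
    sharp T (Φ - Ψ) = sharp T Φ - sharp T Ψ := by
  have h := sharp_add_right T (Φ - Ψ) Ψ
  rw [sub_add_cancel] at h
  rw [h, add_sub_cancel_right]

lemma norm_sharp_le (T : XX 𝕜 →L[𝕜] XX 𝕜) (Φ : E 𝕜 →L[𝕜] 𝕜) : ‖sharp T Φ‖ ≤ ‖T‖ * ‖Φ‖ := by
  apply ContinuousLinearMap.opNorm_le_bound _ (by positivity)
  intro x
  rw [sharp_apply]
  calc ‖extF Φ (dualMap 𝕜 T (iota 𝕜 x))‖ ≤ ‖extF Φ‖ * ‖dualMap 𝕜 T (iota 𝕜 x)‖ :=
        (extF Φ).le_opNorm _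
    _ ≤ ‖Φ‖ * (‖T‖ * ‖x‖) := by
        apply mul_le_mul (norm_extF_le Φ) _ (norm_nonneg _) (norm_nonneg _)
        refine ((dualMap 𝕜 T).le_opNorm _).trans ?_
        rw [norm_iota]
        exact mul_le_mul_of_nonneg_right (norm_dualMap_le T) (norm_nonneg _)
    _ = ‖T‖ * ‖Φ‖ * ‖x‖ := by ring

lemma sharp_of_lift (T : XX 𝕜 →L[𝕜] XX 𝕜) (S : E 𝕜 →L[𝕜] E 𝕜)
    (h : ∀ g, incl 𝕜 (T g) = (incl 𝕜 g).comp S) (Φ : E 𝕜 →L[𝕜] 𝕜) : sharp T Φ = Φ.comp S := by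
  ext x
  rw [sharp_apply, ContinuousLinearMap.comp_apply, ← extF_iota]
  congr 1
  ext g
  rw [dualMap_apply, iota_apply, iota_apply, h, ContinuousLinearMap.comp_apply]

lemma extF_incl (g : XX 𝕜) (φ : D1 𝕜) : extF (incl 𝕜 g) φ = φ g := by
  have h : extF (incl 𝕜 g) = ContinuousLinearMap.apply 𝕜 𝕜 g :=
    extF_unique fun x => rfl
  rw [h]
  rfl

lemma sharp_incl (T : XX 𝕜 →L[𝕜] XX 𝕜) (g : XX 𝕜) : sharp T (incl 𝕜 g) = incl 𝕜 (T g) := by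
  ext x
  rw [sharp_apply, extF_incl, dualMap_apply, iota_apply]

lemma sharp_mul (S T : XX 𝕜 →L[𝕜] XX 𝕜) (Φ : E 𝕜 →L[𝕜] 𝕜) :
    sharp (S * T) Φ = sharp S (sharp T Φ) := by
  ext x
  rw [sharp_apply, sharp_apply]
  have h : extF (sharp T Φ) = (extF Φ).comp (dualMap 𝕜 T) := extF_unique fun x => rfl
  rw [h]
  rfl

lemma sharp_one (Φ : E 𝕜 →L[𝕜] 𝕜) : sharp (1 : XX 𝕜 →L[𝕜] XX 𝕜) Φ = Φ := by
  rw [sharp_of_lift 1 (ContinuousLinearMap.id 𝕜 (E 𝕜)) (fun g => rfl)]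
  rfl

/-! ### The kernel of `lam` -/

lemma norm_lam_le (Φ : E 𝕜 →L[𝕜] 𝕜) : ‖E.lam Φ‖ ≤ ‖Φ‖ :=
  ContinuousLinearMap.opNorm_le_bound _ (norm_nonneg _) (fun z => E.norm_lamf_le Φ z)

lemma lam_cf (n k : ℕ) (γ : ℕ → Bool) : E.lam (E.cf n k γ : E 𝕜 →L[𝕜] 𝕜) = 0 := by
  ext z
  refine tendsto_nhds_unique (E.tendsto_lam _ z) ?_
  apply tendsto_const_nhds.congr'
  filter_upwards [eventually_gt_atTop (n + 1)] with m hm
  rw [E.cf_apply, E.stp_apply, E.stp_apply, if_neg (by omega), if_neg (by omega)]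
  simp

lemma lam_of_mem {Φ : E 𝕜 →L[𝕜] 𝕜} (h : Φ ∈ Xsub 𝕜) : E.lam Φ = 0 := by
  have h1 : Xsub 𝕜 ≤ LinearMap.ker (E.lam : (E 𝕜 →L[𝕜] 𝕜) →L[𝕜] YY 𝕜).toLinearMap := by
    apply Submodule.topologicalClosure_minimal
    · rw [Submodule.span_le]
      rintro _ ⟨p, rfl⟩
      exact lam_cf _ _ _
    · exact E.lam.isClosed_ker
  exact h1 h

lemma mem_of_lam {Φ : E 𝕜 →L[𝕜] 𝕜} (h : E.lam Φ = 0) : Φ ∈ Xsub 𝕜 := by
  change Φ ∈ closure (Submodule.span 𝕜 (range (cfam 𝕜)) : Set (E 𝕜 →L[𝕜] 𝕜))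
  rw [Metric.mem_closure_iff]
  intro ε hε
  obtain ⟨N, hN⟩ := E.SE Φ (δ := ε / 4) (by positivity)
  refine ⟨Φ.comp (E.PiL N), comp_Pi_mem_span Φ N, ?_⟩
  rw [dist_eq_norm]
  have hle : ‖Φ - Φ.comp (E.PiL N)‖ ≤ ε / 2 := by
    apply ContinuousLinearMap.opNorm_le_bound _ (by positivity)
    intro x
    have e1 : (Φ - Φ.comp (E.PiL N)) x = Φ (x - E.Pi N x) := by
      rw [map_sub]; rfl
    rw [e1]
    set u := x - E.Pi N x with hu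
    have hun : ‖u‖ ≤ ‖x‖ := E.norm_sub_Pi_le N x
    have hlim : Tendsto (fun n => ‖Φ (u - E.stp n (E.q u))‖) atTop (𝓝 ‖Φ u‖) := by
      have h2 := E.tendsto_lam Φ (E.q u)
      rw [h, _root_.zero_apply] at h2
      have h3 := (tendsto_const_nhds (x := Φ u)).sub h2
      rw [sub_zero] at h3
      refine (h3.norm).congr fun n => ?_
      rw [map_sub Φ u]
    apply le_of_tendsto hlim
    filter_upwards [eventually_ge_atTop (max (N + 1) (Z.st (E.q u)))] with n hn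
    have hz : Z.P n (E.q u) = E.q u := Z.P_of_st_le ((le_max_right _ _).trans hn)
    have hn1 : N < n := (le_max_left _ _).trans hn
    have h4 := hN (u - E.stp n (E.q u))
      (by rw [map_sub, E.Pi_stp_of_lt hn1, hu, map_sub, E.Pi_Pi_of_le le_rfl, sub_self, sub_self])
      (by rw [map_sub, E.q_stp, sub_self])
    have h5 : ‖u - E.stp n (E.q u)‖ ≤ ‖x‖ + ‖x‖ := by
      refine (norm_sub_le _ _).trans (add_le_add hun ?_)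
      exact (E.norm_stp_le hz).trans ((E.norm_q_le u).trans hun)
    calc ‖Φ (u - E.stp n (E.q u))‖ ≤ ε / 4 * ‖u - E.stp n (E.q u)‖ := h4
      _ ≤ ε / 4 * (‖x‖ + ‖x‖) := by gcongr
      _ = ε / 2 * ‖x‖ := by ring
  linarith

/-! ### The homomorphism -/

/-- The adjoint of `q`. -/
noncomputable def qs (y : YY 𝕜) : E 𝕜 →L[𝕜] 𝕜 := y.comp E.q

@[simp] lemma qs_apply (y : YY 𝕜) (x : E 𝕜) : qs y x = y (E.q x) := rfl

lemma norm_qs_le (y : YY 𝕜) : ‖qs y‖ ≤ ‖y‖ := by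
  apply ContinuousLinearMap.opNorm_le_bound _ (norm_nonneg _)
  intro x
  rw [qs_apply]
  exact (y.le_opNorm _).trans (mul_le_mul_of_nonneg_left (E.norm_q_le x) (norm_nonneg _))

lemma lam_qs (y : YY 𝕜) : E.lam (qs y) = y := by
  ext z
  refine tendsto_nhds_unique (E.tendsto_lam _ z) ?_
  apply tendsto_const_nhds.congr
  intro n
  rw [qs_apply, E.q_stp]

/-- The homomorphism as a continuous linear map. -/
noncomputable def psiL (𝕜 : Type*) [RCLike 𝕜] :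
    (XX 𝕜 →L[𝕜] XX 𝕜) →L[𝕜] (YY 𝕜 →L[𝕜] YY 𝕜) :=
  LinearMap.mkContinuous₂ (LinearMap.mk₂ 𝕜 (fun (T : XX 𝕜 →L[𝕜] XX 𝕜) (y : YY 𝕜) =>
      (E.lam (sharp T (qs y)) : YY 𝕜))
    (fun S T y => by rw [sharp_add_left, map_add])
    (fun c T y => by rw [sharp_smul_left, map_smul])
    (fun T y y' => by
      have : qs (y + y') = qs y + qs y' := rfl
      rw [this, sharp_add_right, map_add])
    (fun c T y => by
      have : qs (c • y) = c • qs y := rfl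
      rw [this, sharp_smul_right, map_smul])) 1
    (fun T y => by
      rw [one_mul]
      change ‖E.lam (sharp T (qs y))‖ ≤ ‖T‖ * ‖y‖
      refine (norm_lam_le _).trans ((norm_sharp_le T _).trans ?_)
      exact mul_le_mul_of_nonneg_left (norm_qs_le y) (norm_nonneg _))

lemma psiL_apply (T : XX 𝕜 →L[𝕜] XX 𝕜) (y : YY 𝕜) :
    psiL 𝕜 T y = E.lam (sharp T (qs y)) := rfl

lemma psiL_one : psiL 𝕜 1 = 1 := by
  ext y z
  rw [psiL_apply, sharp_one, lam_qs]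
  rfl

lemma psiL_mul (S T : XX 𝕜 →L[𝕜] XX 𝕜) : psiL 𝕜 (S * T) = psiL 𝕜 S * psiL 𝕜 T := by
  ext1 y
  change psiL 𝕜 (S * T) y = psiL 𝕜 S (psiL 𝕜 T y)
  rw [psiL_apply, psiL_apply, psiL_apply, sharp_mul]
  set Φ := sharp T (qs y) with hΦ
  have h1 : Φ - qs (E.lam Φ) ∈ Xsub 𝕜 := by
    apply mem_of_lam
    rw [map_sub, lam_qs, sub_self]
  have h2 : E.lam (sharp S (Φ - qs (E.lam Φ))) = 0 := by
    have e1 : Φ - qs (E.lam Φ) = incl 𝕜 (XX.mk _ h1) := rfl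
    rw [e1, sharp_incl]
    exact lam_of_mem (incl_mem _)
  rw [sharp_sub_right, map_sub, sub_eq_zero] at h2
  exact h2

/-- The homomorphism. -/
noncomputable def psi (𝕜 : Type*) [RCLike 𝕜] :
    (XX 𝕜 →L[𝕜] XX 𝕜) →ₐ[𝕜] (YY 𝕜 →L[𝕜] YY 𝕜) :=
  AlgHom.ofLinearMap (psiL 𝕜).toLinearMap psiL_one psiL_mul

lemma psi_apply (T : XX 𝕜 →L[𝕜] XX 𝕜) : psi 𝕜 T = psiL 𝕜 T := rfl

end Pool.Agent.H33
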