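import Pool.Agent.H33.Hom

/-!
The lifting lemma: bounded sequences of operators on `Z` give operators on `X`.
-/

namespace Pool.Agent.H33

open Set Filter Topology

variable {𝕜 : Type*} [RCLike 𝕜]

section timechange

open Classical in
/-- The time change. -/
noncomputable def nu (m : ℕ → ℕ) (k : ℕ) : ℕ := Nat.findGreatest (fun N => ∀ j < N, m (j + 1) ≤ k) k

lemma nu_le (m : ℕ → ℕ) (k : ℕ) : nu m k ≤ k := Nat.findGreatest_le k

lemma nu_spec (m : ℕ → ℕ) (k : ℕ) {j : ℕ} (hj : j < nu m k) : m (j + 1) ≤ k := by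
  classical
  have := Nat.findGreatest_spec (P := fun N => ∀ j < N, m (j + 1) ≤ k) (Nat.zero_le k)
    (fun j hj => absurd hj (Nat.not_lt_zero j))
  exact this j hj

lemma le_nu {m : ℕ → ℕ} {k N : ℕ} (hN : N ≤ k) (h : ∀ j < N, m (j + 1) ≤ k) : N ≤ nu m k := by
  classical
  exact Nat.le_findGreatest hN h

lemma nu_mono (m : ℕ → ℕ) : Monotone (nu m) := by
  intro k k' h
  exact le_nu ((nu_le m k).trans h) fun j hj => (nu_spec m k hj).trans h

lemma exists_le_nu (m : ℕ → ℕ) (N : ℕ) : ∃ k, N ≤ nu m k := by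
  refine ⟨max N ((Finset.range N).sup fun j => m (j + 1)), le_nu (le_max_left _ _) fun j hj => ?_⟩
  exact (Finset.le_sup (f := fun j => m (j + 1)) (Finset.mem_range.2 hj)).trans (le_max_right _ _)

end timechange

/-- Data for a lift. -/
structure LiftData (𝕜 : Type*) [RCLike 𝕜] where
  W : ℕ → (Z 𝕜 →ₗ[𝕜] Z 𝕜)
  m : ℕ → ℕ
  hW : ∀ n z, Z.P (m n) (W n z) = W n z
  B : ℝ
  hB : 0 ≤ B
  bound : ∀ (X : E 𝕜) (ω : ℕ → ℝ), Monotone ω → (∀ n, 0 ≤ ω n ∧ ω n ≤ 1) → ∀ C : ℝ, 0 ≤ C →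
    (∀ m n, m ≤ n → ‖X n - X m‖ ≤ C * (ω n - ω m) ^ (3 / 4 : ℝ)) → ∀ N N', N ≤ N' →
    ‖∑ n ∈ Finset.Ico N N', W (n + 1) (X (n + 1) - X n)‖ ≤
      B * (C * (ω N' - ω N) ^ (3 / 4 : ℝ))

namespace LiftData

variable (D : LiftData 𝕜)

/-- The lifted operator on the path space, linear version. -/
noncomputable def Slin : E 𝕜 →ₗ[𝕜] E 𝕜 where
  toFun X := E.mk (fun k => ∑ n ∈ Finset.range (nu D.m k), D.W (n + 1) (X (n + 1) - X n)) (by
    refine ⟨fun k => ?_, ?_⟩
    · rw [map_sum]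
      apply Finset.sum_congr rfl
      intro n hn
      have h := nu_spec D.m k (Finset.mem_range.1 hn)
      rw [← D.hW (n + 1), Z.P_P_of_le' h]
    · obtain ⟨K, hK⟩ := exists_le_nu D.m (E.st X)
      refine ⟨K, fun k => ?_⟩
      rcases le_total k K with h | h
      · rw [min_eq_left h]
      · rw [min_eq_right h]
        apply Finset.sum_subset (Finset.range_subset_range.2 (nu_mono D.m h))
        intro n _ hn
        rw [Finset.mem_range] at hn
        push Not at hn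
        have h1 : E.st X ≤ n := hK.trans hn
        rw [E.apply_of_le (E.Pi_st X) h1, E.apply_of_le (E.Pi_st X) (h1.trans (Nat.le_succ n)),
          sub_self, map_zero])
  map_add' X Y := by
    ext k : 1
    change ∑ n ∈ Finset.range (nu D.m k), D.W (n + 1) ((X + Y) (n + 1) - (X + Y) n) =
      ∑ n ∈ Finset.range (nu D.m k), D.W (n + 1) (X (n + 1) - X n) +
      ∑ n ∈ Finset.range (nu D.m k), D.W (n + 1) (Y (n + 1) - Y n)
    rw [← Finset.sum_add_distrib]
    apply Finset.sum_congr rfl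
    intro n _
    rw [← map_add, E.add_apply, E.add_apply, add_sub_add_comm]
  map_smul' c X := by
    ext k : 1
    change ∑ n ∈ Finset.range (nu D.m k), D.W (n + 1) ((c • X) (n + 1) - (c • X) n) =
      c • ∑ n ∈ Finset.range (nu D.m k), D.W (n + 1) (X (n + 1) - X n)
    rw [Finset.smul_sum]
    apply Finset.sum_congr rfl
    intro n _
    rw [← map_smul, E.smul_apply, E.smul_apply, smul_sub]

lemma Slin_apply (X : E 𝕜) (k : ℕ) : (D.Slin X) k =
    ∑ n ∈ Finset.range (nu D.m k), D.W (n + 1) (X (n + 1) - X n) := rfl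

lemma norm_Slin_le (X : E 𝕜) : ‖D.Slin X‖ ≤ D.B * ‖X‖ := by
  obtain ⟨ω, h1, h2, h3⟩ := E.exists_ctl X
  apply E.norm_le_of_ctl (ω := fun k => ω (nu D.m k)) (mul_nonneg D.hB (norm_nonneg _))
    (h1.comp (nu_mono D.m)) (fun k => h2 _)
  intro j k hjk
  have hle := nu_mono D.m hjk
  have h4 := D.bound X ω h1 h2 ‖X‖ (norm_nonneg _) h3 _ _ hle
  rw [Slin_apply, Slin_apply, ← Finset.sum_Ico_eq_sub _ hle]
  rw [mul_assoc]
  exact h4

/-- The lifted operator on the path space. -/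
noncomputable def S : E 𝕜 →L[𝕜] E 𝕜 := LinearMap.mkContinuous D.Slin D.B D.norm_Slin_le

lemma S_apply (X : E 𝕜) (k : ℕ) : (D.S X) k =
    ∑ n ∈ Finset.range (nu D.m k), D.W (n + 1) (X (n + 1) - X n) := rfl

lemma norm_S_le : ‖D.S‖ ≤ D.B := LinearMap.mkContinuous_norm_le _ D.hB _

lemma Pi_S (N : ℕ) (X : E 𝕜) : E.Pi N (D.S X) = E.Pi N (D.S (E.Pi N X)) := by
  ext k : 1
  rw [E.Pi_apply, E.Pi_apply, S_apply, S_apply]
  apply Finset.sum_congr rfl
  intro n hn
  rw [Finset.mem_range] at hn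
  have h1 : n + 1 ≤ N := by
    have := nu_le D.m (min k N)
    omega
  rw [E.Pi_apply, E.Pi_apply, min_eq_left h1, min_eq_left ((Nat.le_succ n).trans h1)]

lemma comp_mem {g : E 𝕜 →L[𝕜] 𝕜} (hg : g ∈ Xsub 𝕜) : g.comp D.S ∈ Xsub 𝕜 := by
  let R : (E 𝕜 →L[𝕜] 𝕜) →L[𝕜] (E 𝕜 →L[𝕜] 𝕜) :=
    (ContinuousLinearMap.compL 𝕜 (E 𝕜) (E 𝕜) 𝕜).flip D.S
  have h1 : Xsub 𝕜 ≤ (Xsub 𝕜).comap R.toLinearMap := by
    apply Submodule.topologicalClosure_minimal
    · rw [Submodule.span_le]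
      rintro _ ⟨⟨⟨n, k⟩, s⟩, rfl⟩
      change (E.cf n k (ext s)).comp D.S ∈ Xsub 𝕜
      have h2 : (E.cf n k (ext s) : E 𝕜 →L[𝕜] 𝕜).comp D.S =
          ((E.cf n k (ext s)).comp D.S).comp (E.PiL (n + 1)) := by
        ext X
        change E.cf n k (ext s) (D.S X) = E.cf n k (ext s) (D.S (E.Pi (n + 1) X))
        have h3 : ∀ Y : E 𝕜, E.cf n k (ext s) Y = E.cf n k (ext s) (E.Pi (n + 1) Y) := by
          intro Y
          rw [E.cf_apply, E.cf_apply, E.Pi_apply, E.Pi_apply, min_self,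
            min_eq_left (Nat.le_succ n)]
        rw [h3 (D.S X), D.Pi_S, ← h3]
      rw [h2]
      exact comp_Pi_mem _ _
    · exact (Submodule.isClosed_topologicalClosure _).preimage R.continuous
  exact h1 hg

/-- The lifted operator on `X`. -/
noncomputable def T : XX 𝕜 →L[𝕜] XX 𝕜 :=
  LinearMap.mkContinuous
    { toFun := fun g => XX.mk ((incl 𝕜 g).comp D.S) (D.comp_mem (incl_mem g))
      map_add' := fun _ _ => rfl
      map_smul' := fun _ _ => rfl } D.B (fun g => by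
      change ‖(incl 𝕜 g).comp D.S‖ ≤ D.B * ‖g‖
      refine (ContinuousLinearMap.opNorm_comp_le _ _).trans ?_
      rw [mul_comm, norm_incl]
      exact mul_le_mul_of_nonneg_right D.norm_S_le (norm_nonneg _))

lemma norm_T_le : ‖D.T‖ ≤ D.B := LinearMap.mkContinuous_norm_le _ D.hB _

lemma q_S_stp {n : ℕ} {z : Z 𝕜} (hn : Z.st z ≤ n) (hn0 : 1 ≤ n) :
    E.q (D.S (E.stp n z)) = D.W n z := by
  have hz : Z.P n z = z := Z.P_of_st_le hn
  obtain ⟨K, hK⟩ := exists_le_nu D.m n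
  have h1 : E.q (D.S (E.stp n z)) = (D.S (E.stp n z)) (max (E.st (D.S (E.stp n z))) K) :=
    E.qlin_eq_of_le (le_max_left _ _)
  rw [h1, S_apply, Finset.sum_eq_single (n - 1)]
  · rw [E.stp_apply_of_P hz, E.stp_apply_of_P hz, if_pos (by omega), if_neg (by omega), sub_zero,
      Nat.sub_add_cancel hn0]
  · intro j _ hj
    rw [E.stp_apply_of_P hz, E.stp_apply_of_P hz]
    by_cases h2 : n ≤ j
    · rw [if_pos (by omega), if_pos h2, sub_self, map_zero]
    · rw [if_neg (by omega), if_neg h2, sub_self, map_zero]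
  · intro hmem
    exfalso
    apply hmem
    rw [Finset.mem_range]
    have h3 : n ≤ nu D.m (max (E.st (D.S (E.stp n z))) K) := hK.trans (nu_mono D.m (le_max_right _ _))
    omega

lemma tendsto_psi (y : YY 𝕜) (z : Z 𝕜) :
    Tendsto (fun n => y (D.W n z)) atTop (𝓝 (psiL 𝕜 D.T y z)) := by
  have h1 : sharp D.T (qs y) = (qs y).comp D.S := sharp_of_lift D.T D.S (fun g => rfl) _
  have h2 := E.tendsto_lam (sharp D.T (qs y)) z
  rw [← psiL_apply] at h2
  refine h2.congr' ?_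
  filter_upwards [eventually_ge_atTop (max 1 (Z.st z))] with n hn
  rw [h1, ContinuousLinearMap.comp_apply, qs_apply,
    D.q_S_stp ((le_max_right _ _).trans hn) ((le_max_left _ _).trans hn)]

end LiftData

end Pool.Agent.H33
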