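import Pool.Agent.H33.Tree2

/-!
A maximal inequality for paths of finite variation in a finite dimensional `ℓ₂` space.
-/

namespace Pool.Agent.H33

open Set Filter Topology

lemma half_rpow {x : ℝ} (hx : 0 ≤ x) : (x / 2) ^ (3 / 4 : ℝ) ≤ 3 / 5 * x ^ (3 / 4 : ℝ) := by
  have h1 : (1 / 2 : ℝ) ^ (3 / 4 : ℝ) ≤ 3 / 5 := by
    apply le_of_pow_le_pow_left₀ (n := 4) (by norm_num) (by norm_num)
    rw [← Real.rpow_natCast, ← Real.rpow_mul (by norm_num)]
    have : (3 / 4 : ℝ) * ((4 : ℕ) : ℝ) = ((3 : ℕ) : ℝ) := by norm_num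
    rw [this, Real.rpow_natCast]
    norm_num
  rw [show x / 2 = (1 / 2) * x by ring, Real.mul_rpow (by norm_num) hx]
  gcongr

lemma maximal {𝕜 α : Type*} [RCLike 𝕜] (A : ℕ → α → 𝕜) (F : Finset α) (ω : ℕ → ℝ)
    (hω : Monotone ω) {D : ℝ} (hD : 0 ≤ D)
    (h : ∀ m n, m ≤ n → l2 F (fun γ => A n γ - A m γ) ≤ D * (ω n - ω m) ^ (3 / 4 : ℝ)) :
    ∀ N a b, a ≤ b → b ≤ a + N → ∀ G ⊆ F, ∀ l : α → ℕ, (∀ γ ∈ G, a ≤ l γ ∧ l γ ≤ b) →
      l2 G (fun γ => A (l γ) γ - A a γ) ≤ 10 * (D * (ω b - ω a) ^ (3 / 4 : ℝ)) := by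
  classical
  intro N
  induction N using Nat.strong_induction_on with
  | _ N ih =>
  intro a b hab hbN G hG l hl
  set Δ := ω b - ω a with hΔ
  have hΔ0 : 0 ≤ Δ := sub_nonneg.2 (hω hab)
  rcases hΔ0.eq_or_lt with h0 | hpos
  · have hz : l2 G (fun γ => A (l γ) γ - A a γ) = 0 := by
      rw [← l2_zero (𝕜 := 𝕜) G]
      apply l2_congr
      intro γ hγ
      have h1 := h a (l γ) (hl γ hγ).1
      have h2 : ω (l γ) - ω a = 0 := by
        have e1 := hω (hl γ hγ).1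
        have e2 := hω (hl γ hγ).2
        linarith
      rw [h2, Real.zero_rpow (by norm_num), mul_zero] at h1
      have h3 := norm_le_l2 (hG hγ) (fun γ' => A (l γ) γ' - A a γ')
      have h4 : ‖A (l γ) γ - A a γ‖ ≤ 0 := h3.trans h1
      exact norm_le_zero_iff.1 h4
    rw [hz]
    positivity
  · let c := Nat.findGreatest (fun i => a ≤ i ∧ ω i - ω a ≤ Δ / 2) b
    have hc : a ≤ c ∧ ω c - ω a ≤ Δ / 2 :=
      Nat.findGreatest_spec (P := fun i => a ≤ i ∧ ω i - ω a ≤ Δ / 2) hab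
        ⟨le_rfl, by rw [sub_self]; positivity⟩
    have hcb : c ≤ b := Nat.findGreatest_le b
    have hcb' : c < b := by
      rcases hcb.lt_or_eq with h1 | h1
      · exact h1
      · exfalso
        have h2 := hc.2
        rw [h1, ← hΔ] at h2
        linarith
    have hc1 : Δ / 2 < ω (c + 1) - ω a := by
      by_contra hcon
      push Not at hcon
      exact Nat.findGreatest_is_greatest (P := fun i => a ≤ i ∧ ω i - ω a ≤ Δ / 2)
        (Nat.lt_succ_self c) hcb' ⟨hc.1.trans (Nat.le_succ c), hcon⟩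
    have hNpos : 0 < N := by omega
    set x := D * Δ ^ (3 / 4 : ℝ) with hx
    have hx0 : 0 ≤ x := by positivity
    -- first half
    have hG1 : l2 (G.filter (fun γ => l γ ≤ c)) (fun γ => A (l γ) γ - A a γ) ≤ 6 * x := by
      have h1 := ih (N - 1) (by omega) a c hc.1 (by omega) (G.filter (fun γ => l γ ≤ c))
        ((Finset.filter_subset _ _).trans hG) l (fun γ hγ => by
          rw [Finset.mem_filter] at hγ
          exact ⟨(hl γ hγ.1).1, hγ.2⟩)
      refine h1.trans ?_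
      have h2 : (ω c - ω a) ^ (3 / 4 : ℝ) ≤ 3 / 5 * Δ ^ (3 / 4 : ℝ) :=
        (Real.rpow_le_rpow (sub_nonneg.2 (hω hc.1)) hc.2 (by norm_num)).trans (half_rpow hΔ0)
      calc 10 * (D * (ω c - ω a) ^ (3 / 4 : ℝ)) ≤ 10 * (D * (3 / 5 * Δ ^ (3 / 4 : ℝ))) := by
            gcongr
        _ = 6 * x := by rw [hx]; ring
    -- second half
    have hG2 : l2 (G.filter (fun γ => ¬ l γ ≤ c)) (fun γ => A (l γ) γ - A a γ) ≤ 7 * x := by
      have h1 := ih (N - 1) (by omega) (c + 1) b hcb' (by omega)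
        (G.filter (fun γ => ¬ l γ ≤ c)) ((Finset.filter_subset _ _).trans hG) l (fun γ hγ => by
          rw [Finset.mem_filter] at hγ
          exact ⟨by omega, (hl γ hγ.1).2⟩)
      have h2 : (ω b - ω (c + 1)) ^ (3 / 4 : ℝ) ≤ 3 / 5 * Δ ^ (3 / 4 : ℝ) :=
        (Real.rpow_le_rpow (sub_nonneg.2 (hω hcb')) (by linarith) (by norm_num)).trans
          (half_rpow hΔ0)
      have h3 : l2 (G.filter (fun γ => ¬ l γ ≤ c)) (fun γ => A (c + 1) γ - A a γ) ≤ x := by
        refine (l2_mono ((Finset.filter_subset _ _).trans hG) _).trans ?_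
        refine (h a (c + 1) (hc.1.trans (Nat.le_succ c))).trans ?_
        rw [hx]
        have : ω (c + 1) - ω a ≤ Δ := by
          have := hω (show c + 1 ≤ b from hcb')
          linarith
        have h0 : 0 ≤ ω (c + 1) - ω a := sub_nonneg.2 (hω (hc.1.trans (Nat.le_succ c)))
        exact mul_le_mul_of_nonneg_left (Real.rpow_le_rpow h0 this (by norm_num)) hD
      calc l2 (G.filter (fun γ => ¬ l γ ≤ c)) (fun γ => A (l γ) γ - A a γ)
          = l2 (G.filter (fun γ => ¬ l γ ≤ c))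
            (fun γ => (A (l γ) γ - A (c + 1) γ) + (A (c + 1) γ - A a γ)) := by
            apply l2_congr; intro γ _; ring
        _ ≤ l2 (G.filter (fun γ => ¬ l γ ≤ c)) (fun γ => A (l γ) γ - A (c + 1) γ) +
            l2 (G.filter (fun γ => ¬ l γ ≤ c)) (fun γ => A (c + 1) γ - A a γ) := l2_add_le _ _ _
        _ ≤ 10 * (D * (ω b - ω (c + 1)) ^ (3 / 4 : ℝ)) + x := add_le_add h1 h3
        _ ≤ 10 * (D * (3 / 5 * Δ ^ (3 / 4 : ℝ))) + x := by gcongr
        _ = 7 * x := by rw [hx]; ring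
    apply l2_le_of_sq_le (by positivity)
    rw [← Finset.sum_filter_add_sum_filter_not G (fun γ => l γ ≤ c), ← l2_sq, ← l2_sq]
    have e1 := pow_le_pow_left₀ (l2_nonneg _ _) hG1 2
    have e2 := pow_le_pow_left₀ (l2_nonneg _ _) hG2 2
    nlinarith

end Pool.Agent.H33
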