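import Pool.Agent.H33.Tree2

/-!
The path space `E`: eventually constant paths in the tree space, with the control norm of
exponent `3/4` (that is, the `4/3`-variation norm).
-/

namespace Pool.Agent.H33

open Set Filter Topology

/-- The underlying submodule. -/
def Esub (𝕜 : Type*) [RCLike 𝕜] : Submodule 𝕜 (ℕ → Z 𝕜) where
  carrier := {X | (∀ n, Z.P n (X n) = X n) ∧ ∃ M, ∀ n, X (min n M) = X n}
  add_mem' := by
    rintro X Y ⟨hX, M, hM⟩ ⟨hY, M', hM'⟩
    refine ⟨fun n => ?_, max M M', fun n => ?_⟩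
    · simp only [Pi.add_apply, map_add, hX, hY]
    · simp only [Pi.add_apply]
      have h1 : X (min n (max M M')) = X n := by
        rw [← hM, ← hM n]
        congr 1; omega
      have h2 : Y (min n (max M M')) = Y n := by
        rw [← hM', ← hM' n]
        congr 1; omega
      rw [h1, h2]
  zero_mem' := ⟨fun _ => by simp, 0, fun _ => rfl⟩
  smul_mem' := by
    rintro c X ⟨hX, M, hM⟩
    refine ⟨fun n => ?_, M, fun n => ?_⟩
    · simp only [Pi.smul_apply, map_smul, hX]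
    · simp only [Pi.smul_apply]; rw [hM]

/-- The path space. -/
def E (𝕜 : Type*) [RCLike 𝕜] : Type _ := ↥(Esub 𝕜)

noncomputable instance (𝕜 : Type*) [RCLike 𝕜] : AddCommGroup (E 𝕜) :=
  inferInstanceAs (AddCommGroup ↥(Esub 𝕜))

noncomputable instance (𝕜 : Type*) [RCLike 𝕜] : Module 𝕜 (E 𝕜) :=
  inferInstanceAs (Module 𝕜 ↥(Esub 𝕜))

namespace E

variable {𝕜 : Type*} [RCLike 𝕜]

/-- The underlying path. -/
noncomputable def val : E 𝕜 →ₗ[𝕜] (ℕ → Z 𝕜) := (Esub 𝕜).subtype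

noncomputable instance : CoeFun (E 𝕜) fun _ => ℕ → Z 𝕜 := ⟨fun X => val X⟩

/-- constructor -/
noncomputable def mk (X : ℕ → Z 𝕜) (h : X ∈ Esub 𝕜) : E 𝕜 := ⟨X, h⟩

@[simp] lemma mk_apply (X : ℕ → Z 𝕜) (h : X ∈ Esub 𝕜) (n : ℕ) : (mk X h) n = X n := rfl

lemma val_mem (X : E 𝕜) : val X ∈ Esub 𝕜 := X.2

@[ext] lemma ext' {X Y : E 𝕜} (h : ∀ n, X n = Y n) : X = Y :=
  Subtype.ext (funext fun n => h n)

@[simp] lemma add_apply (X Y : E 𝕜) (n : ℕ) : (X + Y) n = X n + Y n := rfl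
@[simp] lemma sub_apply (X Y : E 𝕜) (n : ℕ) : (X - Y) n = X n - Y n := rfl
@[simp] lemma neg_apply (X : E 𝕜) (n : ℕ) : (-X) n = - X n := rfl
@[simp] lemma smul_apply (c : 𝕜) (X : E 𝕜) (n : ℕ) : (c • X) n = c • X n := rfl
@[simp] lemma zero_apply (n : ℕ) : (0 : E 𝕜) n = 0 := rfl

@[simp] lemma sum_apply {ι : Type*} (s : Finset ι) (X : ι → E 𝕜) (n : ℕ) :
    (∑ i ∈ s, X i) n = ∑ i ∈ s, X i n := by
  rw [map_sum]
  simp [Finset.sum_apply]

lemma P_apply_self (X : E 𝕜) (n : ℕ) : Z.P n (X n) = X n := (val_mem X).1 n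

lemma P_apply_of_le (X : E 𝕜) {m n : ℕ} (h : m ≤ n) : Z.P n (X m) = X m := by
  rw [← X.P_apply_self m, Z.P_P_of_le' h]

lemma apply_zero (X : E 𝕜) : X 0 = 0 := by
  rw [← X.P_apply_self 0, Z.P_zero]

/-- Stopping at time `N`. -/
noncomputable def Pi (N : ℕ) : E 𝕜 →ₗ[𝕜] E 𝕜 where
  toFun X := mk (fun n => X (min n N)) (by
    refine ⟨fun n => ?_, N, fun n => ?_⟩
    · exact X.P_apply_of_le (min_le_left _ _)
    · simp only [min_assoc, min_self])
  map_add' X Y := rfl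
  map_smul' c X := rfl

@[simp] lemma Pi_apply (N : ℕ) (X : E 𝕜) (n : ℕ) : (Pi N X) n = X (min n N) := rfl

lemma Pi_Pi (M N : ℕ) (X : E 𝕜) : Pi M (Pi N X) = Pi (min M N) X := by
  ext n : 1
  simp [min_assoc]

lemma Pi_Pi_of_le {M N : ℕ} (h : M ≤ N) (X : E 𝕜) : Pi M (Pi N X) = Pi M X := by
  rw [Pi_Pi, min_eq_left h]

lemma Pi_Pi_of_le' {M N : ℕ} (h : M ≤ N) (X : E 𝕜) : Pi N (Pi M X) = Pi M X := by
  rw [Pi_Pi, min_eq_right h]

lemma exists_Pi_eq (X : E 𝕜) : ∃ M, Pi M X = X := by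
  obtain ⟨M, hM⟩ := (val_mem X).2
  exact ⟨M, by ext n : 1; exact hM n⟩

/-- A time at which `X` is stopped. -/
noncomputable def st (X : E 𝕜) : ℕ := Classical.choose (exists_Pi_eq X)

lemma Pi_st (X : E 𝕜) : Pi (st X) X = X := Classical.choose_spec (exists_Pi_eq X)

lemma Pi_of_st_le {X : E 𝕜} {M : ℕ} (h : st X ≤ M) : Pi M X = X := by
  conv_rhs => rw [← Pi_st X, ← Pi_Pi_of_le' h X]
  rw [Pi_st]

lemma apply_of_le {X : E 𝕜} {M n : ℕ} (hX : Pi M X = X) (h : M ≤ n) : X n = X M := by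
  conv_lhs => rw [← hX]
  rw [Pi_apply, min_eq_right h]

lemma apply_eq_zero {X : E 𝕜} {M n : ℕ} (hX : Pi M X = 0) (h : n ≤ M) : X n = 0 := by
  have := congrArg (fun Y : E 𝕜 => Y n) hX
  simpa [min_eq_left h] using this

/-- The final value. -/
noncomputable def qlin : E 𝕜 →ₗ[𝕜] Z 𝕜 where
  toFun X := X (st X)
  map_add' X Y := by
    have h1 : (X + Y) (st (X + Y)) = (X + Y) (max (st (X + Y)) (max (st X) (st Y))) :=
      (apply_of_le (Pi_st (X + Y)) (le_max_left _ _)).symm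
    have h2 : X (st X) = X (max (st (X + Y)) (max (st X) (st Y))) :=
      (apply_of_le (Pi_st X) ((le_max_left _ _).trans (le_max_right _ _))).symm
    have h3 : Y (st Y) = Y (max (st (X + Y)) (max (st X) (st Y))) :=
      (apply_of_le (Pi_st Y) ((le_max_right _ _).trans (le_max_right _ _))).symm
    rw [h1, h2, h3, add_apply]
  map_smul' c X := by
    have h1 : (c • X) (st (c • X)) = (c • X) (max (st (c • X)) (st X)) :=
      (apply_of_le (Pi_st (c • X)) (le_max_left _ _)).symm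
    have h2 : X (st X) = X (max (st (c • X)) (st X)) :=
      (apply_of_le (Pi_st X) (le_max_right _ _)).symm
    rw [h1, h2, smul_apply, RingHom.id_apply]

lemma qlin_eq {X : E 𝕜} {M : ℕ} (hX : Pi M X = X) : qlin X = X M := by
  change X (st X) = X M
  rw [← apply_of_le (Pi_st X) (le_max_left (st X) M), apply_of_le hX (le_max_right (st X) M)]

lemma qlin_eq_of_le {X : E 𝕜} {n : ℕ} (h : st X ≤ n) : qlin X = X n :=
  qlin_eq (Pi_of_st_le h)

end E

/-- Index type for the seminorms on the path space. -/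
structure EI where
  m : ℕ
  n : ℕ
  hmn : m ≤ n

namespace E

variable {𝕜 : Type*} [RCLike 𝕜]

/-- Evaluation at time `n`, as a linear map. -/
noncomputable def evlin (n : ℕ) : E 𝕜 →ₗ[𝕜] Z 𝕜 := (LinearMap.proj n).comp val

@[simp] lemma evlin_apply (n : ℕ) (X : E 𝕜) : evlin n X = X n := rfl

/-- The seminorms on the path space. -/
noncomputable def Ne (i : EI) : Seminorm 𝕜 (E 𝕜) :=
  (normSeminorm 𝕜 (Z 𝕜)).comp (evlin i.n - evlin i.m)

lemma Ne_apply (i : EI) (X : E 𝕜) : Ne i X = ‖X i.n - X i.m‖ := rfl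

/-- The family of seminorms on the path space. -/
noncomputable def fam (𝕜 : Type*) [RCLike 𝕜] : Fam 𝕜 (E 𝕜) EI where
  N i := Ne i
  a i := i.m
  b i := i.n
  P := Pi
  hab i := i.hmn
  triv i h X := by rw [Ne_apply, h, sub_self, norm_zero]
  lo M i := ⟨⟨min i.m M, min i.n M, min_le_min i.hmn le_rfl⟩, rfl, rfl, fun X => rfl⟩
  hi M i := by
    refine ⟨⟨max i.m M, max i.n M, max_le_max i.hmn le_rfl⟩, rfl, rfl, fun X => ?_⟩
    rw [Ne_apply, Ne_apply]
    simp only [sub_apply, Pi_apply]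
    have key : ∀ n : ℕ, X n - X (min n M) = X (max n M) - X M := by
      intro n
      rcases le_total n M with h | h
      · rw [min_eq_left h, max_eq_right h, sub_self, sub_self]
      · rw [min_eq_right h, max_eq_left h]
    rw [key, key, sub_sub_sub_cancel_right]
  fin X := by
    refine ⟨st X, 2 * ∑ n ∈ Finset.range (st X + 1), ‖X n‖, fun i => ?_, Pi_st X⟩
    rw [Ne_apply]
    have hb : ∀ n, ‖X n‖ ≤ ∑ n ∈ Finset.range (st X + 1), ‖X n‖ := by
      intro n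
      have h1 : X n = X (min n (st X)) := by
        conv_lhs => rw [← Pi_st X]
        rfl
      rw [h1]
      exact Finset.single_le_sum (f := fun n => ‖X n‖) (fun _ _ => norm_nonneg _)
        (Finset.mem_range.2 (Nat.lt_succ_of_le (min_le_right _ _)))
    calc ‖X i.n - X i.m‖ ≤ ‖X i.n‖ + ‖X i.m‖ := norm_sub_le _ _
      _ ≤ _ := by
        have := hb i.n
        have := hb i.m
        linarith

lemma fam_N (i : EI) (X : E 𝕜) : (fam 𝕜).N i X = ‖X i.n - X i.m‖ := rfl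
lemma fam_P (M : ℕ) : (fam 𝕜).P M = Pi M := rfl

/-- The norm on the path space. -/
noncomputable def addGroupNorm (𝕜 : Type*) [RCLike 𝕜] : AddGroupNorm (E 𝕜) where
  toFun X := (fam 𝕜).nm (3 / 4) X
  map_zero' := (fam 𝕜).nm_zero _
  add_le' X Y := (fam 𝕜).nm_add_le (by norm_num) (by norm_num) X Y
  neg' X := by
    apply le_antisymm
    · have := (fam 𝕜).nm_smul (θ := 3 / 4) (by norm_num) (-1 : 𝕜) X
      simpa using this
    · have := (fam 𝕜).nm_smul (θ := 3 / 4) (by norm_num) (-1 : 𝕜) (-X)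
      simpa using this
  eq_zero_of_map_eq_zero' X hX := by
    ext n : 1
    have h := (fam 𝕜).N_le_nm (θ := 3 / 4) (by norm_num) X ⟨0, n, Nat.zero_le _⟩
    have hX' : (fam 𝕜).nm (3 / 4) X = 0 := hX
    rw [hX', fam_N] at h
    simp only [apply_zero, sub_zero] at h
    rw [zero_apply]
    exact norm_le_zero_iff.1 h

noncomputable instance : NormedAddCommGroup (E 𝕜) := (addGroupNorm 𝕜).toNormedAddCommGroup

lemma norm_def (X : E 𝕜) : ‖X‖ = (fam 𝕜).nm (3 / 4) X := rfl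

noncomputable instance : NormedSpace 𝕜 (E 𝕜) where
  norm_smul_le c X := (fam 𝕜).nm_smul (by norm_num) c X

lemma norm_Pi_le (M : ℕ) (X : E 𝕜) : ‖Pi M X‖ ≤ ‖X‖ := (fam 𝕜).nm_stop_le (by norm_num) M X

lemma norm_sub_Pi_le (M : ℕ) (X : E 𝕜) : ‖X - Pi M X‖ ≤ ‖X‖ :=
  (fam 𝕜).nm_sub_stop_le (by norm_num) M X

lemma norm_sub_le_norm (X : E 𝕜) {m n : ℕ} (h : m ≤ n) : ‖X n - X m‖ ≤ ‖X‖ :=
  (fam 𝕜).N_le_nm (θ := 3 / 4) (by norm_num) X ⟨m, n, h⟩

lemma norm_apply_le (X : E 𝕜) (n : ℕ) : ‖X n‖ ≤ ‖X‖ := by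
  have := norm_sub_le_norm X (Nat.zero_le n)
  rwa [apply_zero, sub_zero] at this

lemma exists_ctl (X : E 𝕜) : ∃ ω : ℕ → ℝ, Monotone ω ∧ (∀ n, 0 ≤ ω n ∧ ω n ≤ 1) ∧
    ∀ m n, m ≤ n → ‖X n - X m‖ ≤ ‖X‖ * (ω n - ω m) ^ (3 / 4 : ℝ) := by
  obtain ⟨ω, h1, h2, h3⟩ := (fam 𝕜).exists_ctl (θ := 3 / 4) (by norm_num) X
  exact ⟨ω, h1, h2, fun m n h => h3 ⟨m, n, h⟩⟩

lemma norm_le_of_ctl {X : E 𝕜} {C : ℝ} {ω : ℕ → ℝ} (hC : 0 ≤ C) (h1 : Monotone ω)
    (h2 : ∀ n, 0 ≤ ω n ∧ ω n ≤ 1)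
    (h3 : ∀ m n, m ≤ n → ‖X n - X m‖ ≤ C * (ω n - ω m) ^ (3 / 4 : ℝ)) : ‖X‖ ≤ C :=
  (fam 𝕜).nm_le_of_ctl hC ⟨h1, h2, fun i => h3 i.m i.n i.hmn⟩

/-- The final value map. -/
noncomputable def q : E 𝕜 →L[𝕜] Z 𝕜 :=
  LinearMap.mkContinuous qlin 1 (fun X => by rw [one_mul]; exact norm_apply_le X _)

lemma q_apply (X : E 𝕜) : q X = qlin X := rfl

lemma norm_q_le (X : E 𝕜) : ‖q X‖ ≤ ‖X‖ := norm_apply_le X _

/-- Evaluation at time `n`. -/
noncomputable def ev (n : ℕ) : E 𝕜 →L[𝕜] Z 𝕜 :=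
  LinearMap.mkContinuous (evlin n) 1 (fun X => by rw [one_mul]; exact norm_apply_le X _)

@[simp] lemma ev_apply (n : ℕ) (X : E 𝕜) : ev n X = X n := rfl

/-- Stopping, as a continuous linear map. -/
noncomputable def PiL (N : ℕ) : E 𝕜 →L[𝕜] E 𝕜 :=
  LinearMap.mkContinuous (Pi N) 1 (fun X => by rw [one_mul]; exact norm_Pi_le N X)

@[simp] lemma PiL_apply (N : ℕ) (X : E 𝕜) : PiL N X = Pi N X := rfl

/-- The path jumping to `z` at time `n`. -/
noncomputable def stp (n : ℕ) : Z 𝕜 →ₗ[𝕜] E 𝕜 where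
  toFun z := mk (fun k => if n ≤ k then Z.P k z else 0) (by
    refine ⟨fun k => ?_, max n (Z.st z), fun k => ?_⟩
    · beta_reduce
      split_ifs
      · exact Z.P_P_of_le le_rfl z
      · exact map_zero _
    · have h1 : n ≤ min k (max n (Z.st z)) ↔ n ≤ k := by omega
      simp only [h1]
      split_ifs with h
      · rcases le_total k (max n (Z.st z)) with h2 | h2
        · rw [min_eq_left h2]
        · rw [min_eq_right h2, Z.P_of_st_le (le_max_right _ _),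
            Z.P_of_st_le ((le_max_right _ _).trans h2)]
      · rfl)
  map_add' z w := by
    ext k : 1
    change (if n ≤ k then Z.P k (z + w) else 0) =
      (if n ≤ k then Z.P k z else 0) + (if n ≤ k then Z.P k w else 0)
    split_ifs
    · rw [map_add]
    · rw [add_zero]
  map_smul' c z := by
    ext k : 1
    change (if n ≤ k then Z.P k (c • z) else 0) = c • (if n ≤ k then Z.P k z else 0)
    split_ifs
    · rw [map_smul]
    · rw [smul_zero]

lemma stp_apply (n : ℕ) (z : Z 𝕜) (k : ℕ) : (stp n z) k = if n ≤ k then Z.P k z else 0 := rfl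

lemma stp_apply_of_P {n : ℕ} {z : Z 𝕜} (hz : Z.P n z = z) (k : ℕ) :
    (stp n z) k = if n ≤ k then z else 0 := by
  rw [stp_apply]
  split_ifs with h
  · rw [← hz, Z.P_P_of_le' h]
  · rfl

lemma norm_stp_le {n : ℕ} {z : Z 𝕜} (hz : Z.P n z = z) : ‖stp n z‖ ≤ ‖z‖ := by
  apply norm_le_of_ctl (ω := fun k => if n ≤ k then 1 else 0) (norm_nonneg _)
  · intro x y hxy
    simp only
    split_ifs with h1 h2
    · exact le_rfl
    · omega
    · exact zero_le_one
    · exact le_rfl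
  · intro m
    split_ifs <;> norm_num
  · intro m k hmk
    rw [stp_apply_of_P hz, stp_apply_of_P hz]
    split_ifs with h1 h2 h3
    · simp
    · simp
    · omega
    · simp

lemma q_stp {n : ℕ} {z : Z 𝕜} : q (stp n z) = z := by
  rw [q_apply, qlin_eq_of_le (n := max (st (stp n z)) (max n (Z.st z))) (le_max_left _ _), stp_apply,
    if_pos ((le_max_left _ _).trans (le_max_right _ _)),
    Z.P_of_st_le ((le_max_right _ _).trans (le_max_right _ _))]

lemma Pi_stp_of_lt {N n : ℕ} (h : N < n) (z : Z 𝕜) : Pi N (stp n z) = 0 := by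
  ext k : 1
  rw [Pi_apply, stp_apply, if_neg (by omega), zero_apply]

/-! ### Small functionals on zero-sum paths -/

lemma Pi_sum_blocks {u : ℕ → E 𝕜} {M : ℕ → ℕ} (hM : StrictMono M)
    (h1 : ∀ i, Pi (M i) (u i) = 0) (h2 : ∀ i, Pi (M (i + 1)) (u i) = u i) (ε : ℕ → 𝕜)
    {j K : ℕ} (hj : j ≤ K) : Pi (M j) (∑ i ∈ Finset.range K, ε i • u i) =
      ∑ i ∈ Finset.range j, ε i • u i := by
  rw [map_sum]
  rw [← Finset.sum_subset (Finset.range_subset_range.2 hj)]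
  · apply Finset.sum_congr rfl
    intro i hi
    rw [Finset.mem_range] at hi
    rw [map_smul, ← h2 i, Pi_Pi_of_le' (hM.monotone hi)]
  · intro i hi hi'
    rw [Finset.mem_range] at hi hi'
    push Not at hi'
    rw [map_smul, ← Pi_Pi_of_le (hM.monotone hi'), h1, map_zero, smul_zero]

lemma exists_phase (c : 𝕜) : ∃ θ : 𝕜, ‖θ‖ ≤ 1 ∧ θ * c = ((‖c‖ : ℝ) : 𝕜) := by
  by_cases hc : c = 0
  · exact ⟨0, by simp, by simp [hc]⟩
  · refine ⟨((‖c‖ : ℝ) : 𝕜) / c, ?_, ?_⟩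
    · rw [norm_div, RCLike.norm_ofReal, abs_of_nonneg (norm_nonneg _),
        div_self (norm_ne_zero_iff.2 hc)]
    · rw [div_mul_cancel₀ _ hc]

lemma SE (Φ : E 𝕜 →L[𝕜] 𝕜) {δ : ℝ} (hδ : 0 < δ) : ∃ N, ∀ b : E 𝕜, Pi N b = 0 → q b = 0 →
    ‖Φ b‖ ≤ δ * ‖b‖ := by
  by_contra hcon
  push Not at hcon
  choose U₀ hU1 hU2 hU3 using hcon
  have hne : ∀ M, 0 < ‖U₀ M‖ := by
    intro M
    rcases (norm_nonneg (U₀ M)).eq_or_lt with h | h
    · exfalso
      have h' := hU3 M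
      rw [norm_eq_zero.1 h.symm] at h'
      simp at h'
    · exact h
  set U : ℕ → E 𝕜 := fun M => ((‖U₀ M‖⁻¹ : ℝ) : 𝕜) • U₀ M with hU
  have hcoef : ∀ M, ‖((‖U₀ M‖⁻¹ : ℝ) : 𝕜)‖ = ‖U₀ M‖⁻¹ := by
    intro M
    rw [RCLike.norm_ofReal, abs_of_nonneg (inv_nonneg.2 (norm_nonneg _))]
  have hnorm : ∀ M, ‖U M‖ = 1 := by
    intro M
    rw [hU]
    simp only
    rw [norm_smul, hcoef, inv_mul_cancel₀ (hne M).ne']
  have hUP : ∀ M, Pi M (U M) = 0 := by
    intro M
    rw [hU]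
    simp only [map_smul]
    rw [hU1 M, smul_zero]
  have hUq : ∀ M, q (U M) = 0 := by
    intro M
    rw [hU]
    simp only [map_smul]
    rw [hU2 M, smul_zero]
  have hUΦ : ∀ M, δ ≤ ‖Φ (U M)‖ := by
    intro M
    rw [hU]
    simp only [map_smul]
    rw [norm_smul, hcoef]
    have := hU3 M
    have h2 := hne M
    rw [inv_mul_eq_div, le_div_iff₀ h2]
    exact this.le
  let M : ℕ → ℕ := fun n => Nat.rec 0 (fun _ m => max (m + 1) (st (U m))) n
  have hMs : ∀ i, M (i + 1) = max (M i + 1) (st (U (M i))) := fun i => rfl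
  have hM : StrictMono M := strictMono_nat_of_lt_succ fun i => by
    rw [hMs]; exact lt_of_lt_of_le (Nat.lt_succ_self _) (le_max_left _ _)
  have hP : ∀ i, Pi (M (i + 1)) (U (M i)) = U (M i) := fun i =>
    Pi_of_st_le (by rw [hMs]; exact le_max_right _ _)
  choose θ hθ1 hθ2 using fun j => exists_phase (Φ (U (M j)))
  have main : ∀ n : ℕ, 0 < n → (n : ℝ) * δ ≤ 2 * ‖Φ‖ := by
    intro n hn
    set K := 27 * n ^ 4 with hK
    have hKpos : 0 < K := by positivity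
    set f := ∑ j ∈ Finset.range K, θ j • U (M j) with hf
    have hval : ∀ k, f k = ∑ j ∈ Finset.range K, θ j • (U (M j)) k := by
      intro k
      rw [hf, sum_apply]
      simp only [smul_apply]
    have hsup : ∀ k, ‖f k‖ ≤ 1 := by
      intro k
      rw [hval]
      have hexcl : ∀ j j', j < j' → (U (M j')) k ≠ 0 → (U (M j)) k = 0 := by
        intro j j' hjj' hne'
        have hn : M j' < k := by
          by_contra hcon
          push Not at hcon
          exact hne' (apply_eq_zero (hUP _) hcon)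
        have hle : M (j + 1) ≤ M j' := hM.monotone hjj'
        rw [apply_of_le (hP j) (hle.trans hn.le), ← qlin_eq (hP j), ← q_apply, hUq]
      by_cases hall : ∃ j ∈ Finset.range K, (U (M j)) k ≠ 0
      · obtain ⟨j, hj, hjne⟩ := hall
        rw [Finset.sum_eq_single j]
        · rw [norm_smul]
          calc ‖θ j‖ * ‖(U (M j)) k‖ ≤ 1 * 1 := by
                apply mul_le_mul (hθ1 _) _ (norm_nonneg _) zero_le_one
                exact (norm_apply_le _ _).trans (hnorm _).le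
            _ = 1 := one_mul 1
        · intro j' _ hj'
          rcases lt_or_gt_of_ne hj' with hlt | hlt
          · rw [hexcl j' j hlt hjne, smul_zero]
          · by_contra hcon
            have : (U (M j')) k ≠ 0 := fun h0 => hcon (by rw [h0, smul_zero])
            exact hjne (hexcl j j' hlt this)
        · exact fun h => absurd hj h
      · push Not at hall
        rw [Finset.sum_eq_zero]
        · simp
        · intro j hj
          rw [hall j hj, smul_zero]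
    have hfn : ‖f‖ ≤ 2 * (3 * K : ℝ) ^ (3 / 4 : ℝ) := by
      apply (fam 𝕜).nm_le_blocks (by norm_num) hKpos (M := M) (by norm_num)
      · have := Pi_sum_blocks hM (fun i => hUP _) hP θ (Nat.zero_le K)
        rwa [Finset.range_zero, Finset.sum_empty] at this
      · exact Pi_sum_blocks hM (fun i => hUP _) hP θ le_rfl
      · intro i
        rw [fam_N]
        calc ‖f i.n - f i.m‖ ≤ ‖f i.n‖ + ‖f i.m‖ := norm_sub_le _ _
          _ ≤ 1 + 1 := add_le_add (hsup _) (hsup _)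
          _ = 2 := by norm_num
      · intro j hj
        have e1 := Pi_sum_blocks hM (fun i => hUP _) hP θ (show j + 1 ≤ K from hj)
        have e2 := Pi_sum_blocks hM (fun i => hUP _) hP θ hj.le
        rw [fam_P, fam_P, e1, e2, Finset.sum_range_succ, add_sub_cancel_left, ← norm_def]
        calc ‖θ j • U (M j)‖ = ‖θ j‖ * ‖U (M j)‖ := norm_smul _ _
          _ ≤ 1 * 1 := mul_le_mul (hθ1 j) (hnorm _).le (norm_nonneg _) zero_le_one
          _ ≤ 2 := by norm_num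
    have hpow : (3 * K : ℝ) ^ (3 / 4 : ℝ) = 27 * (n : ℝ) ^ 3 := by
      have e1 : (3 * K : ℝ) = (3 * (n : ℝ)) ^ (4 : ℝ) := by
        rw [hK]
        push_cast
        rw [show (4 : ℝ) = ((4 : ℕ) : ℝ) by norm_num, Real.rpow_natCast]
        ring
      rw [e1, ← Real.rpow_mul (by positivity)]
      have : (4 : ℝ) * (3 / 4) = ((3 : ℕ) : ℝ) := by norm_num
      rw [this, Real.rpow_natCast]
      ring
    rw [hpow] at hfn
    have hΦf : Φ f = ((∑ j ∈ Finset.range K, ‖Φ (U (M j))‖ : ℝ) : 𝕜) := by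
      rw [hf, map_sum]
      push_cast
      apply Finset.sum_congr rfl
      intro j _
      rw [map_smul, smul_eq_mul, hθ2]
    have h6 : (K : ℝ) * δ ≤ ‖Φ f‖ := by
      rw [hΦf, RCLike.norm_ofReal, abs_of_nonneg (Finset.sum_nonneg fun _ _ => norm_nonneg _)]
      calc (K : ℝ) * δ = ∑ j ∈ Finset.range K, δ := by simp
        _ ≤ _ := Finset.sum_le_sum fun j _ => hUΦ _
    have h7 : ‖Φ f‖ ≤ ‖Φ‖ * (2 * (27 * (n : ℝ) ^ 3)) :=
      (Φ.le_opNorm f).trans (mul_le_mul_of_nonneg_left hfn (norm_nonneg _))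
    have hKr : (K : ℝ) = 27 * (n : ℝ) ^ 4 := by rw [hK]; push_cast; ring
    rw [hKr] at h6
    have hn3 : (0 : ℝ) < 27 * (n : ℝ) ^ 3 := by positivity
    have : (27 * (n : ℝ) ^ 3) * ((n : ℝ) * δ) ≤ (27 * (n : ℝ) ^ 3) * (2 * ‖Φ‖) := by
      calc (27 * (n : ℝ) ^ 3) * ((n : ℝ) * δ) = 27 * (n : ℝ) ^ 4 * δ := by ring
        _ ≤ ‖Φ‖ * (2 * (27 * (n : ℝ) ^ 3)) := h6.trans h7
        _ = _ := by ring
    exact le_of_mul_le_mul_left this hn3
  obtain ⟨n, hn⟩ := exists_nat_gt (2 * ‖Φ‖ / δ)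
  rw [div_lt_iff₀ hδ] at hn
  have h := main (n + 1) (Nat.succ_pos n)
  push_cast at h
  nlinarith

end E

end Pool.Agent.H33
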