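import Pool.Agent.H33.ThmS

/-!
The structure theorem: bounded operators from the tree space to a Hilbert space are, up to a small
error and far out in the tree, finite combinations of evaluations at branches.
-/

namespace Pool.Agent.H33

open Set Filter Topology

lemma isOpen_agr (m : ℕ) (γ : ℕ → Bool) : IsOpen {γ' | agr m γ γ'} := by
  have h : {γ' | agr m γ γ'} = Set.pi (Finset.range m : Set ℕ) (fun i => {γ i}) := by
    ext γ'
    simp only [agr, mem_ofPred_eq, Set.mem_pi, Finset.coe_range, mem_Iio, mem_singleton_iff]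
    constructor
    · intro h i hi; exact (h i hi).symm
    · intro h i hi; exact (h i hi).symm
  rw [h]
  exact isOpen_set_pi (Finset.finite_toSet _) (fun _ _ => isOpen_discrete _)

namespace Z

variable {𝕜 : Type*} [RCLike 𝕜] {H : Type*} [NormedAddCommGroup H] [InnerProductSpace 𝕜 H]

lemma exists_lim [CompleteSpace H] (A : Z 𝕜 →L[𝕜] H) (γ : ℕ → Bool) :
    ∃ h : H, Tendsto (fun n => A (e n γ)) atTop (𝓝 h) := by
  classical
  apply cauchySeq_tendsto_of_complete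
  rw [Metric.cauchySeq_iff']
  intro ε hε
  obtain ⟨M, hM⟩ := S3 A γ (δ := ε / 4) (by positivity)
  refine ⟨M + 1, fun n hn => ?_⟩
  have h1 := hM (e n γ - e (M + 1) γ) ?_ ?_ ?_
  · rw [dist_eq_norm, ← map_sub]
    have h2 : ‖(e n γ : Z 𝕜) - e (M + 1) γ‖ ≤ 1 + 1 :=
      (norm_sub_le _ _).trans (add_le_add (norm_e_le _ _) (norm_e_le _ _))
    calc ‖A (e n γ - e (M + 1) γ)‖ ≤ ε / 4 * ‖(e n γ : Z 𝕜) - e (M + 1) γ‖ := h1
      _ ≤ ε / 4 * (1 + 1) := by gcongr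
      _ < ε := by linarith
  · rw [map_sub, P_e_of_lt (by omega), P_e_of_lt (by omega), sub_zero]
  · intro k γ' hna
    rw [sub_apply, e_apply, e_apply, if_neg, if_neg, sub_zero]
    · rintro ⟨-, -, h⟩; exact hna (h.mono (by omega))
    · rintro ⟨-, -, h⟩; exact hna (h.mono (by omega))
  · rw [map_sub, inf_e, inf_e, if_pos ⟨by omega, agr.refl _ _⟩, if_pos ⟨by omega, agr.refl _ _⟩,
      sub_self]

lemma S5 (A : Z 𝕜 →L[𝕜] H) {η : ℝ} (hη : 0 < η) : ∃ (F : Finset (ℕ → Bool)) (m₀ : ℕ),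
    ∀ m, m₀ ≤ m → ∀ (γ₀ : ℕ → Bool) (f : Z 𝕜), P m f = 0 →
      (∀ n γ', ¬ agr m γ₀ γ' → f n γ' = 0) → (∀ γ ∈ F, inf γ f = 0) → ‖A f‖ ≤ η * ‖f‖ := by
  choose M hM using fun γ => S3 A γ hη
  obtain ⟨F, hF⟩ := isCompact_univ.elim_nhds_subcover (fun γ => {γ' | agr (M γ) γ γ'})
    (fun γ _ => (isOpen_agr _ _).mem_nhds (agr.refl _ _))
  refine ⟨F, F.sup M, fun m hm γ₀ f hf hsupp hinf => ?_⟩
  obtain ⟨γ, hγF, hγ⟩ : ∃ γ ∈ F, agr (M γ) γ γ₀ := by
    have := hF.2 (mem_univ γ₀)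
    simp only [mem_iUnion] at this
    obtain ⟨γ, h1, h2⟩ := this
    exact ⟨γ, h1, h2⟩
  have hle : M γ ≤ m := (Finset.le_sup (f := M) hγF).trans hm
  apply hM γ f
  · rw [← P_P_of_le hle, hf, map_zero]
  · intro n γ' hna
    apply hsupp
    intro ha
    exact hna (hγ.trans (ha.mono hle))
  · exact hinf γ hγF

lemma inf_chi (m : ℕ) (S : Set (Fin m → Bool)) (f : Z 𝕜) (hf : P m f = 0) (γ : ℕ → Bool)
    (hγ : inf γ f = 0) : inf γ (chi m S f) = 0 := by
  classical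
  have h1 : inf γ (chi m S f) = (chi m S f) (max (st (chi m S f)) (st f)) γ :=
    inf_eq_of_le (le_max_left _ _) γ
  have h2 : inf γ f = f (max (st (chi m S f)) (st f)) γ := inf_eq_of_le (le_max_right _ _) γ
  rw [h1, chi_apply, ← h2, hγ, apply_eq_zero hf (min_le_right _ _)]
  simp

open Classical in
/-- The number of nodes above which `g` takes a large value. -/
lemma card_bad {m : ℕ} {g : Z 𝕜} (hg : P m g = 0) {ε : ℝ} (hε : 0 < ε) :
    ((Finset.univ.filter (fun s : Fin m → Bool =>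
      ∃ γ, res m γ = s ∧ ∃ k, ε < ‖g k γ‖)).card : ℝ) * ε ^ 2 ≤ ‖g‖ ^ 2 := by
  set R := Finset.univ.filter (fun s : Fin m → Bool => ∃ γ, res m γ = s ∧ ∃ k, ε < ‖g k γ‖)
    with hR
  have hc : ∀ s : Fin m → Bool, ∃ γ : ℕ → Bool, ∃ k : ℕ, s ∈ R → res m γ = s ∧ ε < ‖g k γ‖ := by
    intro s
    by_cases hs : s ∈ R
    · obtain ⟨γ, h1, k, h2⟩ := (Finset.mem_filter.1 hs).2
      exact ⟨γ, k, fun _ => ⟨h1, h2⟩⟩
    · exact ⟨fun _ => false, 0, fun h => absurd h hs⟩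
  choose c k hck using hc
  have hinj : ∀ s ∈ R, ∀ s' ∈ R, c s = c s' → s = s' := by
    intro s hs s' hs' h
    rw [← (hck s hs).1, ← (hck s' hs').1, h]
  have hsep : sep m (R.image c) := by
    intro γ hγ γ' hγ' ha
    obtain ⟨s, hs, rfl⟩ := Finset.mem_image.1 hγ
    obtain ⟨s', hs', rfl⟩ := Finset.mem_image.1 hγ'
    rw [agr_iff_res, (hck s hs).1, (hck s' hs').1] at ha
    rw [ha]
  have hmk : ∀ s ∈ R, m ≤ k s := by
    intro s hs
    by_contra hcon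
    push Not at hcon
    have := (hck s hs).2
    rw [apply_eq_zero hg hcon.le, norm_zero] at this
    linarith
  have hl := l2_le_norm hsep (fun γ => k (res m γ)) (by
    intro γ hγ
    obtain ⟨s, hs, rfl⟩ := Finset.mem_image.1 hγ
    rw [(hck s hs).1]
    exact hmk s hs) g
  have hl2 := pow_le_pow_left₀ (l2_nonneg _ _) hl 2
  rw [l2_sq] at hl2
  refine le_trans ?_ hl2
  rw [Finset.sum_image (fun s hs s' hs' h => hinj s hs s' hs' h)]
  calc (R.card : ℝ) * ε ^ 2 = ∑ s ∈ R, ε ^ 2 := by rw [Finset.sum_const, nsmul_eq_mul]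
    _ ≤ _ := by
      apply Finset.sum_le_sum
      intro s hs
      rw [(hck s hs).1, apply_eq_zero hg le_rfl, sub_zero]
      have := (hck s hs).2
      gcongr

/-- The structure theorem, normalized form. -/
lemma thmS_aux (A : Z 𝕜 →L[𝕜] H) (h : (ℕ → Bool) → H)
    (hh : ∀ γ, Tendsto (fun n => A (e n γ)) atTop (𝓝 (h γ))) {δ : ℝ} (hδ : 0 < δ) :
    ∃ (F : Finset (ℕ → Bool)) (m : ℕ), sep m F ∧ ∀ f : Z 𝕜, P m f = 0 → ‖f‖ ≤ 1 →
      ‖A f - ∑ γ ∈ F, inf γ f • h γ‖ ≤ δ := by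
  classical
  obtain ⟨M₁, ε, hε, h4⟩ := S4 A (δ := δ / 8) (by positivity)
  obtain ⟨F, m₀, h5⟩ := S5 A (η := δ * ε ^ 2 / 32) (by positivity)
  obtain ⟨m₁, hsep⟩ := exists_sep F
  refine ⟨F, max M₁ (max m₀ m₁), hsep.mono ((le_max_right _ _).trans (le_max_right _ _)),
    fun f hf hfn => ?_⟩
  set m := max M₁ (max m₀ m₁) with hm
  have hmM : M₁ ≤ m := le_max_left _ _
  have hm0 : m₀ ≤ m := (le_max_left _ _).trans (le_max_right _ _)
  have hsepm : sep m F := hsep.mono ((le_max_right _ _).trans (le_max_right _ _))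
  -- choose a far level
  have hlim : Tendsto (fun n => ∑ γ ∈ F, ‖A (e n γ) - h γ‖) atTop (𝓝 0) := by
    have : Tendsto (fun n => ∑ γ ∈ F, ‖A (e n γ) - h γ‖) atTop (𝓝 (∑ γ ∈ F, ‖h γ - h γ‖)) :=
      tendsto_finsetSum _ fun γ _ => ((hh γ).sub_const _).norm
    simpa using this
  obtain ⟨n, hn1, hn2⟩ : ∃ n, m + 1 ≤ n ∧ ∑ γ ∈ F, ‖A (e n γ) - h γ‖ < δ / 2 := by
    have e1 := hlim.eventually (gt_mem_nhds (show (0 : ℝ) < δ / 2 by positivity))
    obtain ⟨n, hn⟩ := (e1.and (eventually_ge_atTop (m + 1))).exists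
    exact ⟨n, hn.2, hn.1⟩
  set g := f - ∑ γ ∈ F, inf γ f • (e n γ : Z 𝕜) with hg
  have hgP : P m g = 0 := by
    rw [hg, map_sub, map_sum, hf, zero_sub, neg_eq_zero]
    apply Finset.sum_eq_zero
    intro γ _
    rw [map_smul, P_e_of_lt (by omega), smul_zero]
  have hgn : ‖g‖ ≤ 2 := by
    calc ‖g‖ ≤ ‖f‖ + ‖∑ γ ∈ F, inf γ f • (e n γ : Z 𝕜)‖ := norm_sub_le _ _
      _ ≤ 1 + 1 := by
        apply add_le_add hfn
        refine (norm_sum_e_le (hsepm.mono (by omega)) (fun γ => inf γ f)).trans ?_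
        exact (l2_inf_le hsepm hf).trans hfn
      _ = 2 := by norm_num
  have hginf : ∀ γ ∈ F, inf γ g = 0 := by
    intro γ hγ
    rw [hg, map_sub, map_sum, Finset.sum_eq_single γ]
    · rw [map_smul, inf_e, if_pos ⟨by omega, agr.refl _ _⟩, smul_eq_mul, mul_one, sub_self]
    · intro γ' hγ' hne
      rw [map_smul, inf_e, if_neg, smul_zero]
      rintro ⟨-, ha⟩
      exact hne (hsepm.mono (show m ≤ n by omega) γ' hγ' γ hγ ha)
    · exact fun h => absurd hγ h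
  set R := Finset.univ.filter (fun s : Fin m → Bool => ∃ γ, res m γ = s ∧ ∃ k, ε < ‖g k γ‖)
    with hR
  have hcard : (R.card : ℝ) * ε ^ 2 ≤ 4 := by
    refine (card_bad hgP hε).trans ?_
    nlinarith [norm_nonneg g]
  have hsplit : g = ∑ s ∈ R, chi m {s} g + chi m (R : Set (Fin m → Bool))ᶜ g := by
    rw [← chi_finset, chi_add_compl, hgP, sub_zero]
  have hu : ‖A (chi m (R : Set (Fin m → Bool))ᶜ g)‖ ≤ δ / 4 := by
    set u := chi m (R : Set (Fin m → Bool))ᶜ g with hu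
    have hun : ‖u‖ ≤ 2 := (norm_chi_le _ _ _).trans hgn
    have huP : P M₁ u = 0 := by rw [← P_P_of_le hmM, hu, P_chi, map_zero]
    have hhalf : ‖((1 / 2 : ℝ) : 𝕜)‖ = 1 / 2 := by
      rw [RCLike.norm_ofReal, abs_of_nonneg (by norm_num)]
    have huval : ∀ k γ, ‖u k γ‖ ≤ ε := by
      intro k γ
      rw [hu, chi_apply]
      split_ifs with hmem
      · rw [apply_eq_zero hgP (min_le_right _ _), sub_zero]
        by_contra hcon
        push Not at hcon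
        apply hmem
        rw [Finset.mem_coe, hR, Finset.mem_filter]
        exact ⟨Finset.mem_univ _, γ, rfl, k, hcon⟩
      · rw [norm_zero]; exact hε.le
    have h6 := h4 (((1 / 2 : ℝ) : 𝕜) • u) (by rw [map_smul, huP, smul_zero])
      (by
        intro k γ
        rw [smul_apply, norm_mul, hhalf]
        have := huval k γ
        linarith [norm_nonneg (u k γ)])
      (by rw [norm_smul, hhalf]; linarith)
    rw [map_smul, norm_smul, hhalf] at h6
    linarith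
  have hbad : ‖A (∑ s ∈ R, chi m {s} g)‖ ≤ δ / 4 := by
    rw [map_sum]
    calc ‖∑ s ∈ R, A (chi m {s} g)‖ ≤ ∑ s ∈ R, ‖A (chi m {s} g)‖ := norm_sum_le _ _
      _ ≤ ∑ s ∈ R, (δ * ε ^ 2 / 32 * 2) := by
        apply Finset.sum_le_sum
        intro s _
        refine (h5 m hm0 (Pool.Agent.H33.ext s) _ (P_chi _ _ _) ?_ ?_).trans ?_
        · intro k γ' hna
          rw [chi_apply, if_neg]
          intro hmem
          apply hna
          rw [agr_iff_res, res_ext]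
          exact (mem_singleton_iff.1 hmem).symm
        · intro γ hγ
          exact inf_chi _ _ _ hgP _ (hginf γ hγ)
        · gcongr
          exact (norm_chi_le _ _ _).trans hgn
      _ = (R.card * ε ^ 2) * (δ / 16) := by rw [Finset.sum_const, nsmul_eq_mul]; ring
      _ ≤ 4 * (δ / 16) := by gcongr
      _ = δ / 4 := by ring
  have hAg : ‖A g‖ ≤ δ / 2 := by
    rw [hsplit, map_add]
    calc _ ≤ ‖A (∑ s ∈ R, chi m {s} g)‖ + ‖A (chi m (R : Set (Fin m → Bool))ᶜ g)‖ :=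
          norm_add_le _ _
      _ ≤ δ / 4 + δ / 4 := add_le_add hbad hu
      _ = δ / 2 := by ring
  have hfinal : A f - ∑ γ ∈ F, inf γ f • h γ =
      A g + ∑ γ ∈ F, inf γ f • (A (e n γ) - h γ) := by
    rw [hg, map_sub, map_sum]
    simp only [map_smul, smul_sub, Finset.sum_sub_distrib]
    abel
  rw [hfinal]
  calc ‖A g + ∑ γ ∈ F, inf γ f • (A (e n γ) - h γ)‖
      ≤ ‖A g‖ + ‖∑ γ ∈ F, inf γ f • (A (e n γ) - h γ)‖ := norm_add_le _ _
    _ ≤ δ / 2 + δ / 2 := by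
      apply add_le_add hAg
      refine le_trans ((norm_sum_le _ _).trans ?_) hn2.le
      apply Finset.sum_le_sum
      intro γ _
      rw [norm_smul]
      have h7 : ‖inf γ f‖ ≤ 1 := (norm_inf_le f γ).trans hfn
      calc ‖inf γ f‖ * ‖A (e n γ) - h γ‖ ≤ 1 * ‖A (e n γ) - h γ‖ := by gcongr
        _ = _ := one_mul _
    _ = δ := by ring

/-- The structure theorem. -/
theorem thmS (A : Z 𝕜 →L[𝕜] H) (h : (ℕ → Bool) → H)
    (hh : ∀ γ, Tendsto (fun n => A (e n γ)) atTop (𝓝 (h γ))) {δ : ℝ} (hδ : 0 < δ) :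
    ∃ (F : Finset (ℕ → Bool)) (m : ℕ), sep m F ∧ ∀ f : Z 𝕜, P m f = 0 →
      ‖A f - ∑ γ ∈ F, inf γ f • h γ‖ ≤ δ * ‖f‖ := by
  obtain ⟨F, m, hsep, hF⟩ := thmS_aux A h hh hδ
  refine ⟨F, m, hsep, fun f hf => ?_⟩
  rcases (norm_nonneg f).eq_or_lt with h0 | h0
  · have : f = 0 := norm_eq_zero.1 h0.symm
    rw [this]; simp
  · have hc : ‖((‖f‖⁻¹ : ℝ) : 𝕜)‖ = ‖f‖⁻¹ := by
      rw [RCLike.norm_ofReal, abs_of_nonneg (inv_nonneg.2 h0.le)]
    have h1 := hF (((‖f‖⁻¹ : ℝ) : 𝕜) • f) (by rw [map_smul, hf, smul_zero])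
      (by rw [norm_smul, hc, inv_mul_cancel₀ h0.ne'])
    have h2 : A (((‖f‖⁻¹ : ℝ) : 𝕜) • f) - ∑ γ ∈ F, inf γ (((‖f‖⁻¹ : ℝ) : 𝕜) • f) • h γ =
        ((‖f‖⁻¹ : ℝ) : 𝕜) • (A f - ∑ γ ∈ F, inf γ f • h γ) := by
      simp only [map_smul, smul_sub, Finset.smul_sum, smul_assoc]
    rw [h2, norm_smul, hc, inv_mul_eq_div, div_le_iff₀ h0] at h1
    exact h1

end Z

end Pool.Agent.H33
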