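import Pool.Agent.H33.Lift
import Pool.Agent.H33.ThmS2

/-!
First part of the surjectivity proof: the weak star continuous part of an operator.
-/

namespace Pool.Agent.H33

open Set Filter Topology

variable {𝕜 : Type*} [RCLike 𝕜]

namespace Z

lemma dl_zero (γ : ℕ → Bool) : (dl 0 γ : Z 𝕜 →L[𝕜] 𝕜) = 0 := by
  ext f
  rw [dl_apply, zero_left]
  rfl

lemma dl_congr {k : ℕ} {γ γ' : ℕ → Bool} (h : agr k γ γ') :
    (dl k γ : Z 𝕜 →L[𝕜] 𝕜) = dl k γ' := by
  ext f
  rw [dl_apply, dl_apply, f.adapted h]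

/-- A functional composed with stopping is a combination of evaluations. -/
lemma comp_PL (y : YY 𝕜) (m : ℕ) : y.comp (PL m) = ∑ k ∈ Finset.range m,
    ∑ s : Fin (k + 1) → Bool, y (e (k + 1) (Pool.Agent.H33.ext s)) •
      (dl (k + 1) (Pool.Agent.H33.ext s) - dl k (Pool.Agent.H33.ext s)) := by
  ext f
  rw [ContinuousLinearMap.comp_apply, PL_apply, P_expand]
  simp only [map_sum, map_smul, _root_.sum_apply, _root_.smul_apply, _root_.sub_apply, dl_apply,
    smul_eq_mul]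
  apply Finset.sum_congr rfl; intro k _
  apply Finset.sum_congr rfl; intro s _
  ring

end Z

section part1

variable (R : YY 𝕜 →L[𝕜] YY 𝕜)

/-- The stopped transposed operator. -/
noncomputable def rr (m : ℕ) : Z 𝕜 →ₗ[𝕜] Z 𝕜 where
  toFun z := Z.mk (fun n γ => R (Z.dl (min n m) γ) z) (by
    refine ⟨fun γ => ?_, fun n γ γ' h => ?_, m, fun n γ => ?_⟩
    · beta_reduce
      rw [Nat.zero_min, Z.dl_zero, map_zero]
      rfl
    · beta_reduce
      rw [Z.dl_congr (h.mono (min_le_left n m))]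
    · beta_reduce
      rw [min_assoc, min_self])
  map_add' z w := by
    ext n γ
    change R (Z.dl (min n m) γ) (z + w) = R (Z.dl (min n m) γ) z + R (Z.dl (min n m) γ) w
    rw [map_add]
  map_smul' c z := by
    ext n γ
    change R (Z.dl (min n m) γ) (c • z) = c * R (Z.dl (min n m) γ) z
    rw [map_smul, smul_eq_mul]

lemma rr_apply (m : ℕ) (z : Z 𝕜) (n : ℕ) (γ : ℕ → Bool) :
    (rr R m z) n γ = R (Z.dl (min n m) γ) z := rfl

lemma P_rr {m m' : ℕ} (h : m ≤ m') (z : Z 𝕜) : Z.P m (rr R m' z) = rr R m z := by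
  ext n γ
  rw [Z.P_apply, rr_apply, rr_apply, min_assoc, min_eq_left h]

lemma y_rr (m : ℕ) (z : Z 𝕜) (y : YY 𝕜) : y (rr R m z) = R (y.comp (Z.PL m)) z := by
  rw [← P_rr R (le_refl m) z, Z.P_expand, Z.comp_PL]
  simp only [map_sum, map_smul, _root_.sum_apply, _root_.smul_apply, map_sub, _root_.sub_apply,
    smul_eq_mul]
  apply Finset.sum_congr rfl; intro k hk
  apply Finset.sum_congr rfl; intro s _
  rw [Finset.mem_range] at hk
  rw [rr_apply, rr_apply, min_eq_left (show k + 1 ≤ m from hk), min_eq_left hk.le]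
  ring

lemma norm_PL_le (m : ℕ) : ‖(Z.PL m : Z 𝕜 →L[𝕜] Z 𝕜)‖ ≤ 1 :=
  ContinuousLinearMap.opNorm_le_bound _ zero_le_one
    (fun f => by rw [one_mul]; exact Z.norm_P_le m f)

lemma norm_comp_PL_le (y : YY 𝕜) (m : ℕ) : ‖y.comp (Z.PL m)‖ ≤ ‖y‖ :=
  (ContinuousLinearMap.opNorm_comp_le _ _).trans
    (by
      calc ‖y‖ * ‖(Z.PL m : Z 𝕜 →L[𝕜] Z 𝕜)‖ ≤ ‖y‖ * 1 := by
            gcongr; exact norm_PL_le m
        _ = ‖y‖ := mul_one _)

lemma norm_rr_le (m : ℕ) (z : Z 𝕜) : ‖rr R m z‖ ≤ ‖R‖ * ‖z‖ := by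
  obtain ⟨y, hy1, hy2⟩ := exists_dual_vector'' 𝕜 (rr R m z)
  rw [y_rr] at hy2
  have h1 : ‖R (y.comp (Z.PL m)) z‖ ≤ ‖R‖ * ‖z‖ := by
    calc ‖R (y.comp (Z.PL m)) z‖ ≤ ‖R (y.comp (Z.PL m))‖ * ‖z‖ := ContinuousLinearMap.le_opNorm _ _
      _ ≤ (‖R‖ * ‖y.comp (Z.PL m)‖) * ‖z‖ := by
        gcongr
        exact R.le_opNorm _
      _ ≤ (‖R‖ * 1) * ‖z‖ := by
        gcongr
        exact (norm_comp_PL_le y m).trans hy1
      _ = _ := by rw [mul_one]
  rw [hy2, RCLike.norm_ofReal, abs_of_nonneg (norm_nonneg _)] at h1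
  exact h1

lemma tendsto_rr (z : Z 𝕜) :
    Tendsto (fun p : ℕ × ℕ => ‖rr R p.1 z - rr R p.2 z‖) atTop (𝓝 0) := by
  rw [Metric.tendsto_atTop]
  intro ε hε
  obtain ⟨N, hN⟩ := (Z.fam 𝕜).coherent_cauchy (θ := 1 / 4) le_rfl (x := fun m => rr R m z)
    (fun m n h => P_rr R h z) (fun n => norm_rr_le R n z) hε
  refine ⟨(N, N), fun p hp => ?_⟩
  have h1 : N ≤ p.1 := hp.1
  have h2 : N ≤ p.2 := hp.2
  rw [Real.dist_eq, sub_zero, abs_of_nonneg (norm_nonneg _)]
  rcases le_total p.1 p.2 with h | h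
  · rw [norm_sub_rev]
    exact hN _ _ h1 h
  · exact hN _ _ h2 h

lemma rr_uniform (n : ℕ) {ε : ℝ} (hε : 0 < ε) : ∃ m₀, ∀ m, m₀ ≤ m → ∀ x : Z 𝕜, Z.P n x = x →
    ‖rr R m x - rr R m₀ x‖ ≤ ε * ‖x‖ := by
  have h1 : Tendsto (fun p : ℕ × ℕ => ∑ k ∈ Finset.range n, ∑ s : Fin (k + 1) → Bool,
      ‖rr R p.1 (Z.e (k + 1) (ext s)) - rr R p.2 (Z.e (k + 1) (ext s))‖) atTop
      (𝓝 (∑ k ∈ Finset.range n, ∑ s : Fin (k + 1) → Bool, (0 : ℝ))) :=
    tendsto_finsetSum _ fun k _ => tendsto_finsetSum _ fun s _ => tendsto_rr R _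
  simp only [Finset.sum_const_zero] at h1
  have h2 := h1.eventually (gt_mem_nhds (show (0 : ℝ) < ε / 2 by positivity))
  obtain ⟨⟨a, b⟩, hab⟩ := eventually_atTop.1 h2
  refine ⟨max a b, fun m hm x hx => ?_⟩
  have h3 := hab (m, max a b) ⟨(le_max_left _ _).trans hm, le_max_right _ _⟩
  simp only at h3
  have h4 : rr R m x - rr R (max a b) x = ∑ k ∈ Finset.range n, ∑ s : Fin (k + 1) → Bool,
      (x (k + 1) (ext s) - x k (ext s)) •
        (rr R m (Z.e (k + 1) (ext s)) - rr R (max a b) (Z.e (k + 1) (ext s))) := by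
    conv_lhs => rw [← hx, Z.P_expand]
    simp only [map_sum, map_smul, smul_sub, Finset.sum_sub_distrib]
  rw [h4]
  calc ‖∑ k ∈ Finset.range n, ∑ s : Fin (k + 1) → Bool, (x (k + 1) (ext s) - x k (ext s)) •
        (rr R m (Z.e (k + 1) (ext s)) - rr R (max a b) (Z.e (k + 1) (ext s)))‖
      ≤ ∑ k ∈ Finset.range n, ∑ s : Fin (k + 1) → Bool, (2 * ‖x‖) *
        ‖rr R m (Z.e (k + 1) (ext s)) - rr R (max a b) (Z.e (k + 1) (ext s))‖ := by
        refine (norm_sum_le _ _).trans (Finset.sum_le_sum fun k _ => ?_)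
        refine (norm_sum_le _ _).trans (Finset.sum_le_sum fun s _ => ?_)
        rw [norm_smul]
        gcongr
        calc ‖x (k + 1) (ext s) - x k (ext s)‖ ≤ ‖x (k + 1) (ext s)‖ + ‖x k (ext s)‖ :=
              norm_sub_le _ _
          _ ≤ ‖x‖ + ‖x‖ := add_le_add (Z.norm_apply_le _ _ _) (Z.norm_apply_le _ _ _)
          _ = 2 * ‖x‖ := by ring
    _ = (2 * ‖x‖) * ∑ k ∈ Finset.range n, ∑ s : Fin (k + 1) → Bool,
        ‖rr R m (Z.e (k + 1) (ext s)) - rr R (max a b) (Z.e (k + 1) (ext s))‖ := by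
        simp only [Finset.mul_sum]
    _ ≤ (2 * ‖x‖) * (ε / 2) := by gcongr
    _ = ε * ‖x‖ := by ring

lemma exists_levels : ∃ m : ℕ → ℕ, Monotone m ∧ (∀ n, n ≤ m n) ∧ ∀ n m', m n ≤ m' →
    ∀ x : Z 𝕜, Z.P n x = x → ‖rr R m' x - rr R (m n) x‖ ≤ 2 * (1 / 2) ^ n * ‖x‖ := by
  choose u hu using fun n : ℕ => rr_uniform R n (ε := (1 / 2) ^ n) (by positivity)
  refine ⟨fun n => (Finset.range (n + 1)).sup u + n, ?_, fun n => Nat.le_add_left _ _, ?_⟩
  · intro a b hab
    apply Nat.add_le_add _ hab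
    exact Finset.sup_mono (Finset.range_subset_range.2 (Nat.succ_le_succ hab))
  · intro n m' hm' x hx
    have h1 : u n ≤ (Finset.range (n + 1)).sup u + n :=
      (Finset.le_sup (f := u) (Finset.mem_range.2 (Nat.lt_succ_self n))).trans (Nat.le_add_right _ _)
    have h2 := hu n m' (h1.trans hm') x hx
    have h3 := hu n _ h1 x hx
    calc ‖rr R m' x - rr R ((Finset.range (n + 1)).sup u + n) x‖
        = ‖(rr R m' x - rr R (u n) x) - (rr R ((Finset.range (n + 1)).sup u + n) x -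
            rr R (u n) x)‖ := by congr 1; abel
      _ ≤ (1 / 2) ^ n * ‖x‖ + (1 / 2) ^ n * ‖x‖ := (norm_sub_le _ _).trans (add_le_add h2 h3)
      _ = _ := by ring

lemma exists_T1 : ∃ T : XX 𝕜 →L[𝕜] XX 𝕜, ∀ k γ, psiL 𝕜 T (Z.dl k γ) = R (Z.dl k γ) := by
  obtain ⟨m, hm, hmn, hmu⟩ := exists_levels R
  let D : LiftData 𝕜 :=
    { W := fun n => rr R (m n)
      m := m
      hW := fun n z => P_rr R le_rfl z
      B := ‖R‖ + 2
      hB := by positivity
      bound := by
        intro X ω h1 h2 C hC h3 N N' hN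
        have hx : ∀ n, Z.P (n + 1) (X (n + 1) - X n) = X (n + 1) - X n := by
          intro n
          rw [map_sub, X.P_apply_self, X.P_apply_of_le (Nat.le_succ n)]
        have hL : 0 ≤ ω N' - ω N := sub_nonneg.2 (h1 hN)
        set y := C * (ω N' - ω N) ^ (3 / 4 : ℝ) with hy
        have hy0 : 0 ≤ y := by positivity
        have e1 : ∑ n ∈ Finset.Ico N N', rr R (m (n + 1)) (X (n + 1) - X n) =
            rr R (m N') (X N' - X N) - ∑ n ∈ Finset.Ico N N',
              (rr R (m N') (X (n + 1) - X n) - rr R (m (n + 1)) (X (n + 1) - X n)) := by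
          have tel : ∑ n ∈ Finset.Ico N N', (X (n + 1) - X n) = X N' - X N := by
            rw [Finset.sum_Ico_eq_sub _ hN, Finset.sum_range_sub, Finset.sum_range_sub]
            abel
          rw [Finset.sum_sub_distrib, ← map_sum, tel]
          abel
        rw [e1]
        have e2 : ‖rr R (m N') (X N' - X N)‖ ≤ ‖R‖ * y :=
          (norm_rr_le R _ _).trans (mul_le_mul_of_nonneg_left (h3 N N' hN) (norm_nonneg R))
        have e3 : ‖∑ n ∈ Finset.Ico N N',
              (rr R (m N') (X (n + 1) - X n) - rr R (m (n + 1)) (X (n + 1) - X n))‖ ≤ 2 * y := by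
          calc _ ≤ ∑ n ∈ Finset.Ico N N',
                ‖rr R (m N') (X (n + 1) - X n) - rr R (m (n + 1)) (X (n + 1) - X n)‖ :=
                norm_sum_le _ _
            _ ≤ ∑ n ∈ Finset.Ico N N', (1 / 2 : ℝ) ^ n * y := by
                apply Finset.sum_le_sum
                intro n hn
                rw [Finset.mem_Ico] at hn
                refine (hmu (n + 1) (m N') (hm hn.2) _ (hx n)).trans ?_
                have e4 : ‖X (n + 1) - X n‖ ≤ y := by
                  refine (h3 n (n + 1) (Nat.le_succ n)).trans ?_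
                  rw [hy]
                  have e5 : ω (n + 1) - ω n ≤ ω N' - ω N := by
                    have := h1 hn.1
                    have := h1 (show n + 1 ≤ N' from hn.2)
                    linarith
                  have e6 : 0 ≤ ω (n + 1) - ω n := sub_nonneg.2 (h1 (Nat.le_succ n))
                  exact mul_le_mul_of_nonneg_left (Real.rpow_le_rpow e6 e5 (by norm_num)) hC
                calc 2 * (1 / 2 : ℝ) ^ (n + 1) * ‖X (n + 1) - X n‖
                    = (1 / 2 : ℝ) ^ n * ‖X (n + 1) - X n‖ := by rw [pow_succ]; ring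
                  _ ≤ (1 / 2 : ℝ) ^ n * y := by gcongr
            _ = (∑ n ∈ Finset.Ico N N', (1 / 2 : ℝ) ^ n) * y := by rw [Finset.sum_mul]
            _ ≤ 2 * y := by
                gcongr
                calc ∑ n ∈ Finset.Ico N N', (1 / 2 : ℝ) ^ n
                    ≤ ∑ n ∈ Finset.range N', (1 / 2 : ℝ) ^ n := by
                      apply Finset.sum_le_sum_of_subset_of_nonneg
                      · intro j hj
                        exact Finset.mem_range.2 (Finset.mem_Ico.1 hj).2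
                      · intro j _ _; positivity
                  _ ≤ 2 := sum_geometric_two_le N'
        calc _ ≤ ‖rr R (m N') (X N' - X N)‖ + ‖∑ n ∈ Finset.Ico N N',
              (rr R (m N') (X (n + 1) - X n) - rr R (m (n + 1)) (X (n + 1) - X n))‖ :=
              norm_sub_le _ _
          _ ≤ ‖R‖ * y + 2 * y := add_le_add e2 e3
          _ = (‖R‖ + 2) * y := by ring }
  refine ⟨D.T, fun k γ => ?_⟩
  ext z
  refine tendsto_nhds_unique (D.tendsto_psi (Z.dl k γ) z) ?_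
  apply tendsto_const_nhds.congr'
  filter_upwards [eventually_ge_atTop k] with n hn
  change R (Z.dl k γ) z = (rr R (m n) z) k γ
  rw [rr_apply, min_eq_left (hn.trans (hmn n))]

end part1

end Pool.Agent.H33
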