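import Pool.Agent.H33.Surj1
import Pool.Agent.H33.Maximal

/-!
Second part of the surjectivity proof: lifting finite combinations of limits along branches.
-/

namespace Pool.Agent.H33

open Set Filter Topology

variable {𝕜 : Type*} [RCLike 𝕜]

open Classical in
lemma tele (a : ℕ → 𝕜) (p : ℕ → Prop) (hp : ∀ j, p (j + 1) → p j) (lo : ℕ) :
    ∀ hi, lo ≤ hi → ∃ ρ, lo ≤ ρ ∧ ρ ≤ hi ∧ (ρ = lo ∨ p ρ) ∧
      ∑ j ∈ Finset.Ico lo hi, (if p (j + 1) then a (j + 1) - a j else 0) = a ρ - a lo := by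
  intro hi hhi
  induction hi, hhi using Nat.le_induction with
  | base => exact ⟨lo, le_rfl, le_rfl, Or.inl rfl, by simp⟩
  | succ hi hhi ih =>
    obtain ⟨ρ, h1, h2, h3, h4⟩ := ih
    rw [Finset.sum_Ico_succ_top hhi]
    by_cases h : p (hi + 1)
    · refine ⟨hi + 1, by omega, le_rfl, Or.inr h, ?_⟩
      have hall : ∀ j, j ≤ hi + 1 → p j := by
        intro j hj
        obtain ⟨d, hd⟩ := Nat.exists_eq_add_of_le hj
        clear hj
        induction d generalizing j with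
        | zero =>
          have hj : j = hi + 1 := by omega
          rw [hj]; exact h
        | succ d ihd =>
          apply hp
          exact ihd (j + 1) (by omega)
      have e1 : ∑ j ∈ Finset.Ico lo hi, (if p (j + 1) then a (j + 1) - a j else 0) =
          ∑ j ∈ Finset.Ico lo hi, (a (j + 1) - a j) := by
        apply Finset.sum_congr rfl
        intro j hj
        rw [Finset.mem_Ico] at hj
        rw [if_pos (hall (j + 1) (by omega))]
      rw [e1, if_pos h, Finset.sum_Ico_eq_sub _ hhi, Finset.sum_range_sub, Finset.sum_range_sub]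
      ring
    · refine ⟨ρ, h1, by omega, h3, ?_⟩
      rw [h4, if_neg h, add_zero]

section piece

variable (F : Finset (ℕ → Bool)) (N₀ : ℕ) (w : (ℕ → Bool) → YY 𝕜)

open Classical in
/-- The approximating operators for a finite set of branches. -/
noncomputable def WF (n : ℕ) : Z 𝕜 →ₗ[𝕜] Z 𝕜 where
  toFun z := if N₀ ≤ n then ∑ γ ∈ F, w γ z • Z.e n γ else 0
  map_add' z z' := by
    split_ifs
    · rw [← Finset.sum_add_distrib]
      apply Finset.sum_congr rfl
      intro γ _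
      rw [map_add, add_smul]
    · rw [add_zero]
  map_smul' c z := by
    rw [RingHom.id_apply]
    split_ifs
    · rw [Finset.smul_sum]
      apply Finset.sum_congr rfl
      intro γ _
      rw [map_smul, smul_eq_mul, mul_smul]
    · rw [smul_zero]

lemma WF_of_le {n : ℕ} (h : N₀ ≤ n) (z : Z 𝕜) : WF F N₀ w n z = ∑ γ ∈ F, w γ z • Z.e n γ :=
  if_pos h

lemma WF_of_lt {n : ℕ} (h : n < N₀) (z : Z 𝕜) : WF F N₀ w n z = 0 :=
  if_neg (by omega)

lemma P_WF (n : ℕ) (z : Z 𝕜) : Z.P n (WF F N₀ w n z) = WF F N₀ w n z := by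
  rcases le_or_gt N₀ n with h | h
  · rw [WF_of_le _ _ _ h, map_sum]
    apply Finset.sum_congr rfl
    intro γ _
    rw [map_smul, Z.P_e_of_le le_rfl]
  · rw [WF_of_lt _ _ _ h, map_zero]

lemma rpow_three_quarters {x : ℝ} (hx : 0 ≤ x) :
    x ^ (3 / 4 : ℝ) = x ^ (1 / 2 : ℝ) * x ^ (1 / 4 : ℝ) := by
  rw [← Real.rpow_add' hx (by norm_num)]
  norm_num

lemma WF_bound {d : ℝ} (hd : 0 ≤ d) (hF : sep N₀ F)
    (hw : ∀ z, l2 F (fun γ => w γ z) ≤ d * ‖z‖)
    (X : E 𝕜) (ω : ℕ → ℝ) (h1 : Monotone ω) (C : ℝ) (hC : 0 ≤ C)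
    (h3 : ∀ m n, m ≤ n → ‖X n - X m‖ ≤ C * (ω n - ω m) ^ (3 / 4 : ℝ)) (N N' : ℕ) (hN : N ≤ N') :
    ‖∑ n ∈ Finset.Ico N N', WF F N₀ w (n + 1) (X (n + 1) - X n)‖ ≤
      (10 * d) * (C * (ω N' - ω N) ^ (3 / 4 : ℝ)) := by
  classical
  -- the starting time
  set N₁ := min N' (max N (N₀ - 1)) with hN₁
  have hNN₁ : N ≤ N₁ := le_min hN (le_max_left _ _)
  have hN₁N' : N₁ ≤ N' := min_le_left _ _
  have hstart : ∀ j, N₁ ≤ j → j < N' → N₀ ≤ j + 1 := by
    intro j h4 h5
    omega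
  have hbefore : ∀ j, N ≤ j → j < N₁ → j + 1 < N₀ := by
    intro j h4 h5
    omega
  set g := ∑ n ∈ Finset.Ico N N', WF F N₀ w (n + 1) (X (n + 1) - X n) with hg
  have hg1 : g = ∑ j ∈ Finset.Ico N₁ N', ∑ γ ∈ F, (w γ (X (j + 1)) - w γ (X j)) •
      (Z.e (j + 1) γ : Z 𝕜) := by
    rw [hg, ← Finset.sum_Ico_consecutive _ hNN₁ hN₁N']
    have e1 : ∑ j ∈ Finset.Ico N N₁, WF F N₀ w (j + 1) (X (j + 1) - X j) = 0 := by
      apply Finset.sum_eq_zero
      intro j hj
      rw [Finset.mem_Ico] at hj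
      exact WF_of_lt _ _ _ (hbefore j hj.1 hj.2) _
    rw [e1, zero_add]
    apply Finset.sum_congr rfl
    intro j hj
    rw [Finset.mem_Ico] at hj
    rw [WF_of_le _ _ _ (hstart j hj.1 hj.2)]
    apply Finset.sum_congr rfl
    intro γ _
    rw [map_sub]
  have hval : ∀ x γ', g x γ' = ∑ γ ∈ F, ∑ j ∈ Finset.Ico N₁ N',
      if j + 1 ≤ x ∧ agr (j + 1) γ γ' then w γ (X (j + 1)) - w γ (X j) else 0 := by
    intro x γ'
    rw [hg1, Z.sum_apply, Finset.sum_comm]
    apply Finset.sum_congr rfl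
    intro j _
    rw [Z.sum_apply]
    apply Finset.sum_congr rfl
    intro γ _
    rw [Z.smul_apply, Z.e_apply]
    by_cases h4 : j + 1 ≤ x ∧ agr (j + 1) γ γ'
    · rw [if_pos ⟨Nat.succ_ne_zero j, h4.1, h4.2⟩, if_pos h4, mul_one]
    · rw [if_neg (fun h => h4 ⟨h.2.1, h.2.2⟩), if_neg h4, mul_zero]
  -- the path in the finite dimensional space
  let A : ℕ → (ℕ → Bool) → 𝕜 := fun n γ => w γ (X n)
  have hA : ∀ m n, m ≤ n → l2 F (fun γ => A n γ - A m γ) ≤
      (d * C) * (ω n - ω m) ^ (3 / 4 : ℝ) := by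
    intro m n hmn
    have e1 : l2 F (fun γ => A n γ - A m γ) = l2 F (fun γ => w γ (X n - X m)) :=
      l2_congr fun γ _ => by simp only [A, map_sub]
    rw [e1]
    refine (hw _).trans ?_
    rw [mul_assoc]
    exact mul_le_mul_of_nonneg_left (h3 m n hmn) hd
  have hdC : 0 ≤ d * C := by positivity
  set c : ℕ → ℕ := fun x => max N₁ (min x N') with hc
  have hcm : Monotone c := fun x y hxy => max_le_max le_rfl (min_le_min hxy le_rfl)
  have hcN : ∀ x, N₁ ≤ c x ∧ c x ≤ N' := by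
    intro x
    simp only [hc]
    omega
  set L := ω N' - ω N with hL
  have hL0 : 0 ≤ L := sub_nonneg.2 (h1 hN)
  -- main estimate
  have key : ∀ i : ZI, l2 i.F (fun γ' => g (i.l γ') γ' - g i.k γ') ≤
      10 * ((d * C) * (ω (c i.n) - ω (c i.k)) ^ (3 / 4 : ℝ)) := by
    intro i
    set κ := c i.k with hκ
    have hκn : κ ≤ c i.n := hcm i.hkn
    have hκN : N₁ ≤ κ ∧ κ ≤ N' := hcN i.k
    let r : (ℕ → Bool) → (ℕ → Bool) → Prop := fun γ γ' => agr (max (i.k + 1) N₀) γ γ'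
    -- choose the stopping times
    have htele : ∀ γ γ' : ℕ → Bool, ∃ ρ, κ ≤ ρ ∧ ρ ≤ N' ∧
        (ρ = κ ∨ (ρ ≤ i.l γ' ∧ agr ρ γ γ')) ∧
        ∑ j ∈ Finset.Ico κ N', (if j + 1 ≤ i.l γ' ∧ agr (j + 1) γ γ' then
          w γ (X (j + 1)) - w γ (X j) else 0) = w γ (X ρ) - w γ (X κ) := by
      intro γ γ'
      obtain ⟨ρ, a1, a2, a3, a4⟩ := tele (fun n => w γ (X n)) (fun j => j ≤ i.l γ' ∧ agr j γ γ')
        (fun j hj => ⟨(Nat.le_succ j).trans hj.1, hj.2.mono (Nat.le_succ j)⟩) κ N' hκN.2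
      refine ⟨ρ, a1, a2, a3, ?_⟩
      convert a4
    choose ρ hρ1 hρ2 hρ3 hρ4 using htele
    have hdiff : ∀ γ' ∈ i.F, g (i.l γ') γ' - g i.k γ' =
        ∑ γ ∈ F, if r γ γ' then w γ (X (ρ γ γ')) - w γ (X κ) else 0 := by
      intro γ' hγ'
      have hl := i.hl γ' hγ'
      rw [hval, hval, ← Finset.sum_sub_distrib]
      apply Finset.sum_congr rfl
      intro γ _
      rw [← Finset.sum_sub_distrib]
      have e1 : ∑ j ∈ Finset.Ico N₁ N',
          ((if j + 1 ≤ i.l γ' ∧ agr (j + 1) γ γ' then w γ (X (j + 1)) - w γ (X j) else 0) -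
          (if j + 1 ≤ i.k ∧ agr (j + 1) γ γ' then w γ (X (j + 1)) - w γ (X j) else 0)) =
          ∑ j ∈ Finset.Ico κ N', (if j + 1 ≤ i.l γ' ∧ agr (j + 1) γ γ' then
            w γ (X (j + 1)) - w γ (X j) else 0) := by
        rw [← Finset.sum_Ico_consecutive _ hκN.1 hκN.2]
        have e2 : ∑ j ∈ Finset.Ico N₁ κ,
          ((if j + 1 ≤ i.l γ' ∧ agr (j + 1) γ γ' then w γ (X (j + 1)) - w γ (X j) else 0) -
          (if j + 1 ≤ i.k ∧ agr (j + 1) γ γ' then w γ (X (j + 1)) - w γ (X j) else 0)) = 0 := by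
          apply Finset.sum_eq_zero
          intro j hj
          rw [Finset.mem_Ico] at hj
          have h4 : j + 1 ≤ i.k := by
            simp only [hκ, hc] at hj
            omega
          have h5 : j + 1 ≤ i.l γ' := h4.trans hl.1
          simp only [h4, h5, sub_self]
        rw [e2, zero_add]
        apply Finset.sum_congr rfl
        intro j hj
        rw [Finset.mem_Ico] at hj
        have h4 : ¬ (j + 1 ≤ i.k) := by
          simp only [hκ, hc] at hj
          omega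
        simp only [h4, false_and, if_false, sub_zero]
      rw [e1]
      by_cases hr : r γ γ'
      · rw [if_pos hr, hρ4]
      · rw [if_neg hr]
        apply Finset.sum_eq_zero
        intro j hj
        rw [Finset.mem_Ico] at hj
        rw [if_neg]
        rintro ⟨-, ha⟩
        apply hr
        apply ha.mono
        have h4 := hstart j (hκN.1.trans hj.1) hj.2
        have h5 : i.k < j + 1 := by
          simp only [hκ, hc] at hj
          omega
        omega
    -- the selector on `F`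
    let lam : (ℕ → Bool) → ℕ := fun γ =>
      if h : ∃ γ' ∈ i.F, r γ γ' then ρ γ (Classical.choose h) else κ
    have hlam : ∀ γ ∈ F, κ ≤ lam γ ∧ lam γ ≤ c i.n := by
      intro γ _
      simp only [lam]
      split_ifs with h
      · have hsp := Classical.choose_spec h
        refine ⟨hρ1 _ _, ?_⟩
        rcases hρ3 γ (Classical.choose h) with h4 | h4
        · rw [h4]; exact hκn
        · have h5 := i.hl _ hsp.1
          have h6 := hρ2 γ (Classical.choose h)
          simp only [hc]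
          omega
      · exact ⟨le_rfl, hκn⟩
    have hmax := maximal A F ω h1 hdC hA (c i.n - κ) κ (c i.n) hκn (by omega) F
      (Finset.Subset.refl F) lam hlam
    apply l2_le_of_sq_le (by
      have : 0 ≤ ω (c i.n) - ω κ := sub_nonneg.2 (h1 hκn)
      positivity)
    calc ∑ γ' ∈ i.F, ‖g (i.l γ') γ' - g i.k γ'‖ ^ 2
        = ∑ γ' ∈ i.F, ‖∑ γ ∈ F, if r γ γ' then w γ (X (ρ γ γ')) - w γ (X κ) else 0‖ ^ 2 := by
          apply Finset.sum_congr rfl
          intro γ' hγ'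
          rw [hdiff γ' hγ']
      _ ≤ ∑ γ ∈ F, ‖A (lam γ) γ - A κ γ‖ ^ 2 := by
          apply matching i.F F r
          · intro γ' _ γ₁ h4 γ₂ h5 h6 h7
            exact hF γ₁ h4 γ₂ h5 ((h6.trans h7.symm).mono (le_max_right _ _))
          · intro γ _ γ₁ h4 γ₂ h5 h6 h7
            exact i.hsep γ₁ h4 γ₂ h5 ((h6.symm.trans h7).mono
              ((Nat.le_succ _).trans (le_max_left _ _)))
          · intro γ _ γ' h4 h5
            have hex : ∃ γ' ∈ i.F, r γ γ' := ⟨γ', h4, h5⟩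
            have hsp := Classical.choose_spec hex
            have heq : Classical.choose hex = γ' :=
              i.hsep _ hsp.1 _ h4 ((hsp.2.symm.trans h5).mono
                ((Nat.le_succ _).trans (le_max_left _ _)))
            simp only [lam, dif_pos hex, heq, A]
            exact le_rfl
      _ = l2 F (fun γ => A (lam γ) γ - A κ γ) ^ 2 := (l2_sq _ _).symm
      _ ≤ _ := pow_le_pow_left₀ (l2_nonneg _ _) hmax 2
  have hfin : ‖g‖ ≤ ((10 * (d * C)) * L ^ (1 / 2 : ℝ)) * L ^ (1 / 4 : ℝ) := by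
    apply Z.norm_le_of_control (c := ω N) (ω := fun x => ω (c x)) (by positivity) hL0
      (h1.comp hcm)
    · intro x
      have h4 := hcN x
      refine ⟨h1 (hNN₁.trans h4.1), ?_⟩
      have := h1 h4.2
      rw [hL]
      linarith
    · intro i
      refine (key i).trans ?_
      have h4 : 0 ≤ ω (c i.n) - ω (c i.k) := sub_nonneg.2 (h1 (hcm i.hkn))
      have h5 : ω (c i.n) - ω (c i.k) ≤ L := by
        have e1 := h1 (hcN i.n).2
        have e2 := h1 (hNN₁.trans (hcN i.k).1)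
        rw [hL]
        linarith
      rw [rpow_three_quarters h4]
      have h6 : (ω (c i.n) - ω (c i.k)) ^ (1 / 2 : ℝ) ≤ L ^ (1 / 2 : ℝ) :=
        Real.rpow_le_rpow h4 h5 (by norm_num)
      calc 10 * (d * C * ((ω (c i.n) - ω (c i.k)) ^ (1 / 2 : ℝ) *
            (ω (c i.n) - ω (c i.k)) ^ (1 / 4 : ℝ)))
          ≤ 10 * (d * C * (L ^ (1 / 2 : ℝ) * (ω (c i.n) - ω (c i.k)) ^ (1 / 4 : ℝ))) := by gcongr
        _ = _ := by ring
  refine hfin.trans (le_of_eq ?_)
  rw [rpow_three_quarters hL0]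
  ring

/-- The lift data of a finite set of branches. -/
noncomputable def LF {d : ℝ} (hd : 0 ≤ d) (hF : sep N₀ F)
    (hw : ∀ z, l2 F (fun γ => w γ z) ≤ d * ‖z‖) : LiftData 𝕜 where
  W := WF F N₀ w
  m := fun n => n
  hW := P_WF F N₀ w
  B := 10 * d
  hB := by positivity
  bound := fun X ω h1 _ C hC h3 N N' hN => WF_bound F N₀ w hd hF hw X ω h1 C hC h3 N N' hN

open Classical in
lemma exists_TF {d : ℝ} (hd : 0 ≤ d) (hw : ∀ z, l2 F (fun γ => w γ z) ≤ d * ‖z‖) :
    ∃ T : XX 𝕜 →L[𝕜] XX 𝕜, ‖T‖ ≤ 10 * d ∧ (∀ k γ, psiL 𝕜 T (Z.dl k γ) = 0) ∧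
      ∀ γ, psiL 𝕜 T (Z.infL γ) = if γ ∈ F then w γ else 0 := by
  obtain ⟨N₀, hF⟩ := exists_sep F
  refine ⟨(LF F N₀ w hd hF hw).T, (LF F N₀ w hd hF hw).norm_T_le, ?_, ?_⟩
  · intro k γ
    ext z
    refine tendsto_nhds_unique ((LF F N₀ w hd hF hw).tendsto_psi (Z.dl k γ) z) ?_
    apply tendsto_const_nhds.congr'
    filter_upwards [eventually_gt_atTop (max k N₀)] with n hn
    change (0 : 𝕜) = (WF F N₀ w n z) k γ
    rw [WF_of_le _ _ _ ((le_max_right _ _).trans hn.le), Z.sum_apply, Finset.sum_eq_zero]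
    intro γ' _
    rw [Z.smul_apply, Z.e_apply_of_lt ((le_max_left _ _).trans_lt hn), mul_zero]
  · intro γ₀
    ext z
    refine tendsto_nhds_unique ((LF F N₀ w hd hF hw).tendsto_psi (Z.infL γ₀) z) ?_
    apply tendsto_const_nhds.congr'
    obtain ⟨K, hK⟩ := exists_sep (insert γ₀ F)
    filter_upwards [eventually_gt_atTop (max K N₀)] with n hn
    have hsep := hK.mono ((le_max_left _ _).trans hn.le)
    change (if γ₀ ∈ F then w γ₀ else (0 : YY 𝕜)) z = Z.inf γ₀ (WF F N₀ w n z)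
    rw [WF_of_le _ _ _ ((le_max_right _ _).trans hn.le), map_sum]
    have h1 : ∀ γ ∈ F, Z.inf γ₀ (w γ z • (Z.e n γ : Z 𝕜)) = if γ = γ₀ then w γ z else 0 := by
      intro γ hγ
      rw [map_smul, Z.inf_e, smul_eq_mul]
      by_cases h2 : γ = γ₀
      · rw [if_pos ⟨by omega, by rw [h2]; exact agr.refl _ _⟩, if_pos h2, mul_one]
      · rw [if_neg, if_neg h2, mul_zero]
        rintro ⟨-, ha⟩
        exact h2 (hsep γ (Finset.mem_insert_of_mem hγ) γ₀ (Finset.mem_insert_self _ _) ha)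
    rw [Finset.sum_congr rfl h1, Finset.sum_ite_eq']
    split_ifs <;> rfl

end piece

end Pool.Agent.H33
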