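import Pool.Agent.H33.Surj2

/-!
Third part of the surjectivity proof: the remaining part of an operator is compact along branches.
-/

namespace Pool.Agent.H33

open Set Filter Topology

variable {𝕜 : Type*} [RCLike 𝕜]

lemma norm_sum_mul_le {α : Type*} (F : Finset α) (a b : α → 𝕜) :
    ‖∑ γ ∈ F, a γ * b γ‖ ≤ l2 F a * l2 F b := by
  refine (norm_sum_le _ _).trans ?_
  have h := Real.sum_mul_le_sqrt_mul_sqrt F (fun γ => ‖a γ‖) (fun γ => ‖b γ‖)
  refine le_trans (le_of_eq ?_) h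
  apply Finset.sum_congr rfl
  intro γ _
  exact norm_mul _ _

lemma norm_comb_le {F : Finset (ℕ → Bool)} {m : ℕ} (hF : sep m F) (a : (ℕ → Bool) → 𝕜) :
    ‖∑ γ ∈ F, a γ • ((Z.infL γ : YY 𝕜) - Z.dl m γ)‖ ≤ l2 F a := by
  apply ContinuousLinearMap.opNorm_le_bound _ (l2_nonneg _ _)
  intro f
  have e1 : (∑ γ ∈ F, a γ • ((Z.infL γ : YY 𝕜) - Z.dl m γ) : YY 𝕜) f =
      ∑ γ ∈ F, a γ * (Z.inf γ f - f m γ) := by
    rw [_root_.sum_apply]
    rfl
  rw [e1]
  refine (norm_sum_mul_le _ _ _).trans ?_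
  exact mul_le_mul_of_nonneg_left (Z.l2_inf_sub_le hF f) (l2_nonneg _ _)

lemma norm_psiL_apply_le (T : XX 𝕜 →L[𝕜] XX 𝕜) (y : YY 𝕜) : ‖psiL 𝕜 T y‖ ≤ ‖T‖ * ‖y‖ := by
  rw [psiL_apply]
  refine (norm_lam_le _).trans ((norm_sharp_le T _).trans ?_)
  exact mul_le_mul_of_nonneg_left (norm_qs_le y) (norm_nonneg _)

section rest

variable (R : YY 𝕜 →L[𝕜] YY 𝕜) (hR : ∀ k γ, R (Z.dl k γ) = 0)

include hR

lemma w_bound (F : Finset (ℕ → Bool)) (z : Z 𝕜) :
    l2 F (fun γ => R (Z.infL γ) z) ≤ ‖R‖ * ‖z‖ := by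
  obtain ⟨m, hm⟩ := exists_sep F
  set v : (ℕ → Bool) → 𝕜 := fun γ => R (Z.infL γ) z with hv
  have h1 : R (∑ γ ∈ F, (starRingEnd 𝕜 (v γ)) • ((Z.infL γ : YY 𝕜) - Z.dl m γ)) z =
      ((l2 F v ^ 2 : ℝ) : 𝕜) := by
    rw [map_sum, _root_.sum_apply, l2_sq]
    push_cast
    apply Finset.sum_congr rfl
    intro γ _
    rw [map_smul, map_sub, hR, sub_zero, _root_.smul_apply, smul_eq_mul, RCLike.conj_mul]
  have h2 : l2 F (fun γ => starRingEnd 𝕜 (v γ)) = l2 F v := by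
    rw [l2, l2]
    congr 1
    apply Finset.sum_congr rfl
    intro γ _
    rw [RCLike.norm_conj]
  have h3 : ‖((l2 F v ^ 2 : ℝ) : 𝕜)‖ ≤ (‖R‖ * l2 F v) * ‖z‖ := by
    rw [← h1]
    refine (ContinuousLinearMap.le_opNorm _ _).trans ?_
    refine mul_le_mul_of_nonneg_right ?_ (norm_nonneg _)
    refine (R.le_opNorm _).trans ?_
    refine mul_le_mul_of_nonneg_left ?_ (norm_nonneg R)
    rw [← h2]
    exact norm_comb_le hm _
  rw [RCLike.norm_ofReal, abs_of_nonneg (by positivity)] at h3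
  rcases (l2_nonneg F v).eq_or_lt with h0 | h0
  · rw [← h0]; positivity
  · have h4 : l2 F v * l2 F v ≤ l2 F v * (‖R‖ * ‖z‖) := by
      calc l2 F v * l2 F v = l2 F v ^ 2 := by ring
        _ ≤ _ := h3
        _ = _ := by ring
    exact le_of_mul_le_mul_left h4 h0

/-- The Hilbert space operator. -/
noncomputable def Wop : Z 𝕜 →L[𝕜] lp (fun _ : ℕ → Bool => 𝕜) 2 :=
  LinearMap.mkContinuous
    { toFun := fun z => ⟨fun γ => R (Z.infL γ) z, by
        apply memℓp_gen' (C := (‖R‖ * ‖z‖) ^ 2)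
        intro s
        have h := pow_le_pow_left₀ (l2_nonneg _ _) (w_bound R hR s z) 2
        rw [l2_sq] at h
        simpa using h⟩
      map_add' := fun z z' => by
        apply lp.ext
        funext γ
        exact map_add _ _ _
      map_smul' := fun c z => by
        apply lp.ext
        funext γ
        exact map_smul _ _ _ } ‖R‖
    (fun z => by
      apply lp.norm_le_of_forall_sum_le (by simp) (by positivity)
      intro s
      have h := pow_le_pow_left₀ (l2_nonneg _ _) (w_bound R hR s z) 2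
      rw [l2_sq] at h
      simpa using h)

lemma Wop_apply (z : Z 𝕜) (γ : ℕ → Bool) : Wop R hR z γ = R (Z.infL γ) z := rfl

omit hR in
lemma l2_le_norm_lp (G : Finset (ℕ → Bool)) (v : lp (fun _ : ℕ → Bool => 𝕜) 2) :
    l2 G (fun γ => v γ) ≤ ‖v‖ := by
  apply l2_le_of_sq_le (norm_nonneg _)
  have h := lp.sum_rpow_le_norm_rpow (p := 2) (by simp) v G
  simpa using h

omit hR in
lemma lp_tail (v : lp (fun _ : ℕ → Bool => 𝕜) 2) {ε : ℝ} (hε : 0 < ε) :
    ∃ Γ : Finset (ℕ → Bool), ∀ G, Disjoint G Γ → l2 G (fun γ => v γ) ≤ ε := by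
  have h1 : Summable fun i => ‖v i‖ ^ (2 : ENNReal).toReal :=
    (lp.memℓp v).summable (by simp)
  rw [summable_iff_vanishing_norm] at h1
  obtain ⟨Γ, hΓ⟩ := h1 (ε ^ 2) (by positivity)
  refine ⟨Γ, fun G hG => ?_⟩
  apply l2_le_of_sq_le hε.le
  have h2 := hΓ G hG
  simp only [ENNReal.toReal_ofNat, Real.rpow_ofNat] at h2
  rw [Real.norm_of_nonneg (Finset.sum_nonneg fun _ _ => by positivity)] at h2
  exact h2.le

omit hR in
lemma lpn_add (G : Finset (ℕ → Bool)) (v v' : lp (fun _ : ℕ → Bool => 𝕜) 2) :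
    l2 G (fun γ => (v + v') γ) ≤ l2 G (fun γ => v γ) + l2 G (fun γ => v' γ) :=
  l2_add_le G (fun γ => v γ) (fun γ => v' γ)

omit hR in
lemma lpn_smul (G : Finset (ℕ → Bool)) (c : 𝕜) (v : lp (fun _ : ℕ → Bool => 𝕜) 2) :
    l2 G (fun γ => (c • v) γ) = ‖c‖ * l2 G (fun γ => v γ) :=
  l2_smul G c (fun γ => v γ)

omit hR in
lemma lpn_zero (G : Finset (ℕ → Bool)) :
    l2 G (fun γ => (0 : lp (fun _ : ℕ → Bool => 𝕜) 2) γ) = 0 :=
  l2_zero G

omit hR in
lemma lpn_sum {β : Type} (G : Finset (ℕ → Bool)) (t : Finset β)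
    (f : β → lp (fun _ : ℕ → Bool => 𝕜) 2) :
    l2 G (fun γ => (∑ b ∈ t, f b) γ) ≤ ∑ b ∈ t, l2 G (fun γ => f b γ) := by
  classical
  induction t using Finset.induction_on with
  | empty => rw [Finset.sum_empty, Finset.sum_empty, lpn_zero]
  | insert b t hb ih =>
    rw [Finset.sum_insert hb, Finset.sum_insert hb]
    exact (lpn_add _ _ _).trans (add_le_add le_rfl ih)

omit hR in
/-- Decomposition of a vector by a bounded operator. -/
lemma op_decomp {H : Type*} [NormedAddCommGroup H] [NormedSpace 𝕜 H] (A : Z 𝕜 →L[𝕜] H) (m : ℕ)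
    (F : Finset (ℕ → Bool)) (h : (ℕ → Bool) → H) (z : Z 𝕜) :
    A z = (∑ k ∈ Finset.range m, ∑ s : Fin (k + 1) → Bool,
        (z (k + 1) (ext s) - z k (ext s)) • A (Z.e (k + 1) (ext s))) +
      ((A (z - Z.P m z) - ∑ γ ∈ F, Z.inf γ (z - Z.P m z) • h γ) +
        ∑ γ ∈ F, Z.inf γ (z - Z.P m z) • h γ) := by
  rw [sub_add_cancel, map_sub]
  have e1 : ∑ k ∈ Finset.range m, ∑ s : Fin (k + 1) → Bool,
        (z (k + 1) (ext s) - z k (ext s)) • A (Z.e (k + 1) (ext s)) = A (Z.P m z) := by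
    rw [Z.P_expand]
    simp only [map_sum, map_smul]
  rw [e1]
  abel

lemma w_tail {δ : ℝ} (hδ : 0 < δ) : ∃ Γ : Finset (ℕ → Bool), ∀ G, Disjoint G Γ →
    ∀ z, l2 G (fun γ => R (Z.infL γ) z) ≤ δ * ‖z‖ := by
  classical
  choose h hh using fun γ => Z.exists_lim (Wop R hR) γ
  obtain ⟨F, m, -, hS⟩ := Z.thmS (Wop R hR) h hh (δ := δ / 2) (half_pos hδ)
  obtain ⟨c₀, hc₀, hc₀'⟩ : ∃ c₀ : ℝ, c₀ = ∑ k ∈ Finset.range m, ∑ s : Fin (k + 1) → Bool, (2 : ℝ) ∧
      0 ≤ c₀ := ⟨_, rfl, Finset.sum_nonneg fun k _ => Finset.sum_nonneg fun s _ => zero_le_two⟩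
  have hc1 : 0 < c₀ + F.card + 1 := by positivity
  obtain ⟨ε, hε, hε0⟩ : ∃ ε : ℝ, (c₀ + F.card + 1) * ε = δ / 2 ∧ 0 < ε :=
    ⟨δ / 2 / (c₀ + F.card + 1), by field_simp, by positivity⟩
  choose Γ₁ hΓ₁ using fun (k : ℕ) (s : Fin (k + 1) → Bool) =>
    lp_tail (Wop R hR (Z.e (k + 1) (ext s))) hε0
  choose Γ₂ hΓ₂ using fun γ => lp_tail (h γ) hε0
  refine ⟨((Finset.range m).biUnion fun k => Finset.univ.biUnion fun s => Γ₁ k s) ∪
    F.biUnion Γ₂, fun G hG z => ?_⟩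
  rw [Finset.disjoint_union_right] at hG
  have hG1 : ∀ k ∈ Finset.range m, ∀ s, Disjoint G (Γ₁ k s) := by
    intro k hk s
    have h1 := (Finset.disjoint_biUnion_right _ _ _).1 hG.1 k hk
    exact (Finset.disjoint_biUnion_right _ _ _).1 h1 s (Finset.mem_univ s)
  have hG2 : ∀ γ ∈ F, Disjoint G (Γ₂ γ) := by
    intro γ hγ
    exact (Finset.disjoint_biUnion_right _ _ _).1 hG.2 γ hγ
  have hun : ‖z - Z.P m z‖ ≤ ‖z‖ := Z.norm_sub_P_le m z
  have huP : Z.P m (z - Z.P m z) = 0 := by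
    rw [map_sub, Z.P_P_of_le le_rfl, sub_self]
  have hz0 := norm_nonneg z
  have hl2 : l2 G (fun γ' => R (Z.infL γ') z) ≤
      (∑ k ∈ Finset.range m, ∑ s : Fin (k + 1) → Bool, (2 * ‖z‖) * ε) +
      (δ / 2 * ‖z‖ + ∑ γ ∈ F, ‖z‖ * ε) := by
    have e0 : l2 G (fun γ' => R (Z.infL γ') z) = l2 G (fun γ' => Wop R hR z γ') := rfl
    rw [e0, op_decomp (Wop R hR) m F h z]
    refine (lpn_add _ _ _).trans (add_le_add ?_ ((lpn_add _ _ _).trans (add_le_add ?_ ?_)))
    · refine (lpn_sum _ _ _).trans (Finset.sum_le_sum fun k hk => ?_)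
      refine (lpn_sum _ _ _).trans (Finset.sum_le_sum fun s _ => ?_)
      rw [lpn_smul]
      have e4 : ‖z (k + 1) (ext s) - z k (ext s)‖ ≤ 2 * ‖z‖ := by
        calc _ ≤ ‖z (k + 1) (ext s)‖ + ‖z k (ext s)‖ := norm_sub_le _ _
          _ ≤ ‖z‖ + ‖z‖ := add_le_add (Z.norm_apply_le _ _ _) (Z.norm_apply_le _ _ _)
          _ = 2 * ‖z‖ := by ring
      exact mul_le_mul e4 (hΓ₁ k s G (hG1 k hk s)) (l2_nonneg _ _) (by positivity)
    · refine (l2_le_norm_lp G _).trans ((hS _ huP).trans ?_)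
      exact mul_le_mul_of_nonneg_left hun (half_pos hδ).le
    · refine (lpn_sum _ _ _).trans (Finset.sum_le_sum fun γ hγ => ?_)
      rw [lpn_smul]
      exact mul_le_mul ((Z.norm_inf_le _ γ).trans hun) (hΓ₂ γ G (hG2 γ hγ)) (l2_nonneg _ _)
        (norm_nonneg _)
  refine hl2.trans ?_
  have e5 : ∑ k ∈ Finset.range m, ∑ s : Fin (k + 1) → Bool, (2 * ‖z‖) * ε =
      c₀ * (‖z‖ * ε) := by
    rw [hc₀]
    simp only [Finset.sum_mul]
    apply Finset.sum_congr rfl; intro k _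
    apply Finset.sum_congr rfl; intro s _
    ring
  have e6 : ∑ γ ∈ F, ‖z‖ * ε = F.card * (‖z‖ * ε) := by
    rw [Finset.sum_const, nsmul_eq_mul]
  rw [e5, e6]
  have e8 : 0 ≤ ε * ‖z‖ := by positivity
  calc c₀ * (‖z‖ * ε) + (δ / 2 * ‖z‖ + F.card * (‖z‖ * ε))
      = (c₀ + F.card + 1) * ε * ‖z‖ - ε * ‖z‖ + δ / 2 * ‖z‖ := by ring
    _ = δ / 2 * ‖z‖ - ε * ‖z‖ + δ / 2 * ‖z‖ := by rw [hε]
    _ ≤ δ * ‖z‖ := by linarith

/-- The remaining part can be lifted on the branch functionals. -/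
lemma exists_T2 : ∃ T : XX 𝕜 →L[𝕜] XX 𝕜, (∀ k γ, psiL 𝕜 T (Z.dl k γ) = 0) ∧
    ∀ γ, psiL 𝕜 T (Z.infL γ) = R (Z.infL γ) := by
  classical
  choose Γ hΓ using fun i : ℕ => w_tail R hR (δ := (1 / 2) ^ i) (by positivity)
  let Γ' : ℕ → Finset (ℕ → Bool) := fun n => (Finset.range n).biUnion Γ
  have hΓ'mono : Monotone Γ' := fun a b hab =>
    Finset.biUnion_subset_biUnion_of_subset_left _ (Finset.range_subset_range.2 hab)
  let F : ℕ → Finset (ℕ → Bool) := fun i => Γ' (i + 1) \ Γ' i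
  have hd : ∀ i z, l2 (F i) (fun γ => R (Z.infL γ) z) ≤ ((‖R‖ + 2) * (1 / 2) ^ i) * ‖z‖ := by
    intro i z
    rcases Nat.eq_zero_or_pos i with rfl | hi
    · refine (w_bound R hR _ z).trans ?_
      have := norm_nonneg z
      rw [pow_zero, mul_one]
      gcongr
      linarith
    · obtain ⟨j, rfl⟩ := Nat.exists_eq_succ_of_ne_zero hi.ne'
      have hdisj : Disjoint (F (j + 1)) (Γ j) := by
        apply Disjoint.mono_right _ Finset.sdiff_disjoint
        exact Finset.subset_biUnion_of_mem Γ (Finset.mem_range.2 (Nat.lt_succ_self j))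
      refine (hΓ j _ hdisj z).trans ?_
      have h1 := norm_nonneg z
      have h2 := norm_nonneg R
      have h3 : (1 / 2 : ℝ) ^ j = 2 * (1 / 2) ^ (j + 1) := by rw [pow_succ]; ring
      have h4 : (0 : ℝ) ≤ (1 / 2) ^ (j + 1) := by positivity
      rw [h3]
      simp only [Nat.succ_eq_add_one]
      gcongr
      linarith
  choose T hT1 hT2 hT3 using fun i => exists_TF (F i) (fun γ => R (Z.infL γ))
    (d := (‖R‖ + 2) * (1 / 2) ^ i) (by positivity) (hd i)
  have hsum : Summable T := by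
    apply Summable.of_norm_bounded (g := fun i => 10 * ((‖R‖ + 2) * (1 / 2 : ℝ) ^ i)) _ hT1
    exact (summable_geometric_two.mul_left _).mul_left _
  have hpsi : ∀ y : YY 𝕜, Tendsto (fun n => psiL 𝕜 (∑ i ∈ Finset.range n, T i) y) atTop
      (𝓝 (psiL 𝕜 (∑' i, T i) y)) := by
    intro y
    rw [tendsto_iff_norm_sub_tendsto_zero]
    have h1 := hsum.hasSum.tendsto_sum_nat
    rw [tendsto_iff_norm_sub_tendsto_zero] at h1
    have h2 := h1.mul_const ‖y‖
    rw [zero_mul] at h2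
    apply squeeze_zero (fun _ => norm_nonneg _) _ h2
    intro n
    have e1 : psiL 𝕜 (∑ i ∈ Finset.range n, T i) y - psiL 𝕜 (∑' i, T i) y =
        psiL 𝕜 (∑ i ∈ Finset.range n, T i - ∑' i, T i) y := by
      rw [map_sub]
      rfl
    rw [e1]
    exact norm_psiL_apply_le _ _
  refine ⟨∑' i, T i, fun k γ => ?_, fun γ => ?_⟩
  · refine tendsto_nhds_unique (hpsi (Z.dl k γ)) ?_
    apply tendsto_const_nhds.congr
    intro n
    rw [map_sum, _root_.sum_apply, Finset.sum_eq_zero]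
    intro i _
    exact hT2 i k γ
  · refine tendsto_nhds_unique (hpsi (Z.infL γ)) ?_
    have hpart : ∀ n, psiL 𝕜 (∑ i ∈ Finset.range n, T i) (Z.infL γ) =
        if γ ∈ Γ' n then R (Z.infL γ) else 0 := by
      intro n
      rw [map_sum, _root_.sum_apply]
      simp only [hT3]
      induction n with
      | zero => simp [Γ']
      | succ n ih =>
        rw [Finset.sum_range_succ, ih]
        by_cases h1 : γ ∈ Γ' n
        · have h2 : γ ∈ Γ' (n + 1) := hΓ'mono (Nat.le_succ n) h1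
          have h3 : γ ∉ F n := fun h => (Finset.mem_sdiff.1 h).2 h1
          rw [if_pos h1, if_pos h2, if_neg h3, add_zero]
        · by_cases h2 : γ ∈ Γ' (n + 1)
          · have h3 : γ ∈ F n := Finset.mem_sdiff.2 ⟨h2, h1⟩
            rw [if_neg h1, if_pos h2, if_pos h3, zero_add]
          · have h3 : γ ∉ F n := fun h => h2 (Finset.mem_sdiff.1 h).1
            rw [if_neg h1, if_neg h2, if_neg h3, add_zero]
    by_cases hex : ∃ n, γ ∈ Γ' n
    · obtain ⟨N, hN⟩ := hex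
      apply tendsto_const_nhds.congr'
      filter_upwards [eventually_ge_atTop N] with n hn
      rw [hpart, if_pos (hΓ'mono hn hN)]
    · push Not at hex
      have hzero : R (Z.infL γ) = 0 := by
        ext z
        have hb : ∀ i : ℕ, ‖R (Z.infL γ) z‖ ≤ (1 / 2 : ℝ) ^ i * ‖z‖ := by
          intro i
          have hdisj : Disjoint ({γ} : Finset (ℕ → Bool)) (Γ i) := by
            rw [Finset.disjoint_singleton_left]
            intro hmem
            exact hex (i + 1) (Finset.mem_biUnion.2 ⟨i, Finset.mem_range.2 (Nat.lt_succ_self i),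
              hmem⟩)
          have h1 := hΓ i _ hdisj z
          rwa [l2_singleton] at h1
        have hlim : Tendsto (fun i : ℕ => (1 / 2 : ℝ) ^ i * ‖z‖) atTop (𝓝 (0 * ‖z‖)) :=
          (tendsto_pow_atTop_nhds_zero_of_lt_one (by norm_num) (by norm_num)).mul_const _
        rw [zero_mul] at hlim
        have h2 := ge_of_tendsto' hlim hb
        rw [_root_.zero_apply]
        exact norm_le_zero_iff.1 h2
      apply tendsto_const_nhds.congr
      intro n
      rw [hpart, if_neg (hex n), hzero]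

end rest

/-- An operator killing all evaluations is zero. -/
lemma eq_zero_of_kills (Q : YY 𝕜 →L[𝕜] YY 𝕜) (h1 : ∀ k γ, Q (Z.dl k γ) = 0)
    (h2 : ∀ γ, Q (Z.infL γ) = 0) : Q = 0 := by
  ext1 y
  rw [_root_.zero_apply]
  choose h hh using fun γ => Z.exists_lim y γ
  have key : ∀ δ : ℝ, 0 < δ → ‖Q y‖ ≤ ‖Q‖ * δ := by
    intro δ hδ
    obtain ⟨F, m, -, hS⟩ := Z.thmS y h hh hδ
    set y' : YY 𝕜 := y - y.comp (Z.PL m) - ∑ γ ∈ F, h γ • ((Z.infL γ : YY 𝕜) - Z.dl m γ) with hy'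
    have hQ : Q y' = Q y := by
      rw [hy', map_sub, map_sub, Z.comp_PL]
      simp only [map_sum, map_smul, map_sub, h1, h2, sub_self, smul_zero, Finset.sum_const_zero,
        sub_zero]
    have hn : ‖y'‖ ≤ δ := by
      apply ContinuousLinearMap.opNorm_le_bound _ hδ.le
      intro f
      have e1 : y' f = y (f - Z.P m f) - ∑ γ ∈ F, Z.inf γ (f - Z.P m f) • h γ := by
        rw [hy', _root_.sub_apply, _root_.sub_apply, _root_.sum_apply, map_sub,
          ContinuousLinearMap.comp_apply, Z.PL_apply]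
        congr 1
        apply Finset.sum_congr rfl
        intro γ _
        have e2 : Z.inf γ (Z.P m f) = f m γ := by
          rw [Z.inf_eq (Z.P_P_of_le' (le_refl m) f), Z.P_apply, min_self]
        rw [_root_.smul_apply, _root_.sub_apply, Z.infL_apply, Z.dl_apply, map_sub, e2,
          smul_eq_mul, smul_eq_mul, mul_comm]
      rw [e1]
      refine (hS _ (by rw [map_sub, Z.P_P_of_le le_rfl, sub_self])).trans ?_
      exact mul_le_mul_of_nonneg_left (Z.norm_sub_P_le m f) hδ.le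
    rw [← hQ]
    exact (Q.le_opNorm y').trans (mul_le_mul_of_nonneg_left hn (norm_nonneg Q))
  have hlim : Tendsto (fun n : ℕ => ‖Q‖ * (1 / ((n : ℝ) + 1))) atTop (𝓝 (‖Q‖ * 0)) :=
    tendsto_one_div_add_atTop_nhds_zero_nat.const_mul _
  rw [mul_zero] at hlim
  have h3 := ge_of_tendsto' hlim fun n => key (1 / ((n : ℝ) + 1)) (by positivity)
  exact norm_le_zero_iff.1 h3

theorem psi_surjective : Function.Surjective (psi 𝕜) := by
  intro R
  obtain ⟨T₁, hT₁⟩ := exists_T1 R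
  have hR' : ∀ k γ, (R - psiL 𝕜 T₁) (Z.dl k γ) = 0 := by
    intro k γ
    rw [_root_.sub_apply, hT₁, sub_self]
  obtain ⟨T₂, hT₂, hT₂'⟩ := exists_T2 (R - psiL 𝕜 T₁) hR'
  refine ⟨T₁ + T₂, ?_⟩
  rw [psi_apply, map_add]
  have h := eq_zero_of_kills (R - psiL 𝕜 T₁ - psiL 𝕜 T₂)
    (fun k γ => by rw [_root_.sub_apply, hR', hT₂, sub_zero])
    (fun γ => by rw [_root_.sub_apply, hT₂', sub_self])
  ext1 y
  have h' := congrArg (fun Q : YY 𝕜 →L[𝕜] YY 𝕜 => Q y) h
  simp only [_root_.sub_apply, _root_.zero_apply] at h'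
  rw [sub_sub, sub_eq_zero] at h'
  rw [_root_.add_apply]
  exact h'.symm

end Pool.Agent.H33
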