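import Pool.Agent.H33.Tree2

/-!
Structure of bounded operators from the tree space to a Hilbert space.
-/

namespace Pool.Agent.H33

open Set Filter Topology

section signs

variable {𝕜 H : Type*} [RCLike 𝕜] [NormedAddCommGroup H] [InnerProductSpace 𝕜 H]

lemma exists_signs (v : ℕ → H) (K : ℕ) : ∃ ε : ℕ → 𝕜, (∀ i, ‖ε i‖ ≤ 1) ∧
    ∑ j ∈ Finset.range K, ‖v j‖ ^ 2 ≤ ‖∑ j ∈ Finset.range K, ε j • v j‖ ^ 2 := by
  induction K with
  | zero => exact ⟨fun _ => 0, fun _ => by simp, by simp⟩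
  | succ K ih =>
    obtain ⟨ε, hε, h⟩ := ih
    set x := ∑ j ∈ Finset.range K, ε j • v j with hx
    have hpar := parallelogram_law_with_norm 𝕜 x (v K)
    have hupd : ∀ c : 𝕜, ∑ j ∈ Finset.range (K + 1), (Function.update ε K c) j • v j =
        x + c • v K := by
      intro c
      rw [Finset.sum_range_succ, Function.update_self]
      congr 1
      apply Finset.sum_congr rfl
      intro j hj
      rw [Function.update_of_ne (Finset.mem_range.1 hj).ne]
    have hnorm : ∀ c : 𝕜, ‖c‖ ≤ 1 → ∀ i, ‖(Function.update ε K c) i‖ ≤ 1 := by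
      intro c hc i
      by_cases hi : i = K
      · rw [hi, Function.update_self]; exact hc
      · rw [Function.update_of_ne hi]; exact hε i
    by_cases hcase : ‖x‖ ^ 2 + ‖v K‖ ^ 2 ≤ ‖x + v K‖ ^ 2
    · refine ⟨Function.update ε K 1, hnorm 1 (by simp), ?_⟩
      rw [hupd, one_smul, Finset.sum_range_succ]
      linarith
    · refine ⟨Function.update ε K (-1), hnorm (-1) (by simp), ?_⟩
      rw [hupd, neg_one_smul, ← sub_eq_add_neg, Finset.sum_range_succ]
      push Not at hcase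
      nlinarith

end signs

namespace Z

variable {𝕜 : Type*} [RCLike 𝕜] {H : Type*} [NormedAddCommGroup H] [InnerProductSpace 𝕜 H]

/-- The seminorm `N i`, as a function. -/
lemma Nz_le_norm (i : ZI) (f : Z 𝕜) : Nz i f ≤ ‖f‖ := N_le_norm i f

lemma stop_sum_blocks {u : ℕ → Z 𝕜} {M : ℕ → ℕ} (hM : StrictMono M)
    (h1 : ∀ i, P (M i) (u i) = 0) (h2 : ∀ i, P (M (i + 1)) (u i) = u i) (ε : ℕ → 𝕜)
    {j K : ℕ} (hj : j ≤ K) : P (M j) (∑ i ∈ Finset.range K, ε i • u i) =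
      ∑ i ∈ Finset.range j, ε i • u i := by
  rw [map_sum]
  rw [← Finset.sum_subset (Finset.range_subset_range.2 hj)]
  · apply Finset.sum_congr rfl
    intro i hi
    rw [Finset.mem_range] at hi
    rw [map_smul, ← h2 i, P_P_of_le' (hM.monotone hi)]
  · intro i hi hi'
    rw [Finset.mem_range] at hi hi'
    push Not at hi'
    rw [map_smul, ← P_P_of_le (hM.monotone hi'), h1, map_zero, smul_zero]

lemma blocks_contra (A : Z 𝕜 →L[𝕜] H) {δ C : ℝ} (hδ : 0 < δ) (hC : 1 ≤ C) (u : ℕ → Z 𝕜)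
    (M : ℕ → ℕ) (hM : StrictMono M) (h1 : ∀ i, P (M i) (u i) = 0)
    (h2 : ∀ i, P (M (i + 1)) (u i) = u i) (h3 : ∀ i, ‖u i‖ ≤ 1) (h4 : ∀ i, δ ≤ ‖A (u i)‖)
    (h5 : ∀ (K : ℕ) (ε : ℕ → 𝕜), (∀ i, ‖ε i‖ ≤ 1) → ∀ i : ZI,
      Nz i (∑ j ∈ Finset.range K, ε j • u j) ≤ C) : False := by
  have main : ∀ n : ℕ, 0 < n → 3 * (n : ℝ) ^ 2 * δ ^ 2 ≤ ‖A‖ ^ 2 * C ^ 2 := by
    intro n hn
    set K := 27 * n ^ 4 with hK
    have hKpos : 0 < K := by positivity
    obtain ⟨ε, hε, hs⟩ := exists_signs (𝕜 := 𝕜) (fun j => A (u j)) K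
    set f := ∑ j ∈ Finset.range K, ε j • u j with hf
    have hAf : ∑ j ∈ Finset.range K, ε j • A (u j) = A f := by
      rw [hf, map_sum]
      simp only [map_smul]
    rw [hAf] at hs
    have hfn : ‖f‖ ≤ C * (3 * K : ℝ) ^ (1 / 4 : ℝ) := by
      apply (fam 𝕜).nm_le_blocks (by norm_num) hKpos (M := M) (by linarith)
      · have := stop_sum_blocks hM h1 h2 ε (Nat.zero_le K)
        rwa [Finset.range_zero, Finset.sum_empty] at this
      · exact stop_sum_blocks hM h1 h2 ε le_rfl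
      · exact h5 K ε hε
      · intro j hj
        have e1 := stop_sum_blocks hM h1 h2 ε (show j + 1 ≤ K from hj)
        have e2 := stop_sum_blocks hM h1 h2 ε hj.le
        rw [fam_P, fam_P, e1, e2, Finset.sum_range_succ, add_sub_cancel_left, ← norm_def]
        calc ‖ε j • u j‖ = ‖ε j‖ * ‖u j‖ := norm_smul _ _
          _ ≤ 1 * 1 := mul_le_mul (hε j) (h3 j) (norm_nonneg _) zero_le_one
          _ ≤ C := by linarith
    have hpow : (3 * K : ℝ) ^ (1 / 4 : ℝ) = 3 * n := by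
      have e1 : (3 * K : ℝ) = (3 * (n : ℝ)) ^ (4 : ℝ) := by
        rw [hK]
        push_cast
        rw [show (4 : ℝ) = ((4 : ℕ) : ℝ) by norm_num, Real.rpow_natCast]
        ring
      rw [e1, ← Real.rpow_mul (by positivity)]
      norm_num
    rw [hpow] at hfn
    have hsum : (K : ℝ) * δ ^ 2 ≤ ∑ j ∈ Finset.range K, ‖A (u j)‖ ^ 2 := by
      calc (K : ℝ) * δ ^ 2 = ∑ j ∈ Finset.range K, δ ^ 2 := by simp
        _ ≤ _ := by
          gcongr with j _
          exact h4 j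
    have hAf2 : ‖A f‖ ≤ ‖A‖ * (C * (3 * n)) :=
      (A.le_opNorm f).trans (mul_le_mul_of_nonneg_left hfn (norm_nonneg _))
    have hfin : (K : ℝ) * δ ^ 2 ≤ (‖A‖ * (C * (3 * n))) ^ 2 :=
      hsum.trans (hs.trans (pow_le_pow_left₀ (norm_nonneg _) hAf2 2))
    have hKr : (K : ℝ) = 27 * (n : ℝ) ^ 4 := by rw [hK]; push_cast; ring
    rw [hKr] at hfin
    have hn2 : (0 : ℝ) < (n : ℝ) ^ 2 := by positivity
    have : (9 * (n : ℝ) ^ 2) * (3 * (n : ℝ) ^ 2 * δ ^ 2) ≤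
        (9 * (n : ℝ) ^ 2) * (‖A‖ ^ 2 * C ^ 2) := by
      calc (9 * (n : ℝ) ^ 2) * (3 * (n : ℝ) ^ 2 * δ ^ 2) = 27 * (n : ℝ) ^ 4 * δ ^ 2 := by ring
        _ ≤ (‖A‖ * (C * (3 * n))) ^ 2 := hfin
        _ = _ := by ring
    exact le_of_mul_le_mul_left this (by positivity)
  obtain ⟨n, hn⟩ := exists_nat_gt (‖A‖ ^ 2 * C ^ 2 / (3 * δ ^ 2))
  have hδ2 : 0 < 3 * δ ^ 2 := by positivity
  rw [div_lt_iff₀ hδ2] at hn
  have h := main (n + 1) (Nat.succ_pos n)
  push_cast at h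
  have hn0 : (0 : ℝ) ≤ n := Nat.cast_nonneg n
  have : (n : ℝ) ≤ ((n : ℝ) + 1) ^ 2 := by nlinarith
  have h6 : (n : ℝ) * (3 * δ ^ 2) ≤ ((n : ℝ) + 1) ^ 2 * (3 * δ ^ 2) := by gcongr
  nlinarith

lemma Nz_stop_zero {i : ZI} {M : ℕ} (h : M ≤ i.k) (f : Z 𝕜) : Nz i (P M f) = 0 :=
  (fam 𝕜).N_stop_eq_zero (i := i) h f

lemma Nz_sub_stop {i : ZI} {M : ℕ} (h : M ≤ i.k) (f : Z 𝕜) : Nz i (f - P M f) = Nz i f :=
  (fam 𝕜).N_sub_stop_eq (i := i) h f

lemma seq_contra (A : Z 𝕜 →L[𝕜] H) {δ C : ℝ} (hδ : 0 < δ) (hC : 0 ≤ C) (U : ℕ → Z 𝕜)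
    (h1 : ∀ M, P M (U M) = 0) (h3 : ∀ M, ‖U M‖ ≤ 1) (h4 : ∀ M, δ ≤ ‖A (U M)‖)
    (h5 : ∀ M : ℕ → ℕ, StrictMono M → (∀ i, P (M (i + 1)) (U (M i)) = U (M i)) →
      ∀ (j₀ K : ℕ) (ε : ℕ → 𝕜), (∀ i, ‖ε i‖ ≤ 1) → ∀ i : ZI, i.k < M j₀ →
      Nz i (∑ j ∈ Finset.Ico j₀ K, ε j • U (M j)) ≤ C) : False := by
  let M : ℕ → ℕ := fun n => Nat.rec 0 (fun _ m => max (m + 1) (st (U m))) n
  have hMs : ∀ i, M (i + 1) = max (M i + 1) (st (U (M i))) := fun i => rfl
  have hM : StrictMono M := strictMono_nat_of_lt_succ fun i => by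
    rw [hMs]; exact lt_of_lt_of_le (Nat.lt_succ_self _) (le_max_left _ _)
  have hP : ∀ i, P (M (i + 1)) (U (M i)) = U (M i) := fun i =>
    P_of_st_le (by rw [hMs]; exact le_max_right _ _)
  apply blocks_contra A hδ (C := C + 1) (by linarith) (fun i => U (M i)) M hM (fun i => h1 _) hP
    (fun i => h3 _) (fun i => h4 _)
  intro K ε hε i
  set f := ∑ j ∈ Finset.range K, ε j • U (M j) with hf
  rcases lt_or_ge i.k (M 0) with hk | hk
  · have := h5 M hM hP 0 K ε hε i hk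
    rw [← Finset.range_eq_Ico] at this
    linarith
  classical
  obtain ⟨j₀, hj₀, hj₁⟩ : ∃ j₀, M j₀ ≤ i.k ∧ i.k < M (j₀ + 1) := by
    let j₀ := Nat.findGreatest (fun j => M j ≤ i.k) i.k
    refine ⟨j₀, Nat.findGreatest_spec (P := fun j => M j ≤ i.k) (Nat.zero_le _) hk, ?_⟩
    by_contra hcon
    push Not at hcon
    have h6 : j₀ + 1 ≤ i.k := (hM.le_apply (x := j₀ + 1)).trans hcon
    exact Nat.findGreatest_is_greatest (P := fun j => M j ≤ i.k) (Nat.lt_succ_self j₀) h6 hcon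
  by_cases hjK : j₀ < K
  · have e1 : P (M j₀) f = ∑ j ∈ Finset.range j₀, ε j • U (M j) :=
      stop_sum_blocks hM (fun i => h1 _) hP ε hjK.le
    have e2 : f - P (M j₀) f = ε j₀ • U (M j₀) + ∑ j ∈ Finset.Ico (j₀ + 1) K, ε j • U (M j) := by
      rw [e1, hf, Finset.range_eq_Ico, ← Finset.sum_Ico_consecutive _ (Nat.zero_le j₀) hjK.le,
        ← Finset.range_eq_Ico, add_sub_cancel_left, Finset.sum_eq_sum_Ico_succ_bot hjK]
    rw [← Nz_sub_stop hj₀, e2]
    calc Nz i (ε j₀ • U (M j₀) + ∑ j ∈ Finset.Ico (j₀ + 1) K, ε j • U (M j))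
        ≤ Nz i (ε j₀ • U (M j₀)) + Nz i (∑ j ∈ Finset.Ico (j₀ + 1) K, ε j • U (M j)) :=
          map_add_le_add _ _ _
      _ ≤ 1 + C := by
          apply add_le_add
          · refine (Nz_le_norm i _).trans ?_
            rw [norm_smul]
            calc ‖ε j₀‖ * ‖U (M j₀)‖ ≤ 1 * 1 := mul_le_mul (hε _) (h3 _) (norm_nonneg _) zero_le_one
              _ = 1 := one_mul 1
          · exact h5 M hM hP (j₀ + 1) K ε hε i hj₁
      _ = C + 1 := add_comm _ _
  · push Not at hjK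
    have e1 : P (M j₀) f = f := by
      have := stop_sum_blocks hM (fun i => h1 _) hP ε (le_refl K)
      rw [← hf] at this
      rw [← this, P_P_of_le' (hM.monotone hjK)]
    rw [← e1, Nz_stop_zero hj₀]
    linarith

/-- Small operators on branches. -/
lemma S3 (A : Z 𝕜 →L[𝕜] H) (γ : ℕ → Bool) {δ : ℝ} (hδ : 0 < δ) : ∃ M, ∀ f : Z 𝕜, P M f = 0 →
    (∀ n γ', ¬ agr M γ γ' → f n γ' = 0) → inf γ f = 0 → ‖A f‖ ≤ δ * ‖f‖ := by
  by_contra hcon
  push Not at hcon
  choose U₀ hU1 hU2 hU3 hU4 using hcon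
  have hne : ∀ M, 0 < ‖U₀ M‖ := by
    intro M
    rcases (norm_nonneg (U₀ M)).eq_or_lt with h | h
    · exfalso
      have h' := hU4 M
      rw [norm_eq_zero.1 h.symm] at h'
      simp at h'
    · exact h
  set U : ℕ → Z 𝕜 := fun M => ((‖U₀ M‖⁻¹ : ℝ) : 𝕜) • U₀ M with hU
  have hcoef : ∀ M, ‖((‖U₀ M‖⁻¹ : ℝ) : 𝕜)‖ = ‖U₀ M‖⁻¹ := by
    intro M
    rw [RCLike.norm_ofReal, abs_of_nonneg (inv_nonneg.2 (norm_nonneg _))]
  have hnorm : ∀ M, ‖U M‖ = 1 := by
    intro M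
    rw [hU]
    simp only
    rw [norm_smul, hcoef, inv_mul_cancel₀ (hne M).ne']
  have hUz : ∀ M n γ', ¬ agr M γ γ' → (U M) n γ' = 0 := by
    intro M n γ' h
    rw [hU]
    simp only [smul_apply]
    rw [hU2 M n γ' h, mul_zero]
  have hUinf : ∀ M, inf γ (U M) = 0 := by
    intro M
    rw [hU]
    simp only [map_smul]
    rw [hU3 M, smul_zero]
  have hUP : ∀ M, P M (U M) = 0 := by
    intro M
    rw [hU]
    simp only [map_smul]
    rw [hU1 M, smul_zero]
  apply seq_contra A hδ (C := 1) zero_le_one U hUP (fun M => (hnorm M).le)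
  · intro M
    rw [hU]
    simp only [map_smul]
    rw [norm_smul, hcoef]
    have := hU4 M
    have h2 := hne M
    rw [inv_mul_eq_div, le_div_iff₀ h2]
    exact this.le
  · intro M hM hP j₀ K ε hε i hi
    set h := ∑ j ∈ Finset.Ico j₀ K, ε j • U (M j) with hh
    have hval : ∀ n γ', h n γ' = ∑ j ∈ Finset.Ico j₀ K, ε j * (U (M j)) n γ' := by
      intro n γ'
      rw [hh, sum_apply]
      simp only [smul_apply]
    have hsup : ∀ n γ', ‖h n γ'‖ ≤ 1 := by
      intro n γ'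
      rw [hval]
      have hexcl : ∀ j j', j < j' → (U (M j')) n γ' ≠ 0 → (U (M j)) n γ' = 0 := by
        intro j j' hjj' hne'
        have ha : agr (M j') γ γ' := by
          by_contra hcon; exact hne' (hUz _ _ _ hcon)
        have hn : M j' < n := by
          by_contra hcon
          push Not at hcon
          exact hne' (apply_eq_zero (hUP _) hcon γ')
        have hle : M (j + 1) ≤ M j' := hM.monotone hjj'
        rw [apply_of_le (hP j) (hle.trans hn.le), ← (U (M j)).adapted (ha.mono hle),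
          ← inf_eq (hP j), hUinf]
      by_cases hall : ∃ j ∈ Finset.Ico j₀ K, (U (M j)) n γ' ≠ 0
      · obtain ⟨j, hj, hjne⟩ := hall
        rw [Finset.sum_eq_single j]
        · rw [norm_mul]
          calc ‖ε j‖ * ‖(U (M j)) n γ'‖ ≤ 1 * 1 := by
                apply mul_le_mul (hε _) _ (norm_nonneg _) zero_le_one
                exact (norm_apply_le _ _ _).trans (hnorm _).le
            _ = 1 := one_mul 1
        · intro j' _ hj'
          rcases lt_or_gt_of_ne hj' with hlt | hlt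
          · rw [hexcl j' j hlt hjne, mul_zero]
          · by_contra hcon
            have : (U (M j')) n γ' ≠ 0 := fun h0 => hcon (by rw [h0, mul_zero])
            exact hjne (hexcl j j' hlt this)
        · exact fun h => absurd hj h
      · push Not at hall
        rw [Finset.sum_eq_zero]
        · simp
        · intro j hj
          rw [hall j hj, mul_zero]
    have hk0 : ∀ γ', h i.k γ' = 0 := by
      intro γ'
      rw [hval]
      apply Finset.sum_eq_zero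
      intro j hj
      rw [apply_eq_zero (hUP _) (hi.le.trans (hM.monotone (Finset.mem_Ico.1 hj).1)), mul_zero]
    have hl0 : ∀ n γ', ¬ agr i.k γ γ' → h n γ' = 0 := by
      intro n γ' hna
      rw [hval]
      apply Finset.sum_eq_zero
      intro j hj
      rw [hUz, mul_zero]
      intro ha
      exact hna (ha.mono (hi.le.trans (hM.monotone (Finset.mem_Ico.1 hj).1)))
    rw [Nz_apply]
    apply l2_le_of_sq_le zero_le_one
    by_cases hex : ∃ γ₀ ∈ i.F, agr i.k γ γ₀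
    · obtain ⟨γ₀, hγ₀, ha⟩ := hex
      rw [Finset.sum_eq_single γ₀]
      · rw [hk0, sub_zero]
        have := hsup (i.l γ₀) γ₀
        gcongr
      · intro γ' hγ' hne'
        have hna : ¬ agr i.k γ γ' := fun ha' => hne' (i.hsep _ hγ' _ hγ₀ (ha'.symm.trans ha))
        rw [hk0, hl0 _ _ hna]
        simp
      · exact fun h => absurd hγ₀ h
    · push Not at hex
      rw [Finset.sum_eq_zero]
      · norm_num
      · intro γ' hγ'
        rw [hk0, hl0 _ _ (hex γ' hγ')]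
        simp

/-- Small operators on functions with small values. -/
lemma S4 (A : Z 𝕜 →L[𝕜] H) {δ : ℝ} (hδ : 0 < δ) : ∃ (M : ℕ) (ε : ℝ), 0 < ε ∧ ∀ f : Z 𝕜,
    P M f = 0 → (∀ n γ, ‖f n γ‖ ≤ ε) → ‖f‖ ≤ 1 → ‖A f‖ ≤ δ := by
  by_contra hcon
  push Not at hcon
  have hcon' : ∀ M : ℕ, ∃ f : Z 𝕜, P M f = 0 ∧ (∀ n γ, ‖f n γ‖ ≤ (1 / 4 : ℝ) ^ M) ∧ ‖f‖ ≤ 1 ∧
      δ < ‖A f‖ := fun M => hcon M ((1 / 4 : ℝ) ^ M) (by positivity)
  choose U hU1 hU2 hU3 hU4 using hcon'
  apply seq_contra A hδ (C := 2) zero_le_two U hU1 hU3 (fun M => (hU4 M).le)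
  intro M hM hP j₀ K ε hε i hi
  have hterm : ∀ j ∈ Finset.Ico j₀ K, Nz i (ε j • U (M j)) ≤ (1 / 2 : ℝ) ^ j := by
    intro j hj
    have hk : i.k < M j := hi.trans_le (hM.monotone (Finset.mem_Ico.1 hj).1)
    have hjM : j ≤ M j := hM.le_apply
    rw [map_smul_eq_mul]
    calc ‖ε j‖ * Nz i (U (M j)) ≤ 1 * Nz i (U (M j)) := by
          gcongr
          exact hε j
      _ = Nz i (U (M j)) := one_mul _
      _ ≤ (1 / 2 : ℝ) ^ (M j) := by
          rw [Nz_apply]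
          apply l2_le_of_sq_le (by positivity)
          calc ∑ γ ∈ i.F, ‖(U (M j)) (i.l γ) γ - (U (M j)) i.k γ‖ ^ 2
              ≤ ∑ γ ∈ i.F, ((1 / 4 : ℝ) ^ (M j)) ^ 2 := by
                gcongr with γ _
                rw [apply_eq_zero (hU1 _) hk.le, sub_zero]
                exact hU2 _ _ _
            _ = i.F.card * ((1 / 4 : ℝ) ^ (M j)) ^ 2 := by rw [Finset.sum_const, nsmul_eq_mul]
            _ ≤ 2 ^ (M j) * ((1 / 4 : ℝ) ^ (M j)) ^ 2 := by
                gcongr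
                have : i.F.card ≤ 2 ^ (M j) :=
                  i.hsep.card_le.trans (Nat.pow_le_pow_right (by norm_num) hk.le)
                exact_mod_cast this
            _ = (1 / 8 : ℝ) ^ (M j) := by
                rw [← pow_mul, mul_comm (M j) 2, pow_mul, ← mul_pow]
                norm_num
            _ ≤ ((1 / 2 : ℝ) ^ (M j)) ^ 2 := by
                rw [← pow_mul, mul_comm (M j) 2, pow_mul]
                gcongr
                norm_num
      _ ≤ (1 / 2 : ℝ) ^ j := pow_le_pow_of_le_one (by norm_num) (by norm_num) hjM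
  calc Nz i (∑ j ∈ Finset.Ico j₀ K, ε j • U (M j))
      ≤ ∑ j ∈ Finset.Ico j₀ K, Nz i (ε j • U (M j)) :=
        Finset.le_sum_of_subadditive _ (map_zero (Nz i)).le (map_add_le_add _) _ _
    _ ≤ ∑ j ∈ Finset.Ico j₀ K, (1 / 2 : ℝ) ^ j := Finset.sum_le_sum hterm
    _ ≤ ∑ j ∈ Finset.range K, (1 / 2 : ℝ) ^ j := by
        apply Finset.sum_le_sum_of_subset_of_nonneg
        · intro j hj
          exact Finset.mem_range.2 (Finset.mem_Ico.1 hj).2
        · intro j _ _; positivity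
    _ ≤ 2 := sum_geometric_two_le K

end Z

end Pool.Agent.H33
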