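import Pool.Agent.H33.Fam

/-!
The tree space `Z`: adapted, eventually constant processes on the Cantor set, with the control
norm of exponent `1/4` built from the level-wise maximal square function.
-/

namespace Pool.Agent.H33

open Set Filter Topology

/-! ### Agreement and separation -/

/-- `γ` and `γ'` agree up to level `n`. -/
def agr (n : ℕ) (γ γ' : ℕ → Bool) : Prop := ∀ i < n, γ i = γ' i

lemma agr.refl (n : ℕ) (γ : ℕ → Bool) : agr n γ γ := fun _ _ => rfl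
lemma agr.symm {n : ℕ} {γ γ' : ℕ → Bool} (h : agr n γ γ') : agr n γ' γ := fun i hi => (h i hi).symm
lemma agr.trans {n : ℕ} {γ γ' γ'' : ℕ → Bool} (h : agr n γ γ') (h' : agr n γ' γ'') :
    agr n γ γ'' := fun i hi => (h i hi).trans (h' i hi)
lemma agr.mono {m n : ℕ} {γ γ' : ℕ → Bool} (h : agr n γ γ') (hmn : m ≤ n) : agr m γ γ' :=
  fun i hi => h i (hi.trans_le hmn)
lemma agr_zero (γ γ' : ℕ → Bool) : agr 0 γ γ' := fun i hi => absurd hi (Nat.not_lt_zero i)

/-- restriction to the first `m` coordinates -/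
def res (m : ℕ) (γ : ℕ → Bool) : Fin m → Bool := fun i => γ i

/-- extension by `false` -/
def ext {m : ℕ} (s : Fin m → Bool) : ℕ → Bool := fun i => if h : i < m then s ⟨i, h⟩ else false

lemma res_ext {m : ℕ} (s : Fin m → Bool) : res m (ext s) = s := by
  funext i; simp [res, ext]

lemma agr_iff_res {m : ℕ} {γ γ' : ℕ → Bool} : agr m γ γ' ↔ res m γ = res m γ' := by
  constructor
  · intro h; funext i; exact h i i.2
  · intro h i hi; exact congrFun h ⟨i, hi⟩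

lemma agr_ext_res (m : ℕ) (γ : ℕ → Bool) : agr m (ext (res m γ)) γ := by
  rw [agr_iff_res, res_ext]

/-- A finite set of branches whose restrictions to level `k` are distinct. -/
def sep (k : ℕ) (F : Finset (ℕ → Bool)) : Prop := ∀ γ ∈ F, ∀ γ' ∈ F, agr k γ γ' → γ = γ'

lemma sep.mono {k k' : ℕ} {F : Finset (ℕ → Bool)} (h : sep k F) (hk : k ≤ k') : sep k' F :=
  fun γ hγ γ' hγ' ha => h γ hγ γ' hγ' (ha.mono hk)

lemma sep.subset {k : ℕ} {F G : Finset (ℕ → Bool)} (h : sep k F) (hG : G ⊆ F) : sep k G :=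
  fun γ hγ γ' hγ' ha => h γ (hG hγ) γ' (hG hγ') ha

lemma sep.card_le {k : ℕ} {F : Finset (ℕ → Bool)} (h : sep k F) : F.card ≤ 2 ^ k := by
  have h1 : F.card ≤ (Finset.univ : Finset (Fin k → Bool)).card := by
    apply Finset.card_le_card_of_injOn (res k)
    · intro γ _; exact Finset.mem_coe.2 (Finset.mem_univ _)
    · intro γ hγ γ' hγ' he
      exact h γ hγ γ' hγ' (agr_iff_res.2 he)
  simpa using h1

lemma exists_not_agr {γ γ' : ℕ → Bool} (h : γ ≠ γ') : ∃ k, ¬ agr k γ γ' := by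
  obtain ⟨i, hi⟩ := Function.ne_iff.1 h
  exact ⟨i + 1, fun ha => hi (ha i (Nat.lt_succ_self i))⟩

lemma exists_sep (F : Finset (ℕ → Bool)) : ∃ k, sep k F := by
  classical
  have h : ∀ p ∈ F ×ˢ F, ∃ k, agr k p.1 p.2 → p.1 = p.2 := by
    intro p _
    by_cases hp : p.1 = p.2
    · exact ⟨0, fun _ => hp⟩
    · obtain ⟨k, hk⟩ := exists_not_agr hp
      exact ⟨k, fun ha => absurd ha hk⟩
  choose! K hK using h
  refine ⟨(F ×ˢ F).sup K, fun γ hγ γ' hγ' ha => ?_⟩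
  have hm : (γ, γ') ∈ F ×ˢ F := Finset.mk_mem_product hγ hγ'
  exact hK (γ, γ') hm (ha.mono (Finset.le_sup (f := K) hm))

lemma sep_empty (k : ℕ) : sep k ∅ := fun γ hγ => absurd hγ (Finset.notMem_empty γ)

lemma sep_singleton (k : ℕ) (γ : ℕ → Bool) : sep k {γ} := by
  intro a ha b hb _
  rw [Finset.mem_singleton] at ha hb
  rw [ha, hb]

/-! ### The finite `ℓ₂` norm -/

section l2
variable {𝕜 α : Type*} [RCLike 𝕜]

/-- The `ℓ₂` norm over a finite set. -/
noncomputable def l2 (F : Finset α) (v : α → 𝕜) : ℝ := Real.sqrt (∑ γ ∈ F, ‖v γ‖ ^ 2)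

lemma l2_nonneg (F : Finset α) (v : α → 𝕜) : 0 ≤ l2 F v := Real.sqrt_nonneg _

lemma l2_sq (F : Finset α) (v : α → 𝕜) : l2 F v ^ 2 = ∑ γ ∈ F, ‖v γ‖ ^ 2 :=
  Real.sq_sqrt (Finset.sum_nonneg fun _ _ => by positivity)

lemma l2_eq_norm (F : Finset α) (v : α → 𝕜) :
    l2 F v = ‖(WithLp.toLp 2 (fun γ : F => v γ) : EuclideanSpace 𝕜 F)‖ := by
  rw [EuclideanSpace.norm_eq, l2]
  congr 1
  exact (Finset.sum_coe_sort F (fun γ => ‖v γ‖ ^ 2)).symm

lemma l2_add_le (F : Finset α) (v w : α → 𝕜) :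
    l2 F (fun γ => v γ + w γ) ≤ l2 F v + l2 F w := by
  rw [l2_eq_norm, l2_eq_norm, l2_eq_norm]
  exact norm_add_le (WithLp.toLp 2 (fun γ : F => v γ) : EuclideanSpace 𝕜 F)
    (WithLp.toLp 2 (fun γ : F => w γ))

lemma l2_smul (F : Finset α) (c : 𝕜) (v : α → 𝕜) :
    l2 F (fun γ => c * v γ) = ‖c‖ * l2 F v := by
  rw [l2_eq_norm, l2_eq_norm]
  exact norm_smul c (WithLp.toLp 2 (fun γ : F => v γ) : EuclideanSpace 𝕜 F)

lemma l2_le_of_sq_le {F : Finset α} {v : α → 𝕜} {B : ℝ} (hB : 0 ≤ B)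
    (h : ∑ γ ∈ F, ‖v γ‖ ^ 2 ≤ B ^ 2) : l2 F v ≤ B :=
  Real.sqrt_le_iff.2 ⟨hB, h⟩

lemma l2_congr {F : Finset α} {v w : α → 𝕜} (h : ∀ γ ∈ F, v γ = w γ) : l2 F v = l2 F w := by
  rw [l2, l2]
  congr 1
  exact Finset.sum_congr rfl fun γ hγ => by rw [h γ hγ]

lemma l2_zero (F : Finset α) : l2 F (fun _ => (0 : 𝕜)) = 0 := by simp [l2]

lemma l2_mono {F G : Finset α} (h : F ⊆ G) (v : α → 𝕜) : l2 F v ≤ l2 G v := by
  apply Real.sqrt_le_sqrt
  exact Finset.sum_le_sum_of_subset_of_nonneg h fun _ _ _ => by positivity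

lemma norm_le_l2 {F : Finset α} {γ : α} (h : γ ∈ F) (v : α → 𝕜) : ‖v γ‖ ≤ l2 F v := by
  apply Real.le_sqrt_of_sq_le
  exact Finset.single_le_sum (f := fun γ => ‖v γ‖ ^ 2) (fun _ _ => by positivity) h

lemma l2_singleton (γ : α) (v : α → 𝕜) : l2 {γ} v = ‖v γ‖ := by
  rw [l2, Finset.sum_singleton, Real.sqrt_sq (norm_nonneg _)]

end l2

/-! ### The space -/

/-- The underlying submodule. -/
def Zsub (𝕜 : Type*) [RCLike 𝕜] : Submodule 𝕜 (ℕ → (ℕ → Bool) → 𝕜) where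
  carrier := {f | (∀ γ, f 0 γ = 0) ∧ (∀ n γ γ', agr n γ γ' → f n γ = f n γ') ∧
    ∃ M, ∀ n γ, f (min n M) γ = f n γ}
  add_mem' := by
    rintro f g ⟨hf0, hf1, M, hM⟩ ⟨hg0, hg1, M', hM'⟩
    refine ⟨fun γ => ?_, fun n γ γ' h => ?_, max M M', fun n γ => ?_⟩
    · simp [hf0, hg0]
    · simp only [Pi.add_apply]; rw [hf1 n γ γ' h, hg1 n γ γ' h]
    · simp only [Pi.add_apply]
      have h1 : f (min n (max M M')) γ = f n γ := by
        rw [← hM, ← hM n]
        congr 1; omega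
      have h2 : g (min n (max M M')) γ = g n γ := by
        rw [← hM', ← hM' n]
        congr 1; omega
      rw [h1, h2]
  zero_mem' := ⟨fun _ => rfl, fun _ _ _ _ => rfl, 0, fun _ _ => rfl⟩
  smul_mem' := by
    rintro c f ⟨hf0, hf1, M, hM⟩
    refine ⟨fun γ => ?_, fun n γ γ' h => ?_, M, fun n γ => ?_⟩
    · simp [hf0]
    · simp only [Pi.smul_apply]; rw [hf1 n γ γ' h]
    · simp only [Pi.smul_apply]; rw [hM]

/-- The tree space. -/
def Z (𝕜 : Type*) [RCLike 𝕜] : Type _ := ↥(Zsub 𝕜)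

noncomputable instance (𝕜 : Type*) [RCLike 𝕜] : AddCommGroup (Z 𝕜) :=
  inferInstanceAs (AddCommGroup ↥(Zsub 𝕜))

noncomputable instance (𝕜 : Type*) [RCLike 𝕜] : Module 𝕜 (Z 𝕜) :=
  inferInstanceAs (Module 𝕜 ↥(Zsub 𝕜))

namespace Z

variable {𝕜 : Type*} [RCLike 𝕜]

/-- The underlying process. -/
noncomputable def val : Z 𝕜 →ₗ[𝕜] (ℕ → (ℕ → Bool) → 𝕜) := (Zsub 𝕜).subtype

noncomputable instance : CoeFun (Z 𝕜) fun _ => ℕ → (ℕ → Bool) → 𝕜 := ⟨fun f => val f⟩

/-- constructor -/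
noncomputable def mk (f : ℕ → (ℕ → Bool) → 𝕜) (h : f ∈ Zsub 𝕜) : Z 𝕜 := ⟨f, h⟩

@[simp] lemma mk_apply (f : ℕ → (ℕ → Bool) → 𝕜) (h : f ∈ Zsub 𝕜) (n : ℕ) (γ : ℕ → Bool) :
    (mk f h) n γ = f n γ := rfl

lemma val_mem (f : Z 𝕜) : val f ∈ Zsub 𝕜 := f.2

@[ext] lemma ext' {f g : Z 𝕜} (h : ∀ n γ, f n γ = g n γ) : f = g :=
  Subtype.ext (funext fun n => funext fun γ => h n γ)

@[simp] lemma add_apply (f g : Z 𝕜) (n : ℕ) (γ : ℕ → Bool) : (f + g) n γ = f n γ + g n γ := rfl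
@[simp] lemma sub_apply (f g : Z 𝕜) (n : ℕ) (γ : ℕ → Bool) : (f - g) n γ = f n γ - g n γ := rfl
@[simp] lemma neg_apply (f : Z 𝕜) (n : ℕ) (γ : ℕ → Bool) : (-f) n γ = - f n γ := rfl
@[simp] lemma smul_apply (c : 𝕜) (f : Z 𝕜) (n : ℕ) (γ : ℕ → Bool) : (c • f) n γ = c * f n γ := rfl
@[simp] lemma zero_apply (n : ℕ) (γ : ℕ → Bool) : (0 : Z 𝕜) n γ = 0 := rfl

@[simp] lemma sum_apply {ι : Type*} (s : Finset ι) (f : ι → Z 𝕜) (n : ℕ) (γ : ℕ → Bool) :
    (∑ i ∈ s, f i) n γ = ∑ i ∈ s, f i n γ := by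
  rw [map_sum]
  simp [Finset.sum_apply]

lemma zero_left (f : Z 𝕜) (γ : ℕ → Bool) : f 0 γ = 0 := (val_mem f).1 γ

lemma adapted (f : Z 𝕜) {n : ℕ} {γ γ' : ℕ → Bool} (h : agr n γ γ') : f n γ = f n γ' :=
  (val_mem f).2.1 n γ γ' h

lemma exists_stop (f : Z 𝕜) : ∃ M, ∀ n γ, f (min n M) γ = f n γ := (val_mem f).2.2

/-- Stopping at level `M`. -/
noncomputable def P (M : ℕ) : Z 𝕜 →ₗ[𝕜] Z 𝕜 where
  toFun f := mk (fun n γ => f (min n M) γ) (by
    refine ⟨fun γ => ?_, fun n γ γ' h => ?_, M, fun n γ => ?_⟩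
    · simp only [Nat.zero_min]; exact f.zero_left γ
    · exact f.adapted (h.mono (min_le_left _ _))
    · simp only [min_assoc, min_self])
  map_add' f g := rfl
  map_smul' c f := rfl

@[simp] lemma P_apply (M : ℕ) (f : Z 𝕜) (n : ℕ) (γ : ℕ → Bool) : (P M f) n γ = f (min n M) γ := rfl

lemma P_P (M M' : ℕ) (f : Z 𝕜) : P M (P M' f) = P (min M M') f := by
  ext n γ; simp [min_assoc]

lemma P_P_of_le {M M' : ℕ} (h : M ≤ M') (f : Z 𝕜) : P M (P M' f) = P M f := by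
  rw [P_P, min_eq_left h]

lemma P_P_of_le' {M M' : ℕ} (h : M ≤ M') (f : Z 𝕜) : P M' (P M f) = P M f := by
  rw [P_P, min_eq_right h]

lemma exists_P_eq (f : Z 𝕜) : ∃ M, P M f = f := by
  obtain ⟨M, hM⟩ := f.exists_stop
  exact ⟨M, by ext n γ; simp [hM]⟩

/-- A level at which `f` is stopped. -/
noncomputable def st (f : Z 𝕜) : ℕ := Classical.choose (exists_P_eq f)

lemma P_st (f : Z 𝕜) : P (st f) f = f := Classical.choose_spec (exists_P_eq f)

lemma P_of_st_le {f : Z 𝕜} {M : ℕ} (h : st f ≤ M) : P M f = f := by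
  conv_rhs => rw [← P_st f, ← P_P_of_le' h f]
  rw [P_st]

lemma P_zero (f : Z 𝕜) : P 0 f = 0 := by
  ext n γ; simp [zero_left]

lemma apply_of_le {f : Z 𝕜} {M n : ℕ} (hf : P M f = f) (h : M ≤ n) (γ : ℕ → Bool) :
    f n γ = f M γ := by
  conv_lhs => rw [← hf]
  rw [P_apply, min_eq_right h]

lemma apply_eq_zero {f : Z 𝕜} {M n : ℕ} (hf : P M f = 0) (h : n ≤ M) (γ : ℕ → Bool) :
    f n γ = 0 := by
  have := congrArg (fun g : Z 𝕜 => g n γ) hf
  simpa [min_eq_left h] using this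

/-- The value at infinity along `γ`. -/
noncomputable def inf (γ : ℕ → Bool) : Z 𝕜 →ₗ[𝕜] 𝕜 where
  toFun f := f (st f) γ
  map_add' f g := by
    have h1 : (f + g) (st (f + g)) γ = (f + g) (max (st (f + g)) (max (st f) (st g))) γ :=
      (apply_of_le (P_st (f + g)) (le_max_left _ _) γ).symm
    have h2 : f (st f) γ = f (max (st (f + g)) (max (st f) (st g))) γ :=
      (apply_of_le (P_st f) ((le_max_left _ _).trans (le_max_right _ _)) γ).symm
    have h3 : g (st g) γ = g (max (st (f + g)) (max (st f) (st g))) γ :=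
      (apply_of_le (P_st g) ((le_max_right _ _).trans (le_max_right _ _)) γ).symm
    rw [h1, h2, h3, add_apply]
  map_smul' c f := by
    have h1 : (c • f) (st (c • f)) γ = (c • f) (max (st (c • f)) (st f)) γ :=
      (apply_of_le (P_st (c • f)) (le_max_left _ _) γ).symm
    have h2 : f (st f) γ = f (max (st (c • f)) (st f)) γ :=
      (apply_of_le (P_st f) (le_max_right _ _) γ).symm
    rw [h1, h2, smul_apply, RingHom.id_apply, smul_eq_mul]

lemma inf_eq {f : Z 𝕜} {M : ℕ} (hf : P M f = f) (γ : ℕ → Bool) : inf γ f = f M γ := by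
  change f (st f) γ = f M γ
  rw [← apply_of_le (P_st f) (le_max_left (st f) M) γ, apply_of_le hf (le_max_right (st f) M) γ]

lemma inf_eq_of_le {f : Z 𝕜} {n : ℕ} (h : st f ≤ n) (γ : ℕ → Bool) : inf γ f = f n γ :=
  inf_eq (P_of_st_le h) γ

lemma exists_bound (f : Z 𝕜) : ∃ b : ℝ, 0 ≤ b ∧ ∀ n γ, ‖f n γ‖ ≤ b := by
  classical
  let M := st f
  refine ⟨∑ n ∈ Finset.range (M + 1), ∑ s : Fin M → Bool, ‖f n (Pool.Agent.H33.ext s)‖,
    by positivity, fun n γ => ?_⟩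
  have h1 : f n γ = f (min n M) (Pool.Agent.H33.ext (res M γ)) := by
    have : f n γ = f (min n M) γ := by
      conv_lhs => rw [← P_st f]
      rfl
    rw [this]
    exact f.adapted ((agr_ext_res M γ).symm.mono (min_le_right _ _))
  rw [h1]
  calc ‖f (min n M) (Pool.Agent.H33.ext (res M γ))‖
      ≤ ∑ s : Fin M → Bool, ‖f (min n M) (Pool.Agent.H33.ext s)‖ :=
        Finset.single_le_sum (f := fun s : Fin M → Bool => ‖f (min n M) (Pool.Agent.H33.ext s)‖)
          (fun _ _ => norm_nonneg _) (Finset.mem_univ _)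
    _ ≤ _ := Finset.single_le_sum
          (f := fun n => ∑ s : Fin M → Bool, ‖f n (Pool.Agent.H33.ext s)‖)
          (fun _ _ => by positivity)
          (Finset.mem_range.2 (Nat.lt_succ_of_le (min_le_right n M)))

end Z

/-- Index type for the seminorms defining the norm on `Z`. -/
structure ZI where
  k : ℕ
  n : ℕ
  F : Finset (ℕ → Bool)
  l : (ℕ → Bool) → ℕ
  hkn : k ≤ n
  hsep : sep k F
  hl : ∀ γ ∈ F, k ≤ l γ ∧ l γ ≤ n

namespace Z

variable {𝕜 : Type*} [RCLike 𝕜]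

/-- The seminorms on `Z`. -/
noncomputable def Nz (i : ZI) : Seminorm 𝕜 (Z 𝕜) :=
  Seminorm.of (fun f => l2 i.F (fun γ => f (i.l γ) γ - f i.k γ))
    (fun f g => by
      refine le_trans (le_of_eq ?_) (l2_add_le _ _ _)
      apply l2_congr
      intro γ _
      simp only [add_apply]
      ring)
    (fun c f => by
      rw [← l2_smul]
      apply l2_congr
      intro γ _
      simp only [smul_apply]
      ring)

lemma Nz_apply (i : ZI) (f : Z 𝕜) : Nz i f = l2 i.F (fun γ => f (i.l γ) γ - f i.k γ) := rfl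

/-- The family of seminorms on `Z`. -/
noncomputable def fam (𝕜 : Type*) [RCLike 𝕜] : Fam 𝕜 (Z 𝕜) ZI where
  N i := Nz i
  a i := i.k
  b i := i.n
  P := P
  hab i := i.hkn
  triv i h f := by
    rw [Nz_apply, ← l2_zero (𝕜 := 𝕜) i.F]
    apply l2_congr
    intro γ hγ
    have h1 := i.hl γ hγ
    have : i.l γ = i.k := by omega
    rw [this, sub_self]
  lo M i := by
    classical
    by_cases h : i.k ≤ M
    · refine ⟨⟨min i.k M, min i.n M, i.F, fun γ => min (i.l γ) M, min_le_min i.hkn le_rfl, ?_,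
        fun γ hγ => ⟨min_le_min (i.hl γ hγ).1 le_rfl, min_le_min (i.hl γ hγ).2 le_rfl⟩⟩,
        rfl, rfl, fun f => ?_⟩
      · rw [min_eq_left h]; exact i.hsep
      · rw [Nz_apply, Nz_apply]
        simp only [P_apply]
    · push Not at h
      refine ⟨⟨min i.k M, min i.n M, ∅, fun γ => min (i.l γ) M, min_le_min i.hkn le_rfl,
        sep_empty _, fun γ hγ => absurd hγ (Finset.notMem_empty γ)⟩,
        rfl, rfl, fun f => ?_⟩
      rw [Nz_apply, Nz_apply]
      simp only [P_apply]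
      have : l2 (∅ : Finset (ℕ → Bool)) (fun γ => f (min (i.l γ) M) γ - f (min i.k M) γ) = 0 := by
        simp [l2]
      rw [this, ← l2_zero (𝕜 := 𝕜) i.F]
      apply l2_congr
      intro γ hγ
      have h1 := i.hl γ hγ
      rw [min_eq_right h.le, min_eq_right (h.le.trans h1.1), sub_self]
  hi M i := by
    refine ⟨⟨max i.k M, max i.n M, i.F, fun γ => max (i.l γ) M, max_le_max i.hkn le_rfl,
      i.hsep.mono (le_max_left _ _),
      fun γ hγ => ⟨max_le_max (i.hl γ hγ).1 le_rfl, max_le_max (i.hl γ hγ).2 le_rfl⟩⟩,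
      rfl, rfl, fun f => ?_⟩
    rw [Nz_apply, Nz_apply]
    simp only [P_apply, sub_apply]
    apply l2_congr
    intro γ hγ
    have key : ∀ n : ℕ, f n γ - f (min n M) γ = f (max n M) γ - f M γ := by
      intro n
      rcases le_total n M with h | h
      · rw [min_eq_left h, max_eq_right h]; ring
      · rw [min_eq_right h, max_eq_left h]
    rw [key, key]; ring
  fin f := by
    obtain ⟨b, hb0, hb⟩ := f.exists_bound
    refine ⟨st f, Real.sqrt (2 ^ (st f) * (2 * b) ^ 2), fun i => ?_, P_st f⟩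
    rw [Nz_apply]
    by_cases h : st f ≤ i.k
    · have : l2 i.F (fun γ => f (i.l γ) γ - f i.k γ) = 0 := by
        rw [← l2_zero (𝕜 := 𝕜) i.F]
        apply l2_congr
        intro γ hγ
        have h1 := i.hl γ hγ
        rw [apply_of_le (P_st f) h, apply_of_le (P_st f) (h.trans h1.1), sub_self]
      rw [this]
      positivity
    · push Not at h
      apply Real.sqrt_le_sqrt
      calc ∑ γ ∈ i.F, ‖f (i.l γ) γ - f i.k γ‖ ^ 2 ≤ ∑ γ ∈ i.F, (2 * b) ^ 2 := by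
            gcongr with γ hγ
            calc ‖f (i.l γ) γ - f i.k γ‖ ≤ ‖f (i.l γ) γ‖ + ‖f i.k γ‖ := norm_sub_le _ _
              _ ≤ b + b := add_le_add (hb _ _) (hb _ _)
              _ = 2 * b := by ring
        _ = i.F.card * (2 * b) ^ 2 := by rw [Finset.sum_const, nsmul_eq_mul]
        _ ≤ 2 ^ (st f) * (2 * b) ^ 2 := by
            gcongr
            have h2 : i.F.card ≤ 2 ^ (st f) :=
              (i.hsep.card_le).trans (Nat.pow_le_pow_right (by norm_num) h.le)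
            exact_mod_cast h2

lemma fam_N (i : ZI) (f : Z 𝕜) : (fam 𝕜).N i f = l2 i.F (fun γ => f (i.l γ) γ - f i.k γ) := rfl
lemma fam_a (i : ZI) : (fam 𝕜).a i = i.k := rfl
lemma fam_b (i : ZI) : (fam 𝕜).b i = i.n := rfl
lemma fam_P (M : ℕ) : (fam 𝕜).P M = P M := rfl

/-- The norm on `Z`. -/
noncomputable def addGroupNorm (𝕜 : Type*) [RCLike 𝕜] : AddGroupNorm (Z 𝕜) where
  toFun f := (fam 𝕜).nm (1 / 4) f
  map_zero' := (fam 𝕜).nm_zero _
  add_le' f g := (fam 𝕜).nm_add_le (by norm_num) (by norm_num) f g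
  neg' f := by
    apply le_antisymm
    · have := (fam 𝕜).nm_smul (θ := 1 / 4) (by norm_num) (-1 : 𝕜) f
      simpa using this
    · have := (fam 𝕜).nm_smul (θ := 1 / 4) (by norm_num) (-1 : 𝕜) (-f)
      simpa using this
  eq_zero_of_map_eq_zero' f hf := by
    ext n γ
    have h := (fam 𝕜).N_le_nm (θ := 1 / 4) (by norm_num) f
      ⟨0, n, {γ}, fun _ => n, Nat.zero_le _, sep_singleton _ _, fun _ _ => ⟨Nat.zero_le _, le_rfl⟩⟩
    have hf' : (fam 𝕜).nm (1 / 4) f = 0 := hf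
    rw [hf', fam_N, l2_singleton] at h
    simp only [zero_left, sub_zero] at h
    simpa using h

noncomputable instance : NormedAddCommGroup (Z 𝕜) := (addGroupNorm 𝕜).toNormedAddCommGroup

lemma norm_def (f : Z 𝕜) : ‖f‖ = (fam 𝕜).nm (1 / 4) f := rfl

noncomputable instance : NormedSpace 𝕜 (Z 𝕜) where
  norm_smul_le c f := (fam 𝕜).nm_smul (by norm_num) c f

end Z

end Pool.Agent.H33
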