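import Pool.Agent.H33.Tree

/-!
Basic facts on the tree space `Z`.
-/

namespace Pool.Agent.H33

open Set Filter Topology

open Classical in
/-- A sum over pairs related by a partial matching. -/
lemma matching {𝕜 α β : Type*} [RCLike 𝕜] (G : Finset β) (F : Finset α) (r : α → β → Prop)
    (h1 : ∀ y ∈ G, ∀ x₁ ∈ F, ∀ x₂ ∈ F, r x₁ y → r x₂ y → x₁ = x₂)
    (h2 : ∀ x ∈ F, ∀ y₁ ∈ G, ∀ y₂ ∈ G, r x y₁ → r x y₂ → y₁ = y₂)
    (v : α → β → 𝕜) (B : α → ℝ) (hB : ∀ x ∈ F, ∀ y ∈ G, r x y → ‖v x y‖ ≤ B x) :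
    ∑ y ∈ G, ‖∑ x ∈ F, if r x y then v x y else 0‖ ^ 2 ≤ ∑ x ∈ F, B x ^ 2 := by
  have step1 : ∀ y ∈ G, ‖∑ x ∈ F, if r x y then v x y else 0‖ ^ 2 ≤
      ∑ x ∈ F, if r x y then B x ^ 2 else 0 := by
    intro y hy
    by_cases h : ∃ x₀ ∈ F, r x₀ y
    · obtain ⟨x₀, hx₀, hr⟩ := h
      have e1 : (∑ x ∈ F, if r x y then v x y else 0) = v x₀ y := by
        rw [Finset.sum_eq_single x₀]
        · rw [if_pos hr]
        · intro b hb hne
          rw [if_neg]
          exact fun hrb => hne (h1 y hy b hb x₀ hx₀ hrb hr)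
        · exact fun h => absurd hx₀ h
      rw [e1]
      calc ‖v x₀ y‖ ^ 2 ≤ B x₀ ^ 2 := by
            gcongr
            exact hB x₀ hx₀ y hy hr
        _ = if r x₀ y then B x₀ ^ 2 else 0 := by rw [if_pos hr]
        _ ≤ _ := Finset.single_le_sum (f := fun x => if r x y then B x ^ 2 else 0)
            (fun x _ => by split_ifs <;> positivity) hx₀
    · push Not at h
      have e1 : (∑ x ∈ F, if r x y then v x y else 0) = 0 := by
        apply Finset.sum_eq_zero
        intro x hx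
        rw [if_neg (h x hx)]
      rw [e1]
      simp only [norm_zero]
      rw [zero_pow two_ne_zero]
      exact Finset.sum_nonneg fun x _ => by split_ifs <;> positivity
  calc ∑ y ∈ G, ‖∑ x ∈ F, if r x y then v x y else 0‖ ^ 2
      ≤ ∑ y ∈ G, ∑ x ∈ F, if r x y then B x ^ 2 else 0 := Finset.sum_le_sum step1
    _ = ∑ x ∈ F, ∑ y ∈ G, if r x y then B x ^ 2 else 0 := Finset.sum_comm
    _ ≤ ∑ x ∈ F, B x ^ 2 := by
        apply Finset.sum_le_sum
        intro x hx
        by_cases h : ∃ y₀ ∈ G, r x y₀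
        · obtain ⟨y₀, hy₀, hr⟩ := h
          rw [Finset.sum_eq_single y₀]
          · rw [if_pos hr]
          · intro b hb hne
            rw [if_neg]
            exact fun hrb => hne (h2 x hx b hb y₀ hy₀ hrb hr)
          · exact fun h => absurd hy₀ h
        · push Not at h
          rw [Finset.sum_eq_zero]
          · positivity
          · intro y hy
            rw [if_neg (h y hy)]

namespace Z

variable {𝕜 : Type*} [RCLike 𝕜]

lemma norm_P_le (M : ℕ) (f : Z 𝕜) : ‖P M f‖ ≤ ‖f‖ := (fam 𝕜).nm_stop_le (by norm_num) M f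

lemma norm_sub_P_le (M : ℕ) (f : Z 𝕜) : ‖f - P M f‖ ≤ ‖f‖ :=
  (fam 𝕜).nm_sub_stop_le (by norm_num) M f

lemma N_le_norm (i : ZI) (f : Z 𝕜) : l2 i.F (fun γ => f (i.l γ) γ - f i.k γ) ≤ ‖f‖ :=
  (fam 𝕜).N_le_nm (θ := 1 / 4) (by norm_num) f i

lemma l2_le_norm {k : ℕ} {F : Finset (ℕ → Bool)} (hF : sep k F) (l : (ℕ → Bool) → ℕ)
    (hl : ∀ γ ∈ F, k ≤ l γ) (f : Z 𝕜) : l2 F (fun γ => f (l γ) γ - f k γ) ≤ ‖f‖ :=
  N_le_norm ⟨k, max k (F.sup l), F, l, le_max_left _ _, hF,
    fun γ hγ => ⟨hl γ hγ, (Finset.le_sup (f := l) hγ).trans (le_max_right _ _)⟩⟩ f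

lemma norm_apply_le (f : Z 𝕜) (n : ℕ) (γ : ℕ → Bool) : ‖f n γ‖ ≤ ‖f‖ := by
  have h := l2_le_norm (sep_singleton 0 γ) (fun _ => n) (fun _ _ => Nat.zero_le _) f
  rwa [l2_singleton, zero_left, sub_zero] at h

lemma norm_inf_le (f : Z 𝕜) (γ : ℕ → Bool) : ‖inf γ f‖ ≤ ‖f‖ := norm_apply_le f _ γ

lemma l2_inf_sub_le {m : ℕ} {F : Finset (ℕ → Bool)} (hF : sep m F) (f : Z 𝕜) :
    l2 F (fun γ => inf γ f - f m γ) ≤ ‖f‖ := by
  have h := l2_le_norm hF (fun _ => max m (st f)) (fun _ _ => le_max_left _ _) f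
  refine le_trans (le_of_eq (l2_congr fun γ _ => ?_)) h
  rw [inf_eq_of_le (le_max_right m (st f))]

lemma l2_inf_le {m : ℕ} {F : Finset (ℕ → Bool)} (hF : sep m F) {f : Z 𝕜} (hf : P m f = 0) :
    l2 F (fun γ => inf γ f) ≤ ‖f‖ := by
  refine le_trans (le_of_eq (l2_congr fun γ _ => ?_)) (l2_inf_sub_le hF f)
  rw [apply_eq_zero hf le_rfl, sub_zero]

lemma norm_le_of_control {f : Z 𝕜} {C L c : ℝ} {ω : ℕ → ℝ} (hC : 0 ≤ C)
    (hL : 0 ≤ L) (hω : Monotone ω) (hr : ∀ n, c ≤ ω n ∧ ω n ≤ c + L)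
    (h : ∀ i : ZI, l2 i.F (fun γ => f (i.l γ) γ - f i.k γ) ≤
      C * (ω i.n - ω i.k) ^ (1 / 4 : ℝ)) : ‖f‖ ≤ C * L ^ (1 / 4 : ℝ) :=
  (fam 𝕜).nm_le_of_control (by norm_num) hC hL hω hr h

/-! ### Elementary functions -/

open Classical in
/-- The function which is `1` on the nodes above `γ|n`. -/
noncomputable def e (n : ℕ) (γ : ℕ → Bool) : Z 𝕜 :=
  mk (fun k γ' => if n ≠ 0 ∧ n ≤ k ∧ agr n γ γ' then 1 else 0) (by
    refine ⟨fun γ' => ?_, fun k γ' γ'' h => ?_, n, fun k γ' => ?_⟩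
    · beta_reduce; rw [if_neg]; rintro ⟨h1, h2, -⟩; omega
    · have : (n ≠ 0 ∧ n ≤ k ∧ agr n γ γ') ↔ (n ≠ 0 ∧ n ≤ k ∧ agr n γ γ'') := by
        constructor
        · rintro ⟨h1, h2, h3⟩; exact ⟨h1, h2, h3.trans (h.mono h2)⟩
        · rintro ⟨h1, h2, h3⟩; exact ⟨h1, h2, h3.trans (h.mono h2).symm⟩
      simp only [this]
    · have : (n ≠ 0 ∧ n ≤ min k n ∧ agr n γ γ') ↔ (n ≠ 0 ∧ n ≤ k ∧ agr n γ γ') := by
        simp
      simp only [this])

open Classical in
lemma e_apply (n : ℕ) (γ : ℕ → Bool) (k : ℕ) (γ' : ℕ → Bool) :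
    (e n γ : Z 𝕜) k γ' = if n ≠ 0 ∧ n ≤ k ∧ agr n γ γ' then 1 else 0 := rfl

lemma e_apply_of_lt {n k : ℕ} (h : k < n) (γ γ' : ℕ → Bool) : (e n γ : Z 𝕜) k γ' = 0 := by
  rw [e_apply, if_neg]; rintro ⟨-, h2, -⟩; omega

lemma P_e_of_le {n M : ℕ} (h : n ≤ M) (γ : ℕ → Bool) : P M (e n γ : Z 𝕜) = e n γ := by
  classical
  ext k γ'
  rw [P_apply, e_apply, e_apply]
  have : n ≤ min k M ↔ n ≤ k := by omega
  simp only [this]

lemma P_e_of_lt {n M : ℕ} (h : M < n) (γ : ℕ → Bool) : P M (e n γ : Z 𝕜) = 0 := by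
  ext k γ'
  rw [P_apply, e_apply_of_lt (by omega), zero_apply]

lemma e_congr {n : ℕ} {γ γ' : ℕ → Bool} (h : agr n γ γ') : (e n γ : Z 𝕜) = e n γ' := by
  classical
  ext k γ''
  rw [e_apply, e_apply]
  have : agr n γ γ'' ↔ agr n γ' γ'' := ⟨fun h' => h.symm.trans h', fun h' => h.trans h'⟩
  simp only [this]

open Classical in
lemma inf_e (n : ℕ) (γ γ' : ℕ → Bool) :
    inf γ' (e n γ : Z 𝕜) = if n ≠ 0 ∧ agr n γ γ' then 1 else 0 := by
  rw [inf_eq (P_e_of_le (le_refl n) γ), e_apply]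
  simp

lemma norm_sum_e_le {n : ℕ} {F : Finset (ℕ → Bool)} (hF : sep n F) (b : (ℕ → Bool) → 𝕜) :
    ‖∑ γ ∈ F, b γ • (e n γ : Z 𝕜)‖ ≤ l2 F b := by
  classical
  have key : ‖∑ γ ∈ F, b γ • (e n γ : Z 𝕜)‖ ≤ l2 F b * 1 ^ (1 / 4 : ℝ) := by
    apply norm_le_of_control (c := 0) (ω := fun m => if n ≤ m then 1 else 0) (l2_nonneg _ _)
      zero_le_one
    · intro x y hxy
      simp only
      split_ifs with h1 h2
      · exact le_rfl
      · omega
      · exact zero_le_one
      · exact le_rfl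
    · intro m
      split_ifs <;> norm_num
    · intro i
      by_cases h : i.k < n ∧ n ≤ i.n
      · have hk : ¬ n ≤ i.k := by omega
        rw [if_pos h.2, if_neg hk, sub_zero, Real.one_rpow, mul_one]
        apply l2_le_of_sq_le (l2_nonneg _ _)
        rw [l2_sq]
        refine le_trans (le_of_eq ?_) (matching i.F F (fun γ γ' => agr n γ γ') ?_ ?_
          (fun γ γ' => if n ≠ 0 ∧ n ≤ i.l γ' then b γ else 0) (fun γ => ‖b γ‖) ?_)
        · apply Finset.sum_congr rfl
          intro γ' hγ'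
          congr 2
          rw [sum_apply, sum_apply, ← Finset.sum_sub_distrib]
          apply Finset.sum_congr rfl
          intro γ hγ
          rw [smul_apply, smul_apply, e_apply_of_lt h.1, mul_zero, sub_zero, e_apply]
          by_cases h1 : agr n γ γ' <;> by_cases h2 : n ≠ 0 <;> by_cases h3 : n ≤ i.l γ' <;>
            simp [h1, h2, h3]
        · intro y _ x₁ hx₁ x₂ hx₂ h1 h2
          exact hF x₁ hx₁ x₂ hx₂ (h1.trans h2.symm)
        · intro x _ y₁ hy₁ y₂ hy₂ h1 h2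
          exact i.hsep y₁ hy₁ y₂ hy₂ ((h1.symm.trans h2).mono h.1.le)
        · intro x _ y _ _
          split_ifs
          · exact le_rfl
          · rw [norm_zero]; exact norm_nonneg _
      · have h0 : l2 i.F (fun γ' => (∑ γ ∈ F, b γ • (e n γ : Z 𝕜)) (i.l γ') γ' -
            (∑ γ ∈ F, b γ • (e n γ : Z 𝕜)) i.k γ') = 0 := by
          rw [← l2_zero (𝕜 := 𝕜) i.F]
          apply l2_congr
          intro γ' hγ'
          rw [sum_apply, sum_apply, ← Finset.sum_sub_distrib]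
          apply Finset.sum_eq_zero
          intro γ hγ
          have hl := i.hl γ' hγ'
          rw [smul_apply, smul_apply, e_apply, e_apply]
          have : n ≤ i.l γ' ↔ n ≤ i.k := by omega
          simp only [this, sub_self]
        rw [h0]
        have h1 : (0 : ℝ) ≤ (if n ≤ i.n then (1 : ℝ) else 0) - (if n ≤ i.k then 1 else 0) := by
          have := i.hkn
          split_ifs with h2 h3 h4
          · norm_num
          · norm_num
          · omega
          · norm_num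
        have := l2_nonneg F b
        positivity
  simpa using key

lemma norm_e_le (n : ℕ) (γ : ℕ → Bool) : ‖(e n γ : Z 𝕜)‖ ≤ 1 := by
  have h := norm_sum_e_le (𝕜 := 𝕜) (sep_singleton n γ) (fun _ => 1)
  simpa [l2_singleton] using h

/-! ### Restriction to a set of nodes at level `m` -/

open Classical in
/-- Restriction of `f - P m f` to the part of the tree above the level `m` nodes in `S`. -/
noncomputable def chi (m : ℕ) (S : Set (Fin m → Bool)) : Z 𝕜 →ₗ[𝕜] Z 𝕜 where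
  toFun f := mk (fun n γ => if res m γ ∈ S then f n γ - f (min n m) γ else 0) (by
    refine ⟨fun γ => ?_, fun n γ γ' h => ?_, max m (st f), fun n γ => ?_⟩
    · simp [zero_left]
    · rcases le_total n m with hnm | hnm
      · simp [min_eq_left hnm]
      · beta_reduce
        rw [f.adapted h, f.adapted (h.mono (min_le_left n m)), agr_iff_res.1 (h.mono hnm)]
    · have h1 : f (min n (max m (st f))) γ = f n γ := by
        rcases le_total n (max m (st f)) with h | h
        · rw [min_eq_left h]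
        · rw [min_eq_right h, apply_of_le (P_st f) (le_max_right _ _),
            apply_of_le (P_st f) ((le_max_right _ _).trans h)]
      have h2 : min (min n (max m (st f))) m = min n m := by omega
      beta_reduce
      rw [h1, h2])
  map_add' f g := by
    ext n γ
    change (if res m γ ∈ S then (f + g) n γ - (f + g) (min n m) γ else 0) =
      (if res m γ ∈ S then f n γ - f (min n m) γ else 0) +
      (if res m γ ∈ S then g n γ - g (min n m) γ else 0)
    split_ifs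
    · simp only [add_apply]; ring
    · simp
  map_smul' c f := by
    ext n γ
    change (if res m γ ∈ S then (c • f) n γ - (c • f) (min n m) γ else 0) =
      c * (if res m γ ∈ S then f n γ - f (min n m) γ else 0)
    split_ifs
    · simp only [smul_apply]; ring
    · simp

open Classical in
lemma chi_apply (m : ℕ) (S : Set (Fin m → Bool)) (f : Z 𝕜) (n : ℕ) (γ : ℕ → Bool) :
    (chi m S f) n γ = if res m γ ∈ S then f n γ - f (min n m) γ else 0 := rfl

lemma norm_chi_le (m : ℕ) (S : Set (Fin m → Bool)) (f : Z 𝕜) : ‖chi m S f‖ ≤ ‖f‖ := by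
  classical
  refine le_trans ?_ (norm_sub_P_le m f)
  obtain ⟨ω, hm, hr, h⟩ := (fam 𝕜).exists_ctl (θ := 1 / 4) (by norm_num) (f - P m f)
  apply (fam 𝕜).nm_le_of_ctl (ω := ω) (norm_nonneg _)
  refine ⟨hm, hr, fun i => ?_⟩
  have h' := h ⟨i.k, i.n, i.F.filter (fun γ => res m γ ∈ S), i.l, i.hkn,
    i.hsep.subset (Finset.filter_subset _ _), fun γ hγ => i.hl γ (Finset.mem_filter.1 hγ).1⟩
  refine le_trans (le_of_eq ?_) h'
  rw [fam_N, fam_N, l2, l2]
  congr 1
  rw [Finset.sum_filter]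
  apply Finset.sum_congr rfl
  intro γ _
  rw [chi_apply, chi_apply]
  split_ifs with h1
  · rfl
  · simp

lemma P_chi (m : ℕ) (S : Set (Fin m → Bool)) (f : Z 𝕜) : P m (chi m S f) = 0 := by
  classical
  ext n γ
  rw [P_apply, chi_apply, zero_apply]
  simp

lemma chi_finset (m : ℕ) (S : Finset (Fin m → Bool)) (f : Z 𝕜) :
    chi m (S : Set (Fin m → Bool)) f = ∑ s ∈ S, chi m {s} f := by
  classical
  ext n γ
  rw [sum_apply, chi_apply]
  simp only [chi_apply, mem_singleton_iff, Finset.mem_coe]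
  rw [Finset.sum_ite_eq S (res m γ) (fun _ => f n γ - f (min n m) γ)]

lemma chi_add_compl (m : ℕ) (S : Set (Fin m → Bool)) (f : Z 𝕜) :
    chi m S f + chi m Sᶜ f = f - P m f := by
  classical
  ext n γ
  rw [add_apply, chi_apply, chi_apply, sub_apply, P_apply]
  by_cases h : res m γ ∈ S
  · simp [h]
  · simp [h]

/-! ### Expansion of stopped functions -/

lemma P_expand (m : ℕ) (f : Z 𝕜) : P m f = ∑ k ∈ Finset.range m, ∑ s : Fin (k + 1) → Bool,
    (f (k + 1) (Pool.Agent.H33.ext s) - f k (Pool.Agent.H33.ext s)) •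
      e (k + 1) (Pool.Agent.H33.ext s) := by
  classical
  ext n γ
  rw [P_apply, sum_apply]
  have h : ∀ k ∈ Finset.range m, (∑ s : Fin (k + 1) → Bool,
      (f (k + 1) (Pool.Agent.H33.ext s) - f k (Pool.Agent.H33.ext s)) •
      (e (k + 1) (Pool.Agent.H33.ext s) : Z 𝕜)) n γ =
      f (min n (k + 1)) γ - f (min n k) γ := by
    intro k _
    rw [sum_apply, Finset.sum_eq_single (res (k + 1) γ)]
    · have h1 := agr_ext_res (k + 1) γ
      rw [smul_apply, e_apply, f.adapted h1, f.adapted (h1.mono (Nat.le_succ k))]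
      by_cases hk : k + 1 ≤ n
      · rw [if_pos ⟨Nat.succ_ne_zero k, hk, h1⟩, mul_one, min_eq_right hk,
          min_eq_right ((Nat.le_succ k).trans hk)]
      · rw [if_neg (fun h => hk h.2.1), mul_zero, min_eq_left (by omega), min_eq_left (by omega),
          sub_self]
    · intro s _ hs
      rw [smul_apply, e_apply, if_neg, mul_zero]
      rintro ⟨-, -, h3⟩
      apply hs
      rw [← agr_iff_res.1 h3, res_ext]
    · intro h; exact absurd (Finset.mem_univ _) h
  rw [Finset.sum_congr rfl h, Finset.sum_range_sub (fun k => f (min n k) γ)]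
  rw [min_eq_right (Nat.zero_le n), zero_left, sub_zero]

end Z

end Pool.Agent.H33
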